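import Mathlib
import Pool.Agent.H79.CutBroom

/-!
# Definitions for the upper bound of the broom walk with a long tail

Cards and positions are `Fin n`; `σ x` is the card at position `x`; a step is `σ ↦ σ * gl n k i`.
-/

namespace Pool.Agent.H9.Cut

open Equiv Finset Pool.Agent.H79.Cut

section gen

variable {α : Type*} [Fintype α] [DecidableEq α]

/-- the (unnormalised) inner product -/
noncomputable def ip (f g : Perm α → ℝ) : ℝ := ∑ σ, f σ * g σ

/-- `f` depends only on the positions of the cards in `A`. -/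
def ZZ (A : Finset α) (f : Perm α → ℝ) : Prop := ∀ τ ∈ Fx A, ∀ σ, f (τ * σ) = f σ

/-- new functions of the positions of the cards in `A` -/
def NN (A : Finset α) (f : Perm α → ℝ) : Prop :=
  ZZ A f ∧ ∀ a ∈ A, ∀ σ, ∑ c ∈ insert a Aᶜ, f (swap a c * σ) = 0

end gen

/-- the lazy version of an operator: it moves with probability `1 / M` only -/
noncomputable def lz {ι : Type*} (M : ℕ) (T : (ι → ℝ) → (ι → ℝ)) (f : ι → ℝ) : ι → ℝ :=
  fun x => (1 - 1 / (M : ℝ)) * f x + 1 / (M : ℝ) * T f x

/-- the path letters (equivalently the path positions) -/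
def pt (n k : ℕ) : Finset (Fin n) := univ.filter fun i : Fin n => n ≤ (i : ℕ) + k

/-- the leaf letters (equivalently the leaves) -/
def lv (n k : ℕ) [NeZero n] : Finset (Fin n) :=
  univ.filter fun i : Fin n => i ≠ 0 ∧ (i : ℕ) + k < n

/-- the dominating kernel for the cards `A`: a card of `A` at the hub is killed, up to a
reinjection into the path. -/
noncomputable def BB (n k : ℕ) [NeZero n] (A : Finset (Fin n)) (ψ : Perm (Fin n) → ℝ) :
    Perm (Fin n) → ℝ := fun σ =>
  (if σ 0 ∈ A then
      (∑ i ∈ pt n k, ψ (σ * gl n k i)) + (∑ i ∈ (lv n k).filter (fun i => σ i ∈ A), ψ (σ * gl n k i))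
        + ∑ z ∈ (pt n k).filter (fun z => σ z ∉ A), ψ (σ * swap 0 z)
    else ∑ i, ψ (σ * gl n k i)) / n

/-- the single particle operator; `q` is the holding weight at the hub -/
noncomputable def PP (n k : ℕ) [NeZero n] (q : ℝ) (u : Fin n → ℝ) : Fin n → ℝ := fun x =>
  (if x = 0 then q * u 0 + ∑ z ∈ pt n k, u z else ∑ i, u (gl n k i x)) / n

/-- product functions -/
noncomputable def Pi' {n : ℕ} (A : Finset (Fin n)) (u : Fin n → ℝ) (σ : Perm (Fin n)) : ℝ :=
  ∏ a ∈ A, u (σ⁻¹ a)

end Pool.Agent.H9.Cut
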