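import Mathlib
import Pool.Agent.H9.Cut.Defs

/-!
# The kernel `BB` dominates the walk on new functions
-/

namespace Pool.Agent.H9.Cut

open Equiv Finset Pool.Agent.H79.Cut

section gen

variable {ι : Type*}

lemma lzmono {M : ℕ} (hM : 1 ≤ M) {T : (ι → ℝ) → (ι → ℝ)}
    (hT : ∀ f g : ι → ℝ, (∀ x, f x ≤ g x) → ∀ x, T f x ≤ T g x) :
    ∀ f g : ι → ℝ, (∀ x, f x ≤ g x) → ∀ x, lz M T f x ≤ lz M T g x := by
  intro f g hfg x
  have hM' : (1 : ℝ) ≤ M := by exact_mod_cast hM
  have h1 : 1 / (M : ℝ) ≤ 1 := by rw [div_le_one (by linarith)]; exact hM'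
  have h2 : 0 ≤ 1 / (M : ℝ) := by positivity
  unfold lz
  have h3 := mul_le_mul_of_nonneg_left (hfg x) (by linarith : 0 ≤ 1 - 1 / (M : ℝ))
  have h4 := mul_le_mul_of_nonneg_left (hT f g hfg x) h2
  linarith

lemma itmono {T : (ι → ℝ) → (ι → ℝ)}
    (hT : ∀ f g : ι → ℝ, (∀ x, f x ≤ g x) → ∀ x, T f x ≤ T g x) (s : ℕ) :
    ∀ f g : ι → ℝ, (∀ x, f x ≤ g x) → ∀ x, T^[s] f x ≤ T^[s] g x := by
  induction s with
  | zero => intro f g h; exact h
  | succ s ih =>
    intro f g h
    rw [Function.iterate_succ_apply, Function.iterate_succ_apply]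
    exact ih _ _ (hT f g h)

end gen

variable {n k : ℕ} [NeZero n]

lemma BBmono (A : Finset (Fin n)) : ∀ f g : Perm (Fin n) → ℝ, (∀ x, f x ≤ g x) →
    ∀ x, BB n k A f x ≤ BB n k A g x := by
  intro f g h σ
  unfold BB
  apply div_le_div_of_nonneg_right _ (npos (n := n)).le
  split_ifs
  · exact add_le_add (add_le_add (sum_le_sum fun i _ => h _) (sum_le_sum fun i _ => h _))
      (sum_le_sum fun i _ => h _)
  · exact sum_le_sum fun i _ => h _

/-- `BB` as a linear map -/
noncomputable def BBl (n k : ℕ) [NeZero n] (A : Finset (Fin n)) :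
    (Perm (Fin n) → ℝ) →ₗ[ℝ] (Perm (Fin n) → ℝ) where
  toFun := BB n k A
  map_add' f g := by
    funext σ
    simp only [BB, Pi.add_apply, sum_add_distrib]
    split_ifs <;> ring
  map_smul' c f := by
    funext σ
    simp only [BB, Pi.smul_apply, smul_eq_mul, ← mul_sum, RingHom.id_apply]
    split_ifs <;> ring

/-- the iterated lazy version as a linear map -/
lemma exists_lin (M : ℕ) (A : Finset (Fin n)) (s : ℕ) :
    ∃ L : (Perm (Fin n) → ℝ) →ₗ[ℝ] (Perm (Fin n) → ℝ),
      ∀ f, L f = (lz M (BB n k A))^[s] f := by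
  induction s with
  | zero => exact ⟨LinearMap.id, fun f => rfl⟩
  | succ s ih =>
    obtain ⟨L, hL⟩ := ih
    refine ⟨L ∘ₗ ((1 - 1 / (M : ℝ)) • LinearMap.id + (1 / (M : ℝ)) • BBl n k A), fun f => ?_⟩
    rw [Function.iterate_succ_apply, LinearMap.comp_apply, hL]
    rfl

lemma univ_split (hk : k < n) : (univ : Finset (Fin n)) = insert 0 (lv n k ∪ pt n k) := by
  ext i
  simp only [mem_univ, lv, pt, mem_insert, mem_union, mem_filter, true_and, true_iff]
  by_cases h : i = 0
  · left; exact h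
  · right
    by_cases h2 : (i : ℕ) + k < n
    · left; exact ⟨h, h2⟩
    · right; omega

lemma zero_notMem (hk : k < n) : (0 : Fin n) ∉ lv n k ∪ pt n k := by
  simp only [lv, pt, mem_union, mem_filter, mem_univ, true_and, Fin.val_zero]
  rintro (h | h)
  · exact h.1 rfl
  · omega

lemma disj_lv_pt : Disjoint (lv n k) (pt n k) := by
  rw [disjoint_left]
  intro i h1 h2
  simp only [lv, pt, mem_filter, mem_univ, true_and] at h1 h2
  omega

lemma sum_split (hk : k < n) (F : Fin n → ℝ) :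
    ∑ i, F i = F 0 + (∑ i ∈ lv n k, F i + ∑ i ∈ pt n k, F i) := by
  rw [univ_split hk, sum_insert (zero_notMem hk), sum_union disj_lv_pt]

lemma NN_K {A : Finset (Fin n)} {f : Perm (Fin n) → ℝ} (hf : NN A f) : NN A (K n k f) := by
  constructor
  · intro τ hτ σ
    unfold K
    congr 1
    apply sum_congr rfl
    intro i _
    rw [mul_assoc]
    exact hf.1 τ hτ _
  · intro a ha σ
    unfold K
    rw [← sum_div, sum_comm]
    have : ∀ i : Fin n, ∑ c ∈ insert a Aᶜ, f (swap a c * σ * gl n k i) = 0 := by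
      intro i
      have := hf.2 a ha (σ * gl n k i)
      simpa only [mul_assoc] using this
    rw [sum_eq_zero fun i _ => this i, zero_div]

lemma NN_lz (M : ℕ) {A : Finset (Fin n)} {f : Perm (Fin n) → ℝ} (hf : NN A f) :
    NN A (lz M (K n k) f) := by
  have h := NN_K (k := k) hf
  constructor
  · intro τ hτ σ
    unfold lz
    rw [hf.1 τ hτ σ, h.1 τ hτ σ]
  · intro a ha σ
    unfold lz
    rw [sum_add_distrib, ← mul_sum, ← mul_sum, hf.2 a ha σ, h.2 a ha σ]
    ring

lemma swap_mul_perm (σ : Perm (Fin n)) (x y : Fin n) :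
    swap (σ x) (σ y) * σ = σ * swap x y := by
  ext z
  simp only [Perm.mul_apply]
  congr 1
  by_cases h1 : z = x
  · rw [h1]; simp
  · by_cases h2 : z = y
    · rw [h2]; simp
    · rw [swap_apply_of_ne_of_ne h1 h2, swap_apply_of_ne_of_ne]
      · exact fun h => h1 (σ.injective h)
      · exact fun h => h2 (σ.injective h)

/-- newness, in terms of positions -/
lemma new_pos {A : Finset (Fin n)} {f : Perm (Fin n) → ℝ} (hf : NN A f) {σ : Perm (Fin n)}
    {x : Fin n} (hx : σ x ∈ A) :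
    ∑ z ∈ univ.filter (fun z => z = x ∨ σ z ∉ A), f (σ * swap x z) = 0 := by
  rw [← hf.2 (σ x) hx σ]
  apply sum_bij (fun z _ => σ z)
  · intro z hz
    rw [mem_filter] at hz
    rw [mem_insert, mem_compl]
    rcases hz.2 with h | h
    · left; rw [h]
    · right; exact h
  · intro z _ z' _ h; exact σ.injective h
  · intro c hc
    refine ⟨σ⁻¹ c, ?_, Equiv.apply_symm_apply σ c⟩
    have hcc : σ (σ⁻¹ c) = c := Equiv.apply_symm_apply σ c
    rw [mem_filter]
    refine ⟨mem_univ _, ?_⟩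
    rw [mem_insert, mem_compl] at hc
    rcases hc with h | h
    · left; rw [h]; exact Equiv.symm_apply_apply σ x
    · right; rw [hcc]; exact h
  · intro z _
    rw [swap_mul_perm]

lemma K_dom (hk : k < n) {A : Finset (Fin n)} {f : Perm (Fin n) → ℝ} (hf : NN A f)
    (σ : Perm (Fin n)) : |K n k f σ| ≤ BB n k A (fun ρ => |f ρ|) σ := by
  have hn := npos (n := n)
  unfold K BB
  rw [abs_div, abs_of_pos hn]
  apply div_le_div_of_nonneg_right _ hn.le
  by_cases h0 : σ 0 ∈ A
  · rw [if_pos h0]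
    have hnew := new_pos hf h0
    have e1 : (univ.filter fun z => z = 0 ∨ σ z ∉ A) =
        insert 0 ((lv n k).filter (fun z => σ z ∉ A) ∪ (pt n k).filter (fun z => σ z ∉ A)) := by
      rw [← filter_union]
      ext z
      have hz : z ∈ (univ : Finset (Fin n)) := mem_univ z
      rw [univ_split hk, mem_insert] at hz
      rw [mem_filter, mem_insert, mem_filter]
      constructor
      · rintro ⟨_, h | h⟩
        · left; exact h
        · rcases hz with h2 | h2
          · left; exact h2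
          · right; exact ⟨h2, h⟩
      · rintro (h | h)
        · exact ⟨mem_univ _, Or.inl h⟩
        · exact ⟨mem_univ _, Or.inr h.2⟩
    have hdj : Disjoint ((lv n k).filter (fun z => σ z ∉ A)) ((pt n k).filter (fun z => σ z ∉ A)) :=
      disjoint_filter_filter disj_lv_pt
    have h0n : (0 : Fin n) ∉ (lv n k).filter (fun z => σ z ∉ A) ∪
        (pt n k).filter (fun z => σ z ∉ A) := by
      rw [← filter_union, mem_filter]
      rintro ⟨h, _⟩
      exact zero_notMem hk h
    rw [e1, sum_insert h0n, sum_union hdj] at hnew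
    have e2 : ∑ i ∈ lv n k, f (σ * gl n k i) =
        ∑ i ∈ (lv n k).filter (fun i => σ i ∈ A), f (σ * gl n k i) +
        ∑ i ∈ (lv n k).filter (fun i => σ i ∉ A), f (σ * swap 0 i) := by
      rw [← sum_filter_add_sum_filter_not (lv n k) (fun i => σ i ∈ A)]
      congr 1
      apply sum_congr rfl
      intro i hi
      rw [mem_filter] at hi
      have hi2 := hi.1
      simp only [lv, mem_filter, mem_univ, true_and] at hi2
      unfold gl
      rw [par_of_lt hi2.2, swap_comm]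
    have e3 : f (σ * gl n k 0) = f (σ * swap 0 0) := by
      rw [gl_zero hk, swap_self]; rfl
    have e4 : ∑ i, f (σ * gl n k i) =
        (∑ i ∈ pt n k, f (σ * gl n k i)) +
        (∑ i ∈ (lv n k).filter (fun i => σ i ∈ A), f (σ * gl n k i)) -
        ∑ z ∈ (pt n k).filter (fun z => σ z ∉ A), f (σ * swap 0 z) := by
      rw [sum_split hk, e2, e3]
      linarith
    rw [e4]
    refine (abs_sub _ _).trans ?_
    refine add_le_add ((abs_add_le _ _).trans ?_) (abs_sum_le_sum_abs _ _)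
    exact add_le_add (abs_sum_le_sum_abs _ _) (abs_sum_le_sum_abs _ _)
  · rw [if_neg h0]
    exact abs_sum_le_sum_abs _ _

lemma lz_dom (hk : k < n) {M : ℕ} (hM : 1 ≤ M) {A : Finset (Fin n)} {f : Perm (Fin n) → ℝ}
    (hf : NN A f) (σ : Perm (Fin n)) :
    |lz M (K n k) f σ| ≤ lz M (BB n k A) (fun ρ => |f ρ|) σ := by
  have hM' : (1 : ℝ) ≤ M := by exact_mod_cast hM
  have h1 : 1 / (M : ℝ) ≤ 1 := by rw [div_le_one (by linarith)]; exact hM'
  have h2 : 0 ≤ 1 / (M : ℝ) := by positivity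
  unfold lz
  refine (abs_add_le _ _).trans ?_
  rw [abs_mul, abs_mul, abs_of_nonneg h2, abs_of_nonneg (by linarith : 0 ≤ 1 - 1 / (M : ℝ))]
  exact add_le_add le_rfl (mul_le_mul_of_nonneg_left (K_dom hk hf σ) h2)

lemma it_dom (hk : k < n) {M : ℕ} (hM : 1 ≤ M) {A : Finset (Fin n)} (s : ℕ) :
    ∀ {f : Perm (Fin n) → ℝ}, NN A f → ∀ (σ : Perm (Fin n)),
    |(lz M (K n k))^[s] f σ| ≤ (lz M (BB n k A))^[s] (fun ρ => |f ρ|) σ := by
  induction s with
  | zero => intro f _ σ; exact le_rfl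
  | succ s ih =>
    intro f hf σ
    rw [Function.iterate_succ_apply, Function.iterate_succ_apply]
    refine (ih (NN_lz M hf) σ).trans ?_
    exact itmono (lzmono hM (BBmono A)) s _ _ (fun ρ => lz_dom hk hM hf ρ) σ

/-- indicator of the event that the cards in `A` are where they are in `ρ` -/
noncomputable def same {n : ℕ} (A : Finset (Fin n)) (ρ σ : Perm (Fin n)) : ℝ :=
  if ∀ a ∈ A, σ⁻¹ a = ρ⁻¹ a then 1 else 0

lemma sq_eq {A : Finset (Fin n)} {f : Perm (Fin n) → ℝ} (hf : ZZ A f) (σ : Perm (Fin n)) :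
    ∑ ρ, f ρ ^ 2 * same A ρ σ = (Fx A).card * f σ ^ 2 := by
  have h1 : ∑ ρ, f ρ ^ 2 * same A ρ σ = ∑ ρ ∈ univ.filter (fun ρ : Perm (Fin n) =>
      ∀ a ∈ A, σ⁻¹ a = ρ⁻¹ a), f ρ ^ 2 := by
    rw [sum_filter]
    apply sum_congr rfl
    intro ρ _
    unfold same
    split_ifs <;> simp
  rw [h1, ← nsmul_eq_mul, ← sum_const]
  symm
  apply sum_bij (fun τ _ => τ * σ)
  · intro τ hτ
    rw [mem_filter]
    refine ⟨mem_univ _, fun a ha => ?_⟩
    rw [mul_inv_rev, Perm.mul_apply]
    congr 1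
    have := mem_Fx.mp (inv_mem_Fx hτ) a ha
    exact this.symm
  · intro τ _ τ' _ h; exact mul_right_cancel h
  · intro ρ hρ
    rw [mem_filter] at hρ
    refine ⟨ρ * σ⁻¹, ?_, by simp⟩
    have : (ρ * σ⁻¹)⁻¹ ∈ Fx A := by
      rw [mem_Fx]
      intro a ha
      rw [mul_inv_rev, inv_inv, Perm.mul_apply, ← hρ.2 a ha]
      exact Equiv.apply_symm_apply σ a
    have h2 := inv_mem_Fx this
    rwa [inv_inv] at h2
  · intro τ hτ
    rw [hf τ hτ]

/-- The basic bound: the value at the identity of an iterate of a new function. -/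
lemma new_bound (hk : k < n) {M : ℕ} (hM : 1 ≤ M) {A : Finset (Fin n)} (s : ℕ)
    {f : Perm (Fin n) → ℝ} (hf : NN A f) {X Y : ℝ}
    (hX : (lz M (BB n k A))^[s] (fun _ => 1) 1 ≤ X)
    (hY : ∀ ρ : Perm (Fin n), (lz M (BB n k A))^[s] (same A ρ) 1 ≤ Y) :
    ((lz M (K n k))^[s] f 1) ^ 2 ≤ X * (Y * ip f f / (Fx A).card) := by
  obtain ⟨L, hL⟩ := exists_lin (n := n) (k := k) M A s
  have hmono : ∀ f g : Perm (Fin n) → ℝ, (∀ x, f x ≤ g x) → ∀ x, L f x ≤ L g x := by
    intro f g h x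
    rw [hL, hL]
    exact itmono (lzmono hM (BBmono A)) s _ _ h x
  have h0 : ∀ g : Perm (Fin n) → ℝ, (∀ x, 0 ≤ g x) → 0 ≤ L g 1 := by
    intro g hg
    have := hmono 0 g (by simpa using hg) 1
    rw [map_zero] at this
    exact this
  have hdom := it_dom hk hM s hf 1
  rw [← hL] at hdom
  -- Cauchy-Schwarz
  set F : Perm (Fin n) → ℝ := fun ρ => |f ρ| with hF
  have hquad : ∀ c : ℝ, 0 ≤ c ^ 2 * L (fun _ => 1) 1 - 2 * c * L F 1 + L (fun ρ => f ρ ^ 2) 1 := by
    intro c
    have h1 : L (fun ρ => (c - F ρ) ^ 2) =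
        c ^ 2 • L (fun _ => 1) - (2 * c) • L F + L (fun ρ => f ρ ^ 2) := by
      rw [← map_smul, ← map_smul, ← map_sub, ← map_add]
      congr 1
      funext ρ
      simp only [Pi.add_apply, Pi.sub_apply, Pi.smul_apply, smul_eq_mul, hF]
      have : |f ρ| ^ 2 = f ρ ^ 2 := sq_abs _
      nlinarith
    have h2 := h0 (fun ρ => (c - F ρ) ^ 2) (fun ρ => sq_nonneg _)
    rw [h1] at h2
    simpa using h2
  have hCS : (L F 1) ^ 2 ≤ L (fun _ => 1) 1 * L (fun ρ => f ρ ^ 2) 1 := by
    set p := L (fun _ => (1:ℝ)) 1 with hp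
    set r := L (fun ρ => f ρ ^ 2) 1 with hr
    set m := L F 1 with hm
    have hp0 : 0 ≤ p := h0 _ (fun _ => zero_le_one)
    have hr0 : 0 ≤ r := h0 _ (fun ρ => sq_nonneg _)
    have hm0 : 0 ≤ m := h0 _ (fun ρ => abs_nonneg _)
    rcases hp0.eq_or_lt with hp1 | hp1
    · -- p = 0
      have : m = 0 := by
        by_contra hne
        have hmpos : 0 < m := lt_of_le_of_ne hm0 (Ne.symm hne)
        have := hquad ((r + 1) / (2 * m))
        rw [← hp1] at this
        have e : 2 * ((r + 1) / (2 * m)) * m = r + 1 := by field_simp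
        rw [e] at this
        linarith
      rw [this, ← hp1]; simp
    · have := hquad (m / p)
      have e : (m / p) ^ 2 * p - 2 * (m / p) * m + r = r - m ^ 2 / p := by field_simp; ring
      rw [e] at this
      have h2 : m ^ 2 / p ≤ r := by linarith
      rw [div_le_iff₀ hp1] at h2
      linarith
  -- the second moment
  have hcard : (0 : ℝ) < (Fx A).card := by exact_mod_cast Fx_card_pos A
  have hsq : L (fun σ => f σ ^ 2) 1 ≤ Y * ip f f / (Fx A).card := by
    have e1 : (fun σ : Perm (Fin n) => f σ ^ 2) =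
        ∑ ρ, (f ρ ^ 2 / (Fx A).card) • same A ρ := by
      funext σ
      rw [Finset.sum_apply]
      have := sq_eq hf.1 σ
      simp only [Pi.smul_apply, smul_eq_mul]
      have e2 : ∑ ρ, f ρ ^ 2 / (Fx A).card * same A ρ σ =
          (∑ ρ, f ρ ^ 2 * same A ρ σ) / (Fx A).card := by
        rw [sum_div]; apply sum_congr rfl; intro ρ _; ring
      rw [e2, this]; field_simp
    rw [e1, map_sum, Finset.sum_apply]
    calc ∑ ρ, L ((f ρ ^ 2 / (Fx A).card) • same A ρ) 1 ≤ ∑ ρ, (f ρ ^ 2 / (Fx A).card) * Y := by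
          apply sum_le_sum
          intro ρ _
          rw [map_smul, Pi.smul_apply, smul_eq_mul]
          apply mul_le_mul_of_nonneg_left _ (by positivity)
          rw [hL]; exact hY ρ
      _ = Y * ip f f / (Fx A).card := by
          unfold ip
          rw [← sum_mul, ← sum_div]
          have : ∑ i, f i ^ 2 = ∑ σ, f σ * f σ := by
            apply sum_congr rfl; intro i _; ring
          rw [this]; ring
  have h1 : ((lz M (K n k))^[s] f 1) ^ 2 ≤ (L F 1) ^ 2 := by
    rw [← sq_abs]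
    exact pow_le_pow_left₀ (abs_nonneg _) hdom 2
  have hp0 : 0 ≤ L (fun _ => (1:ℝ)) 1 := h0 _ (fun _ => zero_le_one)
  have hr0 : 0 ≤ L (fun ρ => f ρ ^ 2) 1 := h0 _ (fun ρ => sq_nonneg _)
  have hX' : L (fun _ => (1:ℝ)) 1 ≤ X := by rw [hL]; exact hX
  calc _ ≤ _ := h1
    _ ≤ _ := hCS
    _ ≤ X * L (fun ρ => f ρ ^ 2) 1 := mul_le_mul_of_nonneg_right hX' hr0
    _ ≤ _ := mul_le_mul_of_nonneg_left hsq (hp0.trans hX')

end Pool.Agent.H9.Cut
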