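import Mathlib
import Pool.Agent.H9.Cut.Defs

/-!
# The product inequality (module W2 of MP_55bcd1_pr)
-/

namespace Pool.Agent.H9.Cut

open Equiv Finset Pool.Agent.H79.Cut

variable {n k : ℕ} [NeZero n]

/-- the positions of the cards of `A` -/
def posn {n : ℕ} (A : Finset (Fin n)) (σ : Perm (Fin n)) : Finset (Fin n) :=
  A.map (σ⁻¹).toEmbedding

omit [NeZero n] in
lemma mem_posn {A : Finset (Fin n)} {σ : Perm (Fin n)} {x : Fin n} :
    x ∈ posn A σ ↔ σ x ∈ A := by
  unfold posn
  rw [Finset.mem_map_equiv]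
  rfl

omit [NeZero n] in
lemma card_posn (A : Finset (Fin n)) (σ : Perm (Fin n)) : (posn A σ).card = A.card :=
  Finset.card_map _

omit [NeZero n] in
lemma Pi_eq (A : Finset (Fin n)) (u : Fin n → ℝ) (σ : Perm (Fin n)) :
    Pi' A u σ = ∏ x ∈ posn A σ, u x := by
  unfold Pi' posn
  rw [Finset.prod_map]
  rfl

omit [NeZero n] in
lemma Pi_mul (A : Finset (Fin n)) (u : Fin n → ℝ) (σ g : Perm (Fin n)) :
    Pi' A u (σ * g) = ∏ x ∈ posn A σ, u (g⁻¹ x) := by
  unfold Pi' posn
  rw [Finset.prod_map]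
  apply Finset.prod_congr rfl
  intro a _
  rw [mul_inv_rev]
  rfl

omit [NeZero n] in
lemma Pi_swap (A : Finset (Fin n)) (u : Fin n → ℝ) (σ : Perm (Fin n)) (p r : Fin n) :
    Pi' A u (σ * swap p r) = ∏ x ∈ posn A σ, u (swap p r x) := by
  rw [Pi_mul, swap_inv]

omit [NeZero n] in
lemma prod_both (X : Finset (Fin n)) (u : Fin n → ℝ) {p r : Fin n} (hp : p ∈ X) (hr : r ∈ X) :
    ∏ x ∈ X, u (swap p r x) = ∏ x ∈ X, u x := by
  apply Equiv.Perm.prod_comp
  intro x hx
  by_contra h
  apply hx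
  apply swap_apply_of_ne_of_ne
  · rintro rfl; exact h hp
  · rintro rfl; exact h hr

omit [NeZero n] in
lemma prod_one (X : Finset (Fin n)) (u : Fin n → ℝ) (hu : ∀ x, 0 < u x) {p r : Fin n}
    (hp : p ∈ X) (hr : r ∉ X) :
    ∏ x ∈ X, u (swap p r x) = (∏ x ∈ X, u x) * (u r / u p) := by
  rw [← Finset.mul_prod_erase X (fun x => u (swap p r x)) hp, ← Finset.mul_prod_erase X u hp,
    swap_apply_left]
  have : ∏ x ∈ X.erase p, u (swap p r x) = ∏ x ∈ X.erase p, u x := by
    apply Finset.prod_congr rfl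
    intro x hx
    rw [Finset.mem_erase] at hx
    rw [swap_apply_of_ne_of_ne hx.1]
    rintro rfl
    exact hr hx.2
  rw [this]
  have := (hu p).ne'
  field_simp

omit [NeZero n] in
lemma sum_one (X : Finset (Fin n)) (u : Fin n → ℝ) (hu : ∀ x, 0 < u x) {p r : Fin n}
    (hp : p ∈ X) (hr : r ∉ X) :
    ∑ x ∈ X, (u (swap p r x) / u x - 1) = u r / u p - 1 := by
  rw [Finset.sum_eq_single_of_mem p hp, swap_apply_left]
  intro x hx hxp
  rw [swap_apply_of_ne_of_ne hxp, div_self (hu x).ne', sub_self]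
  rintro rfl
  exact hr hx

omit [NeZero n] in
/-- (C1) -/
lemma prod_swap_le (X : Finset (Fin n)) (u : Fin n → ℝ) (hu : ∀ x, 0 < u x) (p r : Fin n) :
    ∏ x ∈ X, u (swap p r x) ≤
      (∏ x ∈ X, u x) * (1 + ∑ x ∈ X, (u (swap p r x) / u x - 1)) := by
  have hpos : 0 < ∏ x ∈ X, u x := Finset.prod_pos fun x _ => hu x
  by_cases hpr : p = r
  · subst hpr
    have : ∑ x ∈ X, (u (swap p p x) / u x - 1) = 0 := by
      apply Finset.sum_eq_zero
      intro x _
      rw [swap_self]
      simp [(hu x).ne']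
    rw [this]
    simp
  by_cases hp : p ∈ X <;> by_cases hr : r ∈ X
  · rw [prod_both X u hp hr]
    have hs : ∑ x ∈ X, (u (swap p r x) / u x - 1) = (u r / u p - 1) + (u p / u r - 1) := by
      rw [← Finset.sum_subset (s₁ := {p, r}), Finset.sum_pair hpr, swap_apply_left,
        swap_apply_right]
      · intro x hx
        rw [Finset.mem_insert, Finset.mem_singleton] at hx
        rcases hx with rfl | rfl
        · exact hp
        · exact hr
      · intro x _ hx
        rw [Finset.mem_insert, Finset.mem_singleton, not_or] at hx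
        rw [swap_apply_of_ne_of_ne hx.1 hx.2, div_self (hu x).ne', sub_self]
    rw [hs]
    have h2 : 0 ≤ (u r / u p - 1) + (u p / u r - 1) := by
      have h1 := hu p
      have h2 := hu r
      have : (u r / u p - 1) + (u p / u r - 1) = (u r - u p) ^ 2 / (u p * u r) := by
        field_simp
        ring
      rw [this]
      positivity
    nlinarith
  · rw [prod_one X u hu hp hr, sum_one X u hu hp hr]
    apply le_of_eq
    ring
  · rw [swap_comm, prod_one X u hu hr hp, sum_one X u hu hr hp]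
    apply le_of_eq
    ring
  · have h1 : ∀ x ∈ X, swap p r x = x := by
      intro x hx
      apply swap_apply_of_ne_of_ne
      · rintro rfl; exact hp hx
      · rintro rfl; exact hr hx
    have h2 : ∑ x ∈ X, (u (swap p r x) / u x - 1) = 0 := by
      apply Finset.sum_eq_zero
      intro x hx
      rw [h1 x hx, div_self (hu x).ne', sub_self]
    rw [h2, add_zero, mul_one]
    apply le_of_eq
    apply Finset.prod_congr rfl
    intro x hx
    rw [h1 x hx]

omit [NeZero n] in
lemma card_pt : (pt n k).card ≤ k := by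
  have h : (pt n k).card ≤ (Finset.range k).card := by
    apply Finset.card_le_card_of_injOn (fun i : Fin n => (i : ℕ) + k - n)
    · intro i hi
      have h1 := (Finset.mem_filter.mp hi).2
      have := i.2
      simp only [Finset.coe_range, Set.mem_Iio]
      omega
    · intro i hi j hj h
      have h1 := (Finset.mem_filter.mp hi).2
      have h2 := (Finset.mem_filter.mp hj).2
      apply Fin.ext
      simp only at h
      omega
  simpa using h

lemma gl_pt_zero (hn : k + 2 ≤ n) {i : Fin n} (hi : i ∈ pt n k) : gl n k i 0 = 0 := by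
  have h1 := (Finset.mem_filter.mp hi).2
  apply gl_fix
  · intro h
    have := congrArg Fin.val h
    simp at this
    omega
  · intro h
    have := congrArg Fin.val h
    rw [par_of_ge h1] at this
    simp at this
    omega

/-- the first order inequality -/
lemma BB_le (hn : k + 2 ≤ n) (A : Finset (Fin n)) {q : ℝ} (hq : (k : ℝ) + 2 * A.card ≤ q)
    (u : Fin n → ℝ) (hu : ∀ x, 0 < u x) (σ : Perm (Fin n)) :
    BB n k A (Pi' A u) σ ≤
      Pi' A u σ * (1 + ∑ x ∈ posn A σ, (PP n k q u x / u x - 1)) := by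
  have hn0 : (0 : ℝ) < n := npos
  set X := posn A σ with hX
  have hPi : Pi' A u σ = ∏ x ∈ X, u x := Pi_eq A u σ
  set W := ∏ x ∈ X, u x with hW
  have hW0 : 0 < W := Finset.prod_pos fun x _ => hu x
  have hgl : ∀ i, Pi' A u (σ * gl n k i) ≤ W * (1 + ∑ x ∈ X, (u (gl n k i x) / u x - 1)) := by
    intro i
    unfold gl
    rw [Pi_swap]
    exact prod_swap_le X u hu _ _
  have hnz : ∀ x : Fin n, x ≠ 0 →
      n * (PP n k q u x / u x - 1) = ∑ i, (u (gl n k i x) / u x - 1) := by
    intro x hx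
    unfold PP
    rw [if_neg hx, Finset.sum_sub_distrib, ← Finset.sum_div]
    simp only [Finset.sum_const, Finset.card_univ, Fintype.card_fin, nsmul_eq_mul, mul_one]
    have := (hu x).ne'
    field_simp
  suffices h : n * BB n k A (Pi' A u) σ ≤
      W * (n + ∑ x ∈ X, n * (PP n k q u x / u x - 1)) by
    rw [← Finset.mul_sum] at h
    rw [hPi]
    have : W * (n + n * ∑ x ∈ X, (PP n k q u x / u x - 1)) =
      n * (W * (1 + ∑ x ∈ X, (PP n k q u x / u x - 1))) := by ring
    rw [this] at h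
    exact le_of_mul_le_mul_left h hn0
  by_cases h0 : (0 : Fin n) ∈ X
  · -- the hub is occupied
    have h0' : σ 0 ∈ A := mem_posn.mp h0
    have e1 : n * BB n k A (Pi' A u) σ = (∑ i ∈ pt n k, Pi' A u (σ * gl n k i)) +
        (∑ i ∈ (lv n k).filter (fun i => σ i ∈ A), Pi' A u (σ * gl n k i))
        + ∑ z ∈ (pt n k).filter (fun z => σ z ∉ A), Pi' A u (σ * swap 0 z) := by
      unfold BB
      rw [if_pos h0']
      field_simp
    have S1 : ∑ i ∈ pt n k, Pi' A u (σ * gl n k i) ≤
        W * (k + ∑ x ∈ X.erase 0, ∑ i ∈ pt n k, (u (gl n k i x) / u x - 1)) := by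
      have : ∀ i ∈ pt n k, Pi' A u (σ * gl n k i) ≤
          W * (1 + ∑ x ∈ X.erase 0, (u (gl n k i x) / u x - 1)) := by
        intro i hi
        refine (hgl i).trans (le_of_eq ?_)
        rw [← Finset.add_sum_erase X _ h0, gl_pt_zero hn hi, div_self (hu 0).ne', sub_self,
          zero_add]
      refine (Finset.sum_le_sum this).trans ?_
      rw [← Finset.mul_sum, Finset.sum_add_distrib, Finset.sum_comm]
      apply mul_le_mul_of_nonneg_left _ hW0.le
      simp only [Finset.sum_const, nsmul_eq_mul, mul_one]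
      have : ((pt n k).card : ℝ) ≤ k := by exact_mod_cast card_pt
      linarith
    have S2 : ∑ i ∈ (lv n k).filter (fun i => σ i ∈ A), Pi' A u (σ * gl n k i) ≤
        W * A.card := by
      have : ∀ i ∈ (lv n k).filter (fun i => σ i ∈ A), Pi' A u (σ * gl n k i) = W := by
        intro i hi
        rw [Finset.mem_filter] at hi
        have hi1 := (Finset.mem_filter.mp hi.1).2
        unfold gl
        rw [Pi_swap, par_of_lt hi1.2]
        exact prod_both X u (mem_posn.mpr hi.2) h0
      rw [Finset.sum_congr rfl this, Finset.sum_const, nsmul_eq_mul, mul_comm]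
      apply mul_le_mul_of_nonneg_left _ hW0.le
      have : ((lv n k).filter (fun i => σ i ∈ A)).card ≤ X.card := by
        apply Finset.card_le_card
        intro i hi
        rw [Finset.mem_filter] at hi
        exact mem_posn.mpr hi.2
      rw [hX, card_posn] at this
      exact_mod_cast this
    have S3 : ∑ z ∈ (pt n k).filter (fun z => σ z ∉ A), Pi' A u (σ * swap 0 z) ≤
        W * ∑ z ∈ pt n k, u z / u 0 := by
      have : ∀ z ∈ (pt n k).filter (fun z => σ z ∉ A),
          Pi' A u (σ * swap 0 z) = W * (u z / u 0) := by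
        intro z hz
        rw [Finset.mem_filter] at hz
        rw [Pi_swap]
        exact prod_one X u hu h0 (fun h => hz.2 (mem_posn.mp h))
      rw [Finset.sum_congr rfl this, ← Finset.mul_sum]
      apply mul_le_mul_of_nonneg_left _ hW0.le
      apply Finset.sum_le_sum_of_subset_of_nonneg (Finset.filter_subset _ _)
      intro z _ _
      exact div_nonneg (hu z).le (hu 0).le
    have hhub : n * (PP n k q u 0 / u 0 - 1) = q + (∑ z ∈ pt n k, u z / u 0) - n := by
      unfold PP
      rw [if_pos rfl, ← Finset.sum_div]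
      have := (hu 0).ne'
      field_simp
    have hrest : ∀ x ∈ X.erase 0, (∑ i ∈ pt n k, (u (gl n k i x) / u x - 1)) - 1 ≤
        n * (PP n k q u x / u x - 1) := by
      intro x hx
      have hx0 : x ≠ 0 := (Finset.mem_erase.mp hx).1
      rw [hnz x hx0, ← Finset.sum_filter_add_sum_filter_not univ
        (fun i : Fin n => n ≤ (i : ℕ) + k)]
      have : (-1 : ℝ) ≤ ∑ i ∈ univ.filter (fun i : Fin n => ¬ n ≤ (i : ℕ) + k),
          (u (gl n k i x) / u x - 1) := by
        calc (-1 : ℝ) ≤ ∑ i ∈ univ.filter (fun i : Fin n => ¬ n ≤ (i : ℕ) + k),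
              (if i = x then (-1 : ℝ) else 0) := by
              rw [Finset.sum_ite_eq']
              split_ifs <;> norm_num
          _ ≤ _ := by
              apply Finset.sum_le_sum
              intro i hi
              have hi1 := (Finset.mem_filter.mp hi).2
              split_ifs with hix
              · have : 0 ≤ u (gl n k i x) / u x := div_nonneg (hu _).le (hu _).le
                linarith
              · rw [gl_fix (Ne.symm hix), div_self (hu x).ne', sub_self]
                rw [par_of_lt (by omega)]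
                exact hx0
      have e : pt n k = univ.filter (fun i : Fin n => n ≤ (i : ℕ) + k) := rfl
      rw [e]
      linarith
    have hsum := Finset.sum_le_sum hrest
    rw [Finset.sum_sub_distrib, Finset.sum_const, nsmul_eq_mul, mul_one] at hsum
    have hc : ((X.erase 0).card : ℝ) ≤ A.card := by
      have : (X.erase 0).card ≤ X.card := Finset.card_le_card (Finset.erase_subset _ _)
      rw [hX, card_posn] at this
      exact_mod_cast this
    rw [e1, ← Finset.add_sum_erase X _ h0, hhub]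
    calc _ ≤ W * (k + ∑ x ∈ X.erase 0, ∑ i ∈ pt n k, (u (gl n k i x) / u x - 1)) +
          W * A.card + W * ∑ z ∈ pt n k, u z / u 0 := by linarith
      _ = W * ((k + ∑ x ∈ X.erase 0, ∑ i ∈ pt n k, (u (gl n k i x) / u x - 1)) +
          A.card + ∑ z ∈ pt n k, u z / u 0) := by ring
      _ ≤ _ := by
          apply mul_le_mul_of_nonneg_left _ hW0.le
          linarith
  · -- the hub is free
    have h0' : σ 0 ∉ A := fun h => h0 (mem_posn.mpr h)
    have e1 : n * BB n k A (Pi' A u) σ = ∑ i, Pi' A u (σ * gl n k i) := by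
      unfold BB
      rw [if_neg h0']
      field_simp
    rw [e1]
    refine (Finset.sum_le_sum fun i _ => hgl i).trans (le_of_eq ?_)
    rw [← Finset.mul_sum, Finset.sum_add_distrib, Finset.sum_comm]
    congr 1
    simp only [Finset.sum_const, Finset.card_univ, Fintype.card_fin, nsmul_eq_mul, mul_one]
    congr 1
    apply Finset.sum_congr rfl
    intro x hx
    rw [hnz x (by rintro rfl; exact h0 hx)]

/-! ### Elementary inequalities -/

lemma exp_le_one_add {e : ℝ} (h : -(1 / 2) ≤ e) : Real.exp (e - 2 * e ^ 2) ≤ 1 + e := by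
  have h1 : 0 < 1 + e := by linarith
  have h2 : e - 2 * e ^ 2 ≤ e / (1 + e) := by
    rw [le_div_iff₀ h1]
    nlinarith [sq_nonneg e, mul_nonneg (sq_nonneg e) (by linarith : (0:ℝ) ≤ 1 + 2 * e)]
  refine (Real.exp_le_exp.mpr h2).trans ?_
  have h3 : 1 / (1 + e) ≤ Real.exp (-(e / (1 + e))) := by
    have := Real.add_one_le_exp (-(e / (1 + e)))
    refine le_trans (le_of_eq ?_) this
    field_simp
    ring
  rw [Real.exp_neg, one_div] at h3
  exact (inv_le_inv₀ h1 (Real.exp_pos _)).mp h3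

lemma one_add_sum_le {ι : Type*} (X : Finset ι) (e : ι → ℝ) {d : ℝ} (hd : d ≤ 1 / 2)
    (he : ∀ x, |e x| ≤ d) :
    1 + ∑ x ∈ X, e x ≤ Real.exp (2 * X.card * d ^ 2) * ∏ x ∈ X, (1 + e x) := by
  have h1 : ∏ x ∈ X, Real.exp (e x - 2 * e x ^ 2) ≤ ∏ x ∈ X, (1 + e x) := by
    apply Finset.prod_le_prod
    · intro x _; exact (Real.exp_pos _).le
    · intro x _
      apply exp_le_one_add
      have := abs_le.mp (he x)
      linarith
  rw [← Real.exp_sum, Finset.sum_sub_distrib, ← Finset.mul_sum] at h1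
  have h2 : ∑ x ∈ X, e x ^ 2 ≤ X.card * d ^ 2 := by
    calc ∑ x ∈ X, e x ^ 2 ≤ ∑ x ∈ X, d ^ 2 := by
          apply Finset.sum_le_sum
          intro x _
          rw [← sq_abs]
          exact pow_le_pow_left₀ (abs_nonneg _) (he x) 2
      _ = X.card * d ^ 2 := by rw [Finset.sum_const, nsmul_eq_mul]
  calc 1 + ∑ x ∈ X, e x ≤ Real.exp (∑ x ∈ X, e x) := by
        have := Real.add_one_le_exp (∑ x ∈ X, e x)
        linarith
    _ ≤ Real.exp (2 * X.card * d ^ 2 + (∑ x ∈ X, e x - 2 * ∑ x ∈ X, e x ^ 2)) := by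
        apply Real.exp_le_exp.mpr
        nlinarith
    _ = Real.exp (2 * X.card * d ^ 2) * Real.exp (∑ x ∈ X, e x - 2 * ∑ x ∈ X, e x ^ 2) :=
        Real.exp_add _ _
    _ ≤ _ := mul_le_mul_of_nonneg_left h1 (Real.exp_pos _).le

/-! ### The lazy step -/

lemma PP_nonneg {q : ℝ} (hq0 : 0 ≤ q) {u : Fin n → ℝ} (hu : ∀ x, 0 ≤ u x) (x : Fin n) :
    0 ≤ PP n k q u x := by
  unfold PP
  apply div_nonneg _ npos.le
  split_ifs
  · exact add_nonneg (mul_nonneg hq0 (hu 0)) (Finset.sum_nonneg fun z _ => hu z)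
  · exact Finset.sum_nonneg fun z _ => hu _

lemma PP_le {q : ℝ} (hq0 : 0 ≤ q) (hq2 : q + k ≤ n) {u : Fin n → ℝ} {C : ℝ} (hC : 0 ≤ C)
    (hu : ∀ x, u x ≤ C) (x : Fin n) : PP n k q u x ≤ C := by
  unfold PP
  rw [div_le_iff₀ npos]
  split_ifs
  · have h1 : ∑ z ∈ pt n k, u z ≤ k * C := by
      calc ∑ z ∈ pt n k, u z ≤ ∑ z ∈ pt n k, C := Finset.sum_le_sum fun z _ => hu z
        _ = (pt n k).card * C := by rw [Finset.sum_const, nsmul_eq_mul]
        _ ≤ k * C := by
          apply mul_le_mul_of_nonneg_right _ hC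
          exact_mod_cast card_pt
    have h2 : q * u 0 ≤ q * C := mul_le_mul_of_nonneg_left (hu 0) hq0
    nlinarith
  · calc ∑ i, u (gl n k i x) ≤ ∑ i : Fin n, C := Finset.sum_le_sum fun z _ => hu _
      _ = C * n := by rw [Finset.sum_const, Finset.card_univ, Fintype.card_fin, nsmul_eq_mul,
        mul_comm]

lemma lz_step (hn : k + 2 ≤ n) (A : Finset (Fin n)) {q : ℝ} (hq : (k : ℝ) + 2 * A.card ≤ q)
    (u : Fin n → ℝ) (hu : ∀ x, 0 < u x) {D : ℝ} (hD : ∀ x, PP n k q u x ≤ D * u x) (hD1 : 1 ≤ D)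
    {M : ℕ} (hM : 2 * D ≤ M) (σ : Perm (Fin n)) :
    lz M (BB n k A) (Pi' A u) σ ≤
      Real.exp (2 * A.card * (D / M) ^ 2) * Pi' A (lz M (PP n k q) u) σ := by
  have hM0 : (0 : ℝ) < M := by linarith
  have hq0 : 0 ≤ q := le_trans (by positivity) hq
  have h1 := BB_le hn A hq u hu σ
  set X := posn A σ with hX
  have hPi : 0 < Pi' A u σ := by
    rw [Pi_eq]; exact Finset.prod_pos fun x _ => hu x
  have h2 : lz M (BB n k A) (Pi' A u) σ ≤
      Pi' A u σ * (1 + ∑ x ∈ X, (PP n k q u x / u x - 1) / M) := by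
    unfold lz
    rw [← Finset.sum_div]
    have : 1 / (M : ℝ) * BB n k A (Pi' A u) σ ≤ 1 / (M : ℝ) *
        (Pi' A u σ * (1 + ∑ x ∈ X, (PP n k q u x / u x - 1))) :=
      mul_le_mul_of_nonneg_left h1 (by positivity)
    refine (add_le_add_right this _).trans (le_of_eq ?_)
    field_simp
    ring
  have h3 : ∀ x, |(PP n k q u x / u x - 1) / M| ≤ D / M := by
    intro x
    rw [abs_div, abs_of_pos hM0]
    apply div_le_div_of_nonneg_right _ hM0.le
    have hge : 0 ≤ PP n k q u x / u x := div_nonneg (PP_nonneg hq0 (fun x => (hu x).le) x) (hu x).le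
    have hle : PP n k q u x / u x ≤ D := by
      rw [div_le_iff₀ (hu x)]; exact hD x
    rw [abs_le]
    constructor <;> linarith
  have h4 := one_add_sum_le X (fun x => (PP n k q u x / u x - 1) / M) (d := D / M)
    (by rw [div_le_iff₀ hM0]; linarith) h3
  have h5 : Pi' A (lz M (PP n k q) u) σ =
      Pi' A u σ * ∏ x ∈ X, (1 + (PP n k q u x / u x - 1) / M) := by
    rw [Pi_eq, Pi_eq, ← Finset.prod_mul_distrib]
    apply Finset.prod_congr rfl
    intro x _
    unfold lz
    have := (hu x).ne'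
    field_simp
    ring
  rw [h5]
  refine h2.trans ?_
  calc Pi' A u σ * (1 + ∑ x ∈ X, (PP n k q u x / u x - 1) / M)
      ≤ Pi' A u σ * (Real.exp (2 * X.card * (D / M) ^ 2) *
        ∏ x ∈ X, (1 + (PP n k q u x / u x - 1) / M)) := mul_le_mul_of_nonneg_left h4 hPi.le
    _ = _ := by rw [hX, card_posn]; ring

lemma BB_mono (A : Finset (Fin n)) {f g : Perm (Fin n) → ℝ} (h : ∀ σ, f σ ≤ g σ)
    (σ : Perm (Fin n)) : BB n k A f σ ≤ BB n k A g σ := by
  unfold BB
  apply div_le_div_of_nonneg_right _ npos.le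
  split_ifs
  · exact add_le_add (add_le_add (Finset.sum_le_sum fun i _ => h _)
      (Finset.sum_le_sum fun i _ => h _)) (Finset.sum_le_sum fun i _ => h _)
  · exact Finset.sum_le_sum fun i _ => h _

lemma BB_smul (A : Finset (Fin n)) (c : ℝ) (f : Perm (Fin n) → ℝ)
    (σ : Perm (Fin n)) : BB n k A (fun π => c * f π) σ = c * BB n k A f σ := by
  unfold BB
  split_ifs
  · rw [← Finset.mul_sum, ← Finset.mul_sum, ← Finset.mul_sum]; ring
  · rw [← Finset.mul_sum]; ring

/-- the iteration -/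
lemma iter_le (hn : k + 2 ≤ n) (A : Finset (Fin n)) {q : ℝ} (hq : (k : ℝ) + 2 * A.card ≤ q)
    (u : Fin n → ℝ) {D : ℝ} (hD1 : 1 ≤ D) {M : ℕ} (hM : 2 * D ≤ M) (s : ℕ)
    (hu : ∀ r, r < s → ∀ x, 0 < (lz M (PP n k q))^[r] u x)
    (hD : ∀ r, r < s → ∀ x, PP n k q ((lz M (PP n k q))^[r] u) x ≤
      D * (lz M (PP n k q))^[r] u x) (σ : Perm (Fin n)) :
    (lz M (BB n k A))^[s] (Pi' A u) σ ≤
      Real.exp (2 * A.card * (D / M) ^ 2) ^ s * Pi' A ((lz M (PP n k q))^[s] u) σ := by
  induction s generalizing σ with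
  | zero => simp
  | succ s ih =>
    have ih' := ih (fun r hr => hu r (by omega)) (fun r hr => hD r (by omega))
    rw [Function.iterate_succ_apply', Function.iterate_succ_apply']
    set E := Real.exp (2 * A.card * (D / M) ^ 2) with hE
    have hE0 : 0 < E := Real.exp_pos _
    set v := (lz M (PP n k q))^[s] u with hv
    have hM0 : (0 : ℝ) < M := by linarith
    have hM1 : 1 / (M : ℝ) ≤ 1 := by
      rw [div_le_one hM0]; linarith
    have h1 : lz M (BB n k A) ((lz M (BB n k A))^[s] (Pi' A u)) σ ≤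
        E ^ s * lz M (BB n k A) (Pi' A v) σ := by
      unfold lz
      have a1 := BB_mono (k := k) A ih' σ
      rw [BB_smul] at a1
      have a2 := ih' σ
      have a3 : (0 : ℝ) ≤ 1 - 1 / M := by linarith
      have a4 : (0 : ℝ) ≤ 1 / M := by positivity
      have a5 := mul_le_mul_of_nonneg_left a1 a4
      have a6 := mul_le_mul_of_nonneg_left a2 a3
      unfold lz at a5 a6
      refine (add_le_add a6 a5).trans (le_of_eq ?_)
      ring
    refine h1.trans ?_
    have h2 := lz_step hn A hq v (hu s (by omega)) (hD s (by omega)) hD1 hM σ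
    calc E ^ s * lz M (BB n k A) (Pi' A v) σ ≤ E ^ s * (E * Pi' A (lz M (PP n k q) v) σ) :=
          mul_le_mul_of_nonneg_left h2 (by positivity)
      _ = E ^ (s + 1) * Pi' A (lz M (PP n k q) v) σ := by ring

lemma iter_bounds {q : ℝ} (hq0 : 0 ≤ q) (hq2 : q + k ≤ n) (u : Fin n → ℝ) {m C : ℝ}
    (hm : 0 < m) (hum : ∀ x, m ≤ u x) (huC : ∀ x, u x ≤ C) {M : ℕ} (hM : 2 ≤ M) (s : ℕ) :
    ∀ x, Real.exp (-(2 * s / M)) * m ≤ (lz M (PP n k q))^[s] u x ∧
      (lz M (PP n k q))^[s] u x ≤ C := by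
  have hM0 : (0 : ℝ) < M := by
    have : (2 : ℝ) ≤ M := by exact_mod_cast hM
    linarith
  have hMh : 1 / (M : ℝ) ≤ 1 / 2 := by
    apply one_div_le_one_div_of_le (by norm_num)
    exact_mod_cast hM
  have hM1 : (0 : ℝ) ≤ 1 / M := by positivity
  have hC : 0 ≤ C := le_trans (hm.le.trans (hum 0)) (huC 0)
  have hstep : Real.exp (-(2 / M)) ≤ 1 - 1 / (M : ℝ) := by
    have h := exp_le_one_add (e := -(1 / (M : ℝ))) (by linarith)
    refine le_trans (Real.exp_le_exp.mpr ?_) (le_trans h (by linarith))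
    have e1 : (-(1 / (M : ℝ))) ^ 2 = (1 / M) * (1 / M) := by ring
    rw [e1]
    have e2 : (2 : ℝ) / M = 2 * (1 / M) := by ring
    rw [e2]
    nlinarith
  induction s with
  | zero =>
    intro x
    simp only [Nat.cast_zero, mul_zero, zero_div, neg_zero, Real.exp_zero, one_mul,
      Function.iterate_zero, id_eq]
    exact ⟨hum x, huC x⟩
  | succ s ih =>
    intro x
    rw [Function.iterate_succ_apply']
    set v := (lz M (PP n k q))^[s] u with hv
    have hv0 : ∀ x, 0 ≤ v x := fun x => le_trans (by positivity) (ih x).1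
    have hP := PP_nonneg (k := k) hq0 hv0 x
    have hP2 := PP_le hq0 hq2 hC (fun x => (ih x).2) x
    constructor
    · have e : Real.exp (-(2 * ((s + 1 : ℕ) : ℝ) / M)) =
          Real.exp (-(2 / M)) * Real.exp (-(2 * s / M)) := by
        rw [← Real.exp_add]
        congr 1
        push_cast
        ring
      rw [e]
      unfold lz
      have a1 : Real.exp (-(2 / M)) * (Real.exp (-(2 * s / M)) * m) ≤ (1 - 1 / (M : ℝ)) * v x :=
        mul_le_mul hstep (ih x).1 (by positivity) (by linarith)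
      have a2 : 0 ≤ 1 / (M : ℝ) * PP n k q v x := mul_nonneg hM1 hP
      linarith
    · unfold lz
      have a1 : (1 - 1 / (M : ℝ)) * v x ≤ (1 - 1 / (M : ℝ)) * C :=
        mul_le_mul_of_nonneg_left (ih x).2 (by linarith)
      have a2 : 1 / (M : ℝ) * PP n k q v x ≤ 1 / (M : ℝ) * C :=
        mul_le_mul_of_nonneg_left hP2 hM1
      linarith

/-- (W2) the product inequality -/
theorem prod_ineq (hn : k + 2 ≤ n) (A : Finset (Fin n)) {q : ℝ} (hq : (k : ℝ) + 2 * A.card ≤ q)
    (hq2 : q + k ≤ n) (u : Fin n → ℝ) (hu : ∀ x, 0 < u x) (t : ℕ) :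
    ∃ M₀ : ℕ, ∀ M : ℕ, M₀ ≤ M → ∀ s : ℕ, s ≤ M * t → ∀ σ : Perm (Fin n),
      (lz M (BB n k A))^[s] (Pi' A u) σ ≤ 2 * Pi' A ((lz M (PP n k q))^[s] u) σ := by
  have hq0 : 0 ≤ q := le_trans (by positivity) hq
  obtain ⟨x0, -, hx0⟩ := Finset.exists_min_image univ u ⟨0, Finset.mem_univ _⟩
  obtain ⟨x1, -, hx1⟩ := Finset.exists_max_image univ u ⟨0, Finset.mem_univ _⟩
  set m := u x0 with hm
  set C := u x1 with hC
  have hm0 : 0 < m := hu x0
  have hC0 : 0 < C := hu x1
  have hmC : m ≤ C := hx0 x1 (Finset.mem_univ _)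
  set D := Real.exp (2 * t) * C / m with hD
  have hD1 : 1 ≤ D := by
    rw [hD, le_div_iff₀ hm0, one_mul]
    have : 1 ≤ Real.exp (2 * t) := Real.one_le_exp (by positivity)
    nlinarith
  obtain ⟨M₀, hM₀⟩ := exists_nat_ge (2 * D + 2 * A.card * D ^ 2 * t / Real.log 2 + 2)
  refine ⟨M₀, fun M hM s hs σ => ?_⟩
  have hlog : 0 < Real.log 2 := Real.log_pos (by norm_num)
  have hMM : 2 * D + 2 * A.card * D ^ 2 * t / Real.log 2 + 2 ≤ (M : ℝ) :=
    hM₀.trans (by exact_mod_cast hM)
  have hnn : 0 ≤ 2 * A.card * D ^ 2 * t / Real.log 2 := by positivity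
  have hM2D : 2 * D ≤ M := by linarith
  have hM2 : 2 ≤ M := by
    have : (2 : ℝ) ≤ M := by linarith
    exact_mod_cast this
  have hM0 : (0 : ℝ) < M := by linarith
  have hb := fun r => iter_bounds (k := k) hq0 hq2 u hm0 (fun x => hx0 x (Finset.mem_univ _))
    (fun x => hx1 x (Finset.mem_univ _)) hM2 r
  have hlow : ∀ r, r ≤ s → ∀ x, Real.exp (-(2 * t)) * m ≤ (lz M (PP n k q))^[r] u x := by
    intro r hr x
    refine le_trans ?_ (hb r x).1
    apply mul_le_mul_of_nonneg_right _ hm0.le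
    apply Real.exp_le_exp.mpr
    rw [neg_le_neg_iff, div_le_iff₀ hM0]
    have : (r : ℝ) ≤ M * t := by exact_mod_cast hr.trans hs
    linarith
  have hit := iter_le hn A hq u hD1 hM2D s
    (fun r hr x => lt_of_lt_of_le (by positivity) (hlow r hr.le x))
    (fun r hr x => by
      refine (PP_le hq0 hq2 hC0.le (fun x => (hb r x).2) x).trans ?_
      have h1 := hlow r hr.le x
      have h2 : C = D * (Real.exp (-(2 * t)) * m) := by
        rw [hD, Real.exp_neg]
        have := (Real.exp_pos (2 * t)).ne'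
        field_simp
      calc C = D * (Real.exp (-(2 * t)) * m) := h2
        _ ≤ _ := mul_le_mul_of_nonneg_left h1 (by linarith)) σ
  refine hit.trans ?_
  apply mul_le_mul_of_nonneg_right
  · rw [← Real.exp_nat_mul]
    refine le_trans (Real.exp_le_exp.mpr ?_) (le_of_eq (Real.exp_log (by norm_num : (0:ℝ) < 2)))
    have hs' : (s : ℝ) ≤ M * t := by exact_mod_cast hs
    have h3 : (s : ℝ) * (2 * A.card * (D / M) ^ 2) ≤ (M * t) * (2 * A.card * (D / M) ^ 2) :=
      mul_le_mul_of_nonneg_right hs' (by positivity)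
    refine h3.trans ?_
    have h4 : (M * t : ℝ) * (2 * A.card * (D / M) ^ 2) = 2 * A.card * D ^ 2 * t / M := by
      field_simp
    rw [h4, div_le_iff₀ hM0]
    have h5 : 2 * A.card * D ^ 2 * t / Real.log 2 ≤ M := by linarith
    rw [div_le_iff₀ hlog] at h5
    linarith
  · rw [Pi_eq]
    apply Finset.prod_nonneg
    intro x _
    exact le_trans (by positivity) (hlow s le_rfl x)

end Pool.Agent.H9.Cut
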