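import Mathlib
import Pool.Agent.H79.CutPhase2
import Pool.Agent.H9.Cut.Defs

/-!
# Single particle bounds
-/

namespace Pool.Agent.H9.Cut

open Equiv Finset Pool.Agent.H79.Cut

variable {n k : ℕ} [NeZero n]

lemma card_pt_le (n k : ℕ) : (pt n k).card ≤ k := by
  have hs : (pt n k).image (fun i : Fin n => n - 1 - (i : ℕ)) ⊆ range k := by
    intro y hy
    obtain ⟨i, hi, rfl⟩ := mem_image.mp hy
    unfold pt at hi
    rw [mem_filter] at hi
    have := i.2
    rw [mem_range]
    omega
  have hinj : Set.InjOn (fun i : Fin n => n - 1 - (i : ℕ)) (pt n k : Set (Fin n)) := by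
    intro i _ j _ hij
    have h1 := i.2
    have h2 := j.2
    simp only at hij
    apply Fin.ext
    omega
  rw [← card_image_of_injOn hinj]
  exact (card_le_card hs).trans (by simp)

lemma npos' : (0 : ℝ) < n := by
  have : n ≠ 0 := NeZero.ne n
  positivity

lemma lz_mono {ι : Type*} {T : (ι → ℝ) → (ι → ℝ)} (hT : ∀ f g, (∀ x, f x ≤ g x) →
    ∀ x, T f x ≤ T g x) {M : ℕ} (hM : 1 ≤ M) {f g : ι → ℝ} (h : ∀ x, f x ≤ g x) (x : ι) :
    lz M T f x ≤ lz M T g x := by
  have hM' : (1 : ℝ) ≤ M := by exact_mod_cast hM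
  have h1 : 0 ≤ 1 - 1 / (M : ℝ) := by
    rw [sub_nonneg, div_le_one (by linarith)]; exact hM'
  have h2 : 0 ≤ 1 / (M : ℝ) := by positivity
  unfold lz
  exact add_le_add (mul_le_mul_of_nonneg_left (h x) h1) (mul_le_mul_of_nonneg_left (hT f g h x) h2)

lemma PP_mono {q : ℝ} (hq0 : 0 ≤ q) (f g : Fin n → ℝ) (h : ∀ x, f x ≤ g x) (x : Fin n) :
    PP n k q f x ≤ PP n k q g x := by
  unfold PP
  apply div_le_div_of_nonneg_right _ (npos' (n := n)).le
  split_ifs
  · exact add_le_add (mul_le_mul_of_nonneg_left (h 0) hq0) (sum_le_sum fun z _ => h z)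
  · exact sum_le_sum fun i _ => h _

/-- (W3a) -/
theorem single_surv {a θ : ℝ} (P : Par n k a θ) {q B : ℝ} (hq0 : 0 ≤ q)
    (hB : 1 ≤ B * Real.sin a) (hq : q * Real.sin a + k ≤ ((n : ℝ) - 1 / 2) * Real.sin a)
    (M : ℕ) (hM : 1 ≤ M) (s : ℕ) (x : Fin n) :
    (lz M (PP n k q))^[s] (fun _ => 1) x ≤
      B * (1 - (2 - 2 * Real.cos θ) / (n * M)) ^ s := by
  have hnpos : (0 : ℝ) < n := npos'
  have hsin := P.sin_pos
  have hM' : (1 : ℝ) ≤ M := by exact_mod_cast hM
  have hM0 : (0 : ℝ) < M := by linarith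
  have hlam := P.hlam
  have hlam0 := P.lam_nonneg
  have hB0 : 0 < B := by
    by_contra hc
    push Not at hc
    nlinarith
  set lam := 2 - 2 * Real.cos θ with hlamdef
  set r := 1 - lam / (n * M) with hr
  have hn3 : (3 : ℝ) ≤ n := by exact_mod_cast (show 3 ≤ n by have := P.hn; omega)
  have hr0 : 0 ≤ r := by
    have h2 : lam / (n * M) ≤ 1 := by
      rw [div_le_one (by positivity)]
      nlinarith
    rw [hr]; linarith
  set h := hh n k a θ with hhdef
  have hPP : ∀ x, PP n k q h x ≤ (1 - lam / n) * h x := by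
    intro x
    have e : (1 - lam / n) * h x = ((n - lam) * h x) / n := by field_simp
    rw [e]
    unfold PP
    apply div_le_div_of_nonneg_right _ hnpos.le
    split_ifs with hx
    · have h0 : h 0 = Real.sin a := by rw [hhdef]; unfold hh; rw [if_pos rfl]
      rw [hx, h0]
      have h1 : ∑ z ∈ pt n k, h z ≤ k := by
        calc ∑ z ∈ pt n k, h z ≤ ∑ z ∈ pt n k, (1 : ℝ) := sum_le_sum fun z _ => P.hh_le_one z
          _ = (pt n k).card := by simp
          _ ≤ k := by exact_mod_cast card_pt_le n k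
      nlinarith
    · have h1 := P.super hx
      rw [sum_sub_distrib] at h1
      simp only [sum_const, card_univ, Fintype.card_fin, nsmul_eq_mul] at h1
      rw [← hhdef, ← hlamdef] at h1
      linarith
  have key : ∀ s x, (lz M (PP n k q))^[s] (fun _ => 1) x ≤ B * r ^ s * h x := by
    intro s
    induction s with
    | zero =>
      intro x
      simp only [Function.iterate_zero, id_eq, pow_zero, mul_one]
      calc (1 : ℝ) ≤ B * Real.sin a := hB
        _ ≤ B * h x := mul_le_mul_of_nonneg_left (P.hh_ge x) hB0.le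
    | succ s ih =>
      intro x
      rw [Function.iterate_succ_apply']
      refine (lz_mono (PP_mono hq0) hM ih x).trans ?_
      have e1 : PP n k q (fun y => B * r ^ s * h y) x = B * r ^ s * PP n k q h x := by
        unfold PP
        split_ifs with hx
        · rw [← mul_sum]; ring
        · rw [← mul_sum]; ring
      unfold lz
      rw [e1]
      have h2 : 0 ≤ B * r ^ s := by positivity
      have h3 : B * r ^ s * PP n k q h x ≤ B * r ^ s * ((1 - lam / n) * h x) :=
        mul_le_mul_of_nonneg_left (hPP x) h2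
      have h4 : 1 / (M : ℝ) * (B * r ^ s * PP n k q h x) ≤
          1 / (M : ℝ) * (B * r ^ s * ((1 - lam / n) * h x)) :=
        mul_le_mul_of_nonneg_left h3 (by positivity)
      have e2 : B * r ^ (s + 1) * h x = (1 - 1 / (M : ℝ)) * (B * r ^ s * h x) +
          1 / (M : ℝ) * (B * r ^ s * ((1 - lam / n) * h x)) := by
        rw [hr]
        rw [pow_succ]
        field_simp
        ring
      rw [e2]
      linarith
  calc (lz M (PP n k q))^[s] (fun _ => 1) x ≤ B * r ^ s * h x := key s x
    _ ≤ B * r ^ s * 1 := mul_le_mul_of_nonneg_left (P.hh_le_one x) (by positivity)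
    _ = B * r ^ s := mul_one _

/-! ### The walk killed at the hub -/

/-- the step killed at the hub -/
noncomputable def SS (n k : ℕ) [NeZero n] (v : Fin n → ℝ) : Fin n → ℝ := fun x =>
  if x = 0 then 0 else (∑ i, v (gl n k i x)) / n

/-- the Dirichlet form -/
noncomputable def EE (n k : ℕ) [NeZero n] (v : Fin n → ℝ) : ℝ := ∑ i, (v i - v (par n k i)) ^ 2

lemma swap_energy (v : Fin n → ℝ) (i p : Fin n) :
    ∑ x, v x * (v x - v (swap i p x)) = (v i - v p) ^ 2 := by
  by_cases h : i = p
  · subst h; simp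
  · rw [← sum_subset (subset_univ {i, p}), sum_pair h]
    · rw [swap_apply_left, swap_apply_right]; ring
    · intro x _ hx
      rw [mem_insert, mem_singleton, not_or] at hx
      rw [swap_apply_of_ne_of_ne hx.1 hx.2]; ring

lemma SS_energy (v : Fin n → ℝ) (h0 : v 0 = 0) :
    ∑ x, v x * (v x - SS n k v x) = EE n k v / n := by
  have hnpos : (0 : ℝ) < n := npos'
  have h1 : ∀ x, v x * (v x - SS n k v x) = (∑ i, v x * (v x - v (gl n k i x))) / n := by
    intro x
    by_cases hx : x = 0
    · rw [hx, h0]; simp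
    · unfold SS
      rw [if_neg hx, ← mul_sum, sum_sub_distrib]
      simp only [sum_const, card_univ, Fintype.card_fin, nsmul_eq_mul]
      field_simp
  simp_rw [h1]
  rw [← sum_div, sum_comm]
  congr 1
  unfold EE
  apply sum_congr rfl
  intro i _
  exact swap_energy v i _

lemma sum_gl (f : Fin n → ℝ) (i : Fin n) : ∑ x, f (gl n k i x) = ∑ x, f x :=
  Equiv.sum_comp (gl n k i) f

lemma SS_contr (v : Fin n → ℝ) : ∑ x, (SS n k v x) ^ 2 ≤ ∑ x, v x ^ 2 := by
  have hnpos : (0 : ℝ) < n := npos'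
  have h1 : ∀ x, (SS n k v x) ^ 2 ≤ (∑ i, v (gl n k i x) ^ 2) / n := by
    intro x
    unfold SS
    split_ifs with hx
    · have : 0 ≤ ∑ i, v (gl n k i x) ^ 2 := sum_nonneg fun i _ => sq_nonneg _
      simp only [ne_eq, OfNat.ofNat_ne_zero, not_false_eq_true, zero_pow]
      positivity
    · have h2 := sq_sum_le_card_mul_sum_sq (s := (univ : Finset (Fin n)))
        (f := fun i => v (gl n k i x))
      rw [card_univ, Fintype.card_fin] at h2
      rw [div_pow, div_le_div_iff₀ (by positivity) hnpos]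
      nlinarith
  calc ∑ x, (SS n k v x) ^ 2 ≤ ∑ x, (∑ i, v (gl n k i x) ^ 2) / n := sum_le_sum fun x _ => h1 x
    _ = (∑ i : Fin n, ∑ x, v (gl n k i x) ^ 2) / n := by rw [← sum_div, sum_comm]
    _ = (∑ i : Fin n, ∑ x, v x ^ 2) / n := by
        congr 1; apply sum_congr rfl; intro i _; exact sum_gl (fun y => v y ^ 2) i
    _ = ∑ x, v x ^ 2 := by
        simp only [sum_const, card_univ, Fintype.card_fin, nsmul_eq_mul]; field_simp

lemma SS_symm (u v : Fin n → ℝ) (hu : u 0 = 0) (hv : v 0 = 0) :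
    ∑ x, SS n k u x * v x = ∑ x, u x * SS n k v x := by
  have h1 : ∀ x, SS n k u x * v x = (∑ i, u (gl n k i x) * v x) / n := by
    intro x
    unfold SS
    split_ifs with hx
    · rw [hx, hv]; simp
    · rw [← sum_mul]; ring
  have h2 : ∀ x, u x * SS n k v x = (∑ i, u x * v (gl n k i x)) / n := by
    intro x
    unfold SS
    split_ifs with hx
    · rw [hx, hu]; simp
    · rw [← mul_sum]; ring
  simp_rw [h1, h2]
  rw [← sum_div, ← sum_div, sum_comm, sum_comm (f := fun x i => u x * v (gl n k i x))]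
  congr 1
  apply sum_congr rfl
  intro i _
  rw [← sum_gl (fun x => u x * v (gl n k i x)) i]
  apply sum_congr rfl
  intro x _
  have : gl n k i (gl n k i x) = x := by
    have h := congrArg (fun g : Perm (Fin n) => g x) (gl_sq (k := k) i)
    simpa using h
  rw [this]

lemma SS_mass (v : Fin n → ℝ) (hv : ∀ x, 0 ≤ v x) : ∑ x, SS n k v x ≤ ∑ x, v x := by
  have hnpos : (0 : ℝ) < n := npos'
  calc ∑ x, SS n k v x ≤ ∑ x, (∑ i, v (gl n k i x)) / n := by
        apply sum_le_sum
        intro x _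
        unfold SS
        split_ifs
        · exact div_nonneg (sum_nonneg fun i _ => hv _) hnpos.le
        · exact le_rfl
    _ = (∑ i : Fin n, ∑ x, v (gl n k i x)) / n := by rw [← sum_div, sum_comm]
    _ = (∑ i : Fin n, ∑ x, v x) / n := by
        congr 1; apply sum_congr rfl; intro i _; exact sum_gl v i
    _ = ∑ x, v x := by
        simp only [sum_const, card_univ, Fintype.card_fin, nsmul_eq_mul]; field_simp

/-- the lazy killed walk -/
noncomputable def LS (n k M : ℕ) [NeZero n] (v : Fin n → ℝ) : Fin n → ℝ := lz M (SS n k) v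

lemma LS_apply (M : ℕ) (v : Fin n → ℝ) (x : Fin n) :
    LS n k M v x = (1 - 1 / (M : ℝ)) * v x + 1 / (M : ℝ) * SS n k v x := rfl

lemma LS_zero (M : ℕ) (v : Fin n → ℝ) (h0 : v 0 = 0) : LS n k M v 0 = 0 := by
  rw [LS_apply, h0]
  unfold SS
  simp

lemma LS_nonneg {M : ℕ} (hM : 1 ≤ M) (v : Fin n → ℝ) (hv : ∀ x, 0 ≤ v x) (x : Fin n) :
    0 ≤ LS n k M v x := by
  have hM' : (1 : ℝ) ≤ M := by exact_mod_cast hM
  have h1 : 0 ≤ 1 - 1 / (M : ℝ) := by
    rw [sub_nonneg, div_le_one (by linarith)]; exact hM'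
  have h2 : 0 ≤ SS n k v x := by
    unfold SS
    split_ifs
    · exact le_rfl
    · exact div_nonneg (sum_nonneg fun i _ => hv _) (npos' (n := n)).le
  rw [LS_apply]
  have := hv x
  positivity

lemma LS_mass {M : ℕ} (hM : 1 ≤ M) (v : Fin n → ℝ) (hv : ∀ x, 0 ≤ v x) :
    ∑ x, LS n k M v x ≤ ∑ x, v x := by
  have hM' : (1 : ℝ) ≤ M := by exact_mod_cast hM
  simp_rw [LS_apply]
  rw [sum_add_distrib, ← mul_sum, ← mul_sum]
  have h1 := SS_mass (k := k) v hv
  have h2 : 1 / (M : ℝ) * ∑ x, SS n k v x ≤ 1 / (M : ℝ) * ∑ x, v x :=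
    mul_le_mul_of_nonneg_left h1 (by positivity)
  have e : (1 - 1 / (M : ℝ)) * ∑ x, v x + 1 / (M : ℝ) * ∑ x, v x = ∑ x, v x := by ring
  linarith

lemma LS_symm (M : ℕ) (u v : Fin n → ℝ) (hu : u 0 = 0) (hv : v 0 = 0) :
    ∑ x, LS n k M u x * v x = ∑ x, u x * LS n k M v x := by
  simp_rw [LS_apply, add_mul, mul_add, sum_add_distrib]
  have h1 := SS_symm (k := k) u v hu hv
  have e1 : ∑ x, 1 / (M : ℝ) * SS n k u x * v x = 1 / (M : ℝ) * ∑ x, SS n k u x * v x := by
    rw [mul_sum]; apply sum_congr rfl; intro x _; ring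
  have e2 : ∑ x, u x * (1 / (M : ℝ) * SS n k v x) = 1 / (M : ℝ) * ∑ x, u x * SS n k v x := by
    rw [mul_sum]; apply sum_congr rfl; intro x _; ring
  rw [e1, e2, h1]
  congr 1
  apply sum_congr rfl; intro x _; ring

lemma LSit_zero (M : ℕ) (v : Fin n → ℝ) (h0 : v 0 = 0) (s : ℕ) : (LS n k M)^[s] v 0 = 0 := by
  induction s with
  | zero => simpa using h0
  | succ s ih => rw [Function.iterate_succ_apply']; exact LS_zero M _ ih

lemma LSit_nonneg {M : ℕ} (hM : 1 ≤ M) (v : Fin n → ℝ) (hv : ∀ x, 0 ≤ v x) (s : ℕ) (x : Fin n) :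
    0 ≤ (LS n k M)^[s] v x := by
  induction s generalizing x with
  | zero => simpa using hv x
  | succ s ih => rw [Function.iterate_succ_apply']; exact LS_nonneg hM _ ih x

lemma LSit_mass {M : ℕ} (hM : 1 ≤ M) (v : Fin n → ℝ) (hv : ∀ x, 0 ≤ v x) (s : ℕ) :
    ∑ x, (LS n k M)^[s] v x ≤ ∑ x, v x := by
  induction s with
  | zero => simp
  | succ s ih =>
    simp_rw [Function.iterate_succ_apply']
    exact (LS_mass hM _ (LSit_nonneg hM v hv s)).trans ih

lemma LSit_symm (M : ℕ) (u v : Fin n → ℝ) (hu : u 0 = 0) (hv : v 0 = 0) (s : ℕ) :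
    ∑ x, (LS n k M)^[s] u x * v x = ∑ x, u x * (LS n k M)^[s] v x := by
  induction s generalizing v with
  | zero => simp
  | succ s ih =>
    simp_rw [Function.iterate_succ_apply']
    have h1 := LS_symm (k := k) M ((LS n k M)^[s] u) v (LSit_zero M u hu s) hv
    rw [h1, ih (LS n k M v) (LS_zero M v hv)]
    apply sum_congr rfl
    intro x _
    rw [← Function.iterate_succ_apply, Function.iterate_succ_apply']

/-- energy decay -/
lemma LS_decay {M : ℕ} (hM : 2 ≤ M) (v : Fin n → ℝ) (h0 : v 0 = 0) :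
    ∑ x, (LS n k M v x) ^ 2 ≤ ∑ x, v x ^ 2 - EE n k v / (n * M) := by
  have hnpos : (0 : ℝ) < n := npos'
  have hM' : (2 : ℝ) ≤ M := by exact_mod_cast hM
  have h1 := SS_energy (k := k) v h0
  have h2 := SS_contr (k := k) v
  have hE : 0 ≤ EE n k v / n := div_nonneg (sum_nonneg fun i _ => sq_nonneg _) hnpos.le
  have e1 : ∀ x, (LS n k M v x) ^ 2 = v x ^ 2 - 2 / (M : ℝ) * (v x * (v x - SS n k v x)) +
      1 / (M : ℝ) ^ 2 * (v x - SS n k v x) ^ 2 := by
    intro x; rw [LS_apply]; field_simp; ring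
  have e2 : ∑ x, (v x - SS n k v x) ^ 2 = 2 * ∑ x, v x * (v x - SS n k v x) - ∑ x, v x ^ 2 +
      ∑ x, (SS n k v x) ^ 2 := by
    rw [mul_sum, ← sum_sub_distrib, ← sum_add_distrib]
    apply sum_congr rfl; intro x _; ring
  simp_rw [e1]
  rw [sum_add_distrib, sum_sub_distrib, ← mul_sum, ← mul_sum, e2, h1]
  have h3 : 1 / (M : ℝ) ^ 2 * (2 * (EE n k v / n) - ∑ x, v x ^ 2 + ∑ x, (SS n k v x) ^ 2) ≤
      1 / (M : ℝ) ^ 2 * (2 * (EE n k v / n)) :=
    mul_le_mul_of_nonneg_left (by linarith) (by positivity)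
  have h4 : 1 / (M : ℝ) ^ 2 * (2 * (EE n k v / n)) - 2 / (M : ℝ) * (EE n k v / n) ≤
      -(EE n k v / (n * M)) := by
    have e3 : 1 / (M : ℝ) ^ 2 * (2 * (EE n k v / n)) - 2 / (M : ℝ) * (EE n k v / n) =
        (2 / (M : ℝ) - 2) * (1 / (M : ℝ)) * (EE n k v / n) := by
      field_simp
    have e4 : -(EE n k v / (n * M)) = (-1) * (1 / (M : ℝ)) * (EE n k v / n) := by
      field_simp
    rw [e3, e4]
    apply mul_le_mul_of_nonneg_right _ hE
    apply mul_le_mul_of_nonneg_right _ (by positivity)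
    have : 2 / (M : ℝ) ≤ 1 := by rw [div_le_one (by linarith)]; exact hM'
    linarith
  linarith

/-- every value is controlled by the total variation of the squares -/
lemma sq_le_var (hn : k + 3 ≤ n) (v : Fin n → ℝ) (h0 : v 0 = 0) (m : ℕ) :
    ∀ x : Fin n, (x : ℕ) ≤ m →
      v x ^ 2 ≤ ∑ i ∈ univ.filter (fun i : Fin n => (i : ℕ) ≤ m),
        |v i ^ 2 - v (par n k i) ^ 2| := by
  induction m with
  | zero =>
    intro x hx
    have : x = 0 := Fin.ext (by simpa using hx)
    rw [this, h0]
    simp only [ne_eq, OfNat.ofNat_ne_zero, not_false_eq_true, zero_pow]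
    exact sum_nonneg fun i _ => abs_nonneg _
  | succ m ih =>
    intro x hx
    by_cases h1 : (x : ℕ) ≤ m
    · refine (ih x h1).trans ?_
      apply sum_le_sum_of_subset_of_nonneg
      · intro i hi
        rw [mem_filter] at *
        exact ⟨hi.1, by omega⟩
      · intro i _ _; exact abs_nonneg _
    · have hxm : (x : ℕ) = m + 1 := by omega
      have hsplit : (univ.filter (fun i : Fin n => (i : ℕ) ≤ m + 1)) =
          insert x (univ.filter (fun i : Fin n => (i : ℕ) ≤ m)) := by
        ext i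
        rw [mem_insert, mem_filter, mem_filter]
        constructor
        · rintro ⟨_, h2⟩
          by_cases h3 : (i : ℕ) ≤ m
          · right; exact ⟨mem_univ _, h3⟩
          · left; apply Fin.ext; omega
        · rintro (h2 | ⟨_, h2⟩)
          · rw [h2]; exact ⟨mem_univ _, by omega⟩
          · exact ⟨mem_univ _, by omega⟩
      rw [hsplit, sum_insert (by rw [mem_filter]; rintro ⟨_, h2⟩; omega)]
      have h4 : v (par n k x) ^ 2 ≤ ∑ i ∈ univ.filter (fun i : Fin n => (i : ℕ) ≤ m),
          |v i ^ 2 - v (par n k i) ^ 2| := by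
        apply ih
        by_cases h5 : n ≤ (x : ℕ) + k
        · rw [par_of_ge h5]; omega
        · push Not at h5
          rw [par_of_lt h5]; simp
      have h6 := le_abs_self (v x ^ 2 - v (par n k x) ^ 2)
      linarith

lemma sum_par_le (hn : k + 3 ≤ n) (v : Fin n → ℝ) (h0 : v 0 = 0) :
    ∑ i, v (par n k i) ^ 2 ≤ ∑ i, v i ^ 2 := by
  have h1 : ∑ i, v (par n k i) ^ 2 =
      ∑ i ∈ univ.filter (fun i : Fin n => n ≤ (i : ℕ) + k), v (par n k i) ^ 2 := by
    symm
    apply sum_subset (subset_univ _)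
    intro i _ hi
    rw [mem_filter, not_and] at hi
    have h2 := hi (mem_univ _)
    rw [par_of_lt (by omega), h0]; simp
  have hinj : Set.InjOn (par n k) (univ.filter (fun i : Fin n => n ≤ (i : ℕ) + k) : Finset (Fin n)) := by
    intro i hi j hj hij
    rw [mem_coe, mem_filter] at hi hj
    have h2 := congrArg Fin.val hij
    rw [par_of_ge hi.2, par_of_ge hj.2] at h2
    apply Fin.ext
    omega
  rw [h1, ← sum_image (f := fun y => v y ^ 2) hinj]
  apply sum_le_sum_of_subset_of_nonneg (subset_univ _)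
  intro i _ _; exact sq_nonneg _

/-- Nash type inequality -/
lemma nash (hn : k + 3 ≤ n) (v : Fin n → ℝ) (h0 : v 0 = 0) (hv : ∀ x, 0 ≤ v x)
    (hm : ∑ x, v x ≤ 1) : (∑ x, v x ^ 2) ^ 3 ≤ 4 * EE n k v := by
  set y := ∑ x, v x ^ 2 with hy
  have hy0 : 0 ≤ y := sum_nonneg fun x _ => sq_nonneg _
  have hE0 : 0 ≤ EE n k v := sum_nonneg fun i _ => sq_nonneg _
  -- sup bound
  have hsup : ∀ x, (v x ^ 2) ^ 2 ≤ 4 * EE n k v * y := by
    intro x
    have h1 : v x ^ 2 ≤ ∑ i, |v i ^ 2 - v (par n k i) ^ 2| := by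
      refine (sq_le_var hn v h0 n x x.2.le).trans ?_
      apply sum_le_sum_of_subset_of_nonneg (subset_univ _)
      intro i _ _; exact abs_nonneg _
    have h2 : ∑ i, |v i ^ 2 - v (par n k i) ^ 2| =
        ∑ i, |v i - v (par n k i)| * |v i + v (par n k i)| := by
      apply sum_congr rfl; intro i _
      rw [← abs_mul]; congr 1; ring
    have h3 : (∑ i, |v i - v (par n k i)| * |v i + v (par n k i)|) ^ 2 ≤
        (∑ i, |v i - v (par n k i)| ^ 2) * ∑ i, |v i + v (par n k i)| ^ 2 :=
      sum_mul_sq_le_sq_mul_sq _ _ _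
    simp only [sq_abs] at h3
    have h4 : ∑ i, (v i + v (par n k i)) ^ 2 ≤ 4 * y := by
      calc ∑ i, (v i + v (par n k i)) ^ 2 ≤ ∑ i, (2 * v i ^ 2 + 2 * v (par n k i) ^ 2) := by
            apply sum_le_sum; intro i _; nlinarith [sq_nonneg (v i - v (par n k i))]
        _ = 2 * ∑ i, v i ^ 2 + 2 * ∑ i, v (par n k i) ^ 2 := by
            rw [sum_add_distrib, mul_sum, mul_sum]
        _ ≤ 4 * y := by have := sum_par_le hn v h0; rw [hy]; linarith
    have h5 : (v x ^ 2) ^ 2 ≤ (∑ i, |v i ^ 2 - v (par n k i) ^ 2|) ^ 2 :=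
      pow_le_pow_left₀ (sq_nonneg _) h1 2
    calc (v x ^ 2) ^ 2 ≤ (∑ i, |v i ^ 2 - v (par n k i) ^ 2|) ^ 2 := h5
      _ ≤ (∑ i, (v i - v (par n k i)) ^ 2) * ∑ i, (v i + v (par n k i)) ^ 2 := by
          rw [h2]; exact h3
      _ ≤ EE n k v * (4 * y) := mul_le_mul_of_nonneg_left h4 hE0
      _ = 4 * EE n k v * y := by ring
  -- y ≤ max v
  obtain ⟨x₀, -, hx₀⟩ := exists_max_image (univ : Finset (Fin n)) v ⟨0, mem_univ _⟩
  have h6 : y ≤ v x₀ := by
    calc y ≤ ∑ x, v x₀ * v x := by
          rw [hy]; apply sum_le_sum; intro x _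
          rw [sq]; exact mul_le_mul_of_nonneg_right (hx₀ x (mem_univ _)) (hv x)
      _ = v x₀ * ∑ x, v x := by rw [mul_sum]
      _ ≤ v x₀ * 1 := mul_le_mul_of_nonneg_left hm (hv x₀)
      _ = v x₀ := mul_one _
  have h7 : y ^ 4 ≤ 4 * EE n k v * y := by
    calc y ^ 4 = (y ^ 2) ^ 2 := by ring
      _ ≤ (v x₀ ^ 2) ^ 2 := pow_le_pow_left₀ (sq_nonneg _) (pow_le_pow_left₀ hy0 h6 2) 2
      _ ≤ _ := hsup x₀
  rcases hy0.eq_or_lt with h8 | h8
  · rw [← h8]; simp only [ne_eq, OfNat.ofNat_ne_zero, not_false_eq_true, zero_pow]; positivity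
  · have h9 : y ^ 3 * y ≤ 4 * EE n k v * y := by
      calc y ^ 3 * y = y ^ 4 := by ring
        _ ≤ _ := h7
    exact le_of_mul_le_mul_right h9 h8

/-- decay of the square norm -/
lemma decay {M : ℕ} (hM : 2 ≤ M) (hn : k + 3 ≤ n) (v : Fin n → ℝ) (h0 : v 0 = 0)
    (hv : ∀ x, 0 ≤ v x) (hm : ∑ x, v x ≤ 1) (s : ℕ) :
    (∑ x, ((LS n k M)^[s] v x) ^ 2) ^ 2 * (1 + s / (2 * n * M)) ≤ 1 := by
  have hnpos : (0 : ℝ) < n := npos'
  have hM' : (2 : ℝ) ≤ M := by exact_mod_cast hM
  have hM1 : 1 ≤ M := by omega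
  induction s with
  | zero =>
    simp only [Function.iterate_zero, id_eq, Nat.cast_zero, zero_div, add_zero, mul_one]
    have h1 : ∑ x, v x ^ 2 ≤ 1 := by
      calc ∑ x, v x ^ 2 ≤ ∑ x, v x := by
            apply sum_le_sum; intro x _
            have h2 : v x ≤ 1 := (single_le_sum (f := v) (fun y _ => hv y) (mem_univ x)).trans hm
            rw [sq]; exact mul_le_of_le_one_left (hv x) h2
        _ ≤ 1 := hm
    have h2 : 0 ≤ ∑ x, v x ^ 2 := sum_nonneg fun x _ => sq_nonneg _
    nlinarith
  | succ s ih =>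
    set w := (LS n k M)^[s] v with hw
    have hw0 : w 0 = 0 := LSit_zero M v h0 s
    have hwn : ∀ x, 0 ≤ w x := LSit_nonneg hM1 v hv s
    have hwm : ∑ x, w x ≤ 1 := (LSit_mass hM1 v hv s).trans hm
    have h1 := nash hn w hw0 hwn hwm
    have h2 := LS_decay (k := k) hM w hw0
    simp_rw [Function.iterate_succ_apply']
    rw [← hw]
    set y := ∑ x, w x ^ 2 with hy
    set z := ∑ x, (LS n k M w x) ^ 2 with hz
    have hy0 : 0 ≤ y := sum_nonneg fun x _ => sq_nonneg _
    have hz0 : 0 ≤ z := sum_nonneg fun x _ => sq_nonneg _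
    set c : ℝ := 1 / (4 * n * M) with hc
    have hc0 : 0 < c := by positivity
    have hcle : c ≤ 1 := by
      rw [hc, div_le_one (by positivity)]
      have : (1 : ℝ) ≤ n := by
        have : 1 ≤ n := Nat.one_le_iff_ne_zero.mpr (NeZero.ne n)
        exact_mod_cast this
      nlinarith
    have h3 : z ≤ y * (1 - c * y ^ 2) := by
      have e1 : EE n k w / (n * M) = c * (4 * EE n k w) := by rw [hc]; field_simp
      have h4 : c * y ^ 3 ≤ c * (4 * EE n k w) := mul_le_mul_of_nonneg_left h1 hc0.le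
      rw [e1] at h2
      nlinarith
    have e2 : ((s : ℝ)) / (2 * n * M) = 2 * c * s := by rw [hc]; field_simp; ring
    have e3 : (((s + 1 : ℕ) : ℝ)) / (2 * n * M) = 2 * c * s + 2 * c := by
      rw [hc]; push_cast; field_simp; ring
    rw [e2] at ih
    rw [e3]
    set u := y ^ 2 with hu
    have hu0 : 0 ≤ u := sq_nonneg _
    have hs0 : 0 ≤ 2 * c * s := by positivity
    have hu1 : u ≤ 1 := by nlinarith
    set t := c * u with ht
    have ht0 : 0 ≤ t := by positivity
    have ht1 : t ≤ 1 := by nlinarith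
    have h5 : z ^ 2 ≤ u * (1 - t) ^ 2 := by
      have h6 : 0 ≤ 1 - t := by linarith
      calc z ^ 2 ≤ (y * (1 - c * y ^ 2)) ^ 2 := pow_le_pow_left₀ hz0 h3 2
        _ = u * (1 - t) ^ 2 := by rw [hu, ht]; ring
    have h7 : u * (1 + (2 * c * s + 2 * c)) ≤ 1 + 2 * t := by
      rw [ht]; linarith
    have h8 : (1 - t) ^ 2 * (1 + 2 * t) ≤ 1 := by nlinarith [mul_nonneg ht0 ht0, mul_nonneg (mul_nonneg ht0 ht0) ht0]
    calc z ^ 2 * (1 + (2 * c * s + 2 * c)) ≤ u * (1 - t) ^ 2 * (1 + (2 * c * s + 2 * c)) :=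
          mul_le_mul_of_nonneg_right h5 (by positivity)
      _ = (1 - t) ^ 2 * (u * (1 + (2 * c * s + 2 * c))) := by ring
      _ ≤ (1 - t) ^ 2 * (1 + 2 * t) := mul_le_mul_of_nonneg_left h7 (sq_nonneg _)
      _ ≤ 1 := h8

/-- point mass -/
noncomputable def dl (z : Fin n) : Fin n → ℝ := fun y => if y = z then 1 else 0

lemma sq_half {M : ℕ} (hM : 2 ≤ M) (hk : 1 ≤ k) (hn : k + 3 ≤ n) (z : Fin n) (hz : z ≠ 0) :
    ∑ x, ((LS n k M)^[M * (2 * n * k ^ 2)] (dl z) x) ^ 2 ≤ 1 / k := by
  have hnpos : (0 : ℝ) < n := npos'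
  have hM' : (2 : ℝ) ≤ M := by exact_mod_cast hM
  have hk' : (1 : ℝ) ≤ k := by exact_mod_cast hk
  have h1 := decay hM hn (dl z) (by unfold dl; rw [if_neg (Ne.symm hz)])
    (fun x => by unfold dl; split_ifs <;> norm_num) (by unfold dl; simp) (M * (2 * n * k ^ 2))
  set y := ∑ x, ((LS n k M)^[M * (2 * n * k ^ 2)] (dl z) x) ^ 2 with hy
  have hy0 : 0 ≤ y := sum_nonneg fun x _ => sq_nonneg _
  have e1 : ((M * (2 * n * k ^ 2) : ℕ) : ℝ) / (2 * n * M) = (k : ℝ) ^ 2 := by
    push_cast; field_simp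
  rw [e1] at h1
  have h2 : (y * k) ^ 2 ≤ 1 := by nlinarith [sq_nonneg y]
  have h3 : y * k ≤ 1 := by
    by_contra hc
    push Not at hc
    nlinarith
  rw [le_div_iff₀ (by linarith)]
  exact h3

lemma point_bound {M : ℕ} (hM : 2 ≤ M) (hk : 1 ≤ k) (hn : k + 3 ≤ n) (z x : Fin n) (hz : z ≠ 0)
    (hx : x ≠ 0) : (LS n k M)^[M * (4 * n * k ^ 2)] (dl z) x ≤ 1 / k := by
  have hk' : (1 : ℝ) ≤ k := by exact_mod_cast hk
  set H := M * (2 * n * k ^ 2) with hH
  have e0 : M * (4 * n * k ^ 2) = H + H := by rw [hH]; ring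
  have hz0 : dl z 0 = 0 := by unfold dl; rw [if_neg (Ne.symm hz)]
  have hx0 : dl x 0 = 0 := by unfold dl; rw [if_neg (Ne.symm hx)]
  have e1 : (LS n k M)^[H + H] (dl z) x =
      ∑ y, (LS n k M)^[H] ((LS n k M)^[H] (dl z)) y * dl x y := by
    rw [Function.iterate_add_apply]
    unfold dl
    simp
  rw [e0, e1, LSit_symm M _ _ (LSit_zero M _ hz0 H) hx0 H]
  have h1 := sum_mul_sq_le_sq_mul_sq univ ((LS n k M)^[H] (dl z)) ((LS n k M)^[H] (dl x))
  have h2 := sq_half hM hk hn z hz
  have h3 := sq_half hM hk hn x hx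
  rw [← hH] at h2 h3
  set I := ∑ i, (LS n k M)^[H] (dl z) i * (LS n k M)^[H] (dl x) i with hI
  have h4 : I ^ 2 ≤ (1 / k) ^ 2 := by
    refine h1.trans ?_
    rw [sq (1 / (k : ℝ))]
    exact mul_le_mul h2 h3 (sum_nonneg fun x _ => sq_nonneg _) (by positivity)
  exact le_of_sq_le_sq h4 (by positivity)

lemma LSit_sum {M : ℕ} (Z : Finset (Fin n)) (s : ℕ) :
    (LS n k M)^[s] (fun y => ∑ z ∈ Z, dl z y) = fun x => ∑ z ∈ Z, (LS n k M)^[s] (dl z) x := by
  induction s with
  | zero => simp
  | succ s ih =>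
    funext x
    rw [Function.iterate_succ_apply', ih, LS_apply]
    simp_rw [Function.iterate_succ_apply', LS_apply]
    rw [sum_add_distrib, mul_sum, ← mul_sum (f := fun z => SS n k ((LS n k M)^[s] (dl z)) x)]
    congr 2
    unfold SS
    split_ifs with hx
    · simp
    · rw [← sum_div, sum_comm]

/-- (W3b) -/
theorem single_smooth (hk : 1 ≤ k) (hn : k + 3 ≤ n) {q : ℝ} (hq0 : 0 ≤ q)
    (hq : q + k ≤ n / 2) (M : ℕ) (hM : 2 ≤ M) (Z : Finset (Fin n)) (hZ : 1 ≤ Z.card)
    (x : Fin n) :
    (lz M (PP n k q))^[M * (4 * n * k ^ 2)] (fun y => (if y ∈ Z then 1 else 0) + 1 / (n : ℝ)) x ≤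
      7 * Z.card / k := by
  have hnpos : (0 : ℝ) < n := npos'
  have hM' : (2 : ℝ) ≤ M := by exact_mod_cast hM
  have hM1 : 1 ≤ M := by omega
  have hk' : (1 : ℝ) ≤ k := by exact_mod_cast hk
  have hZ' : (1 : ℝ) ≤ Z.card := by exact_mod_cast hZ
  have hkn : (k : ℝ) ≤ n := by exact_mod_cast (show k ≤ n by omega)
  set j : ℝ := (Z.card : ℝ) with hj
  set Z' := Z.erase 0 with hZ'def
  set v0 : Fin n → ℝ := fun y => ∑ z ∈ Z', dl z y with hv0
  have hv00 : v0 0 = 0 := by
    rw [hv0]
    apply sum_eq_zero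
    intro z hz
    unfold dl
    rw [if_neg (fun h => (mem_erase.mp hz).1 h.symm)]
  have hv0n : ∀ y, 0 ≤ v0 y := fun y => sum_nonneg fun z _ => by unfold dl; split_ifs <;> norm_num
  have hv0m : ∑ y, v0 y ≤ j := by
    rw [hv0, sum_comm]
    have : ∀ z ∈ Z', ∑ y, dl z y = 1 := by intro z _; unfold dl; simp
    rw [sum_congr rfl this]
    simp only [sum_const, nsmul_eq_mul, mul_one]
    rw [hj]
    exact_mod_cast card_le_card (erase_subset _ _)
  set β : ℕ → ℝ := fun s => (1 - 1 / (2 * (M : ℝ))) ^ s with hβ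
  have hb0 : 0 ≤ 1 - 1 / (2 * (M : ℝ)) := by
    rw [sub_nonneg, div_le_one (by positivity)]; linarith
  have hb1 : 1 - 1 / (2 * (M : ℝ)) ≤ 1 := by
    have : 0 ≤ 1 / (2 * (M : ℝ)) := by positivity
    linarith
  have hβ0 : ∀ s, 0 ≤ β s := fun s => pow_nonneg hb0 s
  have hβ1 : ∀ s, β s ≤ 1 := fun s => pow_le_one₀ hb0 hb1
  set c : ℕ → ℝ := fun s => 1 / n + 2 * j / n + 2 / n * (1 - β s) with hc
  have hcge : ∀ s, 2 * j / n ≤ c s := by
    intro s
    rw [hc]
    have h1 : 0 ≤ 2 / (n : ℝ) * (1 - β s) := mul_nonneg (by positivity) (by linarith [hβ1 s])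
    have h2 : 0 ≤ 1 / (n : ℝ) := by positivity
    simp only
    linarith
  have key : ∀ s x, (lz M (PP n k q))^[s] (fun y => (if y ∈ Z then 1 else 0) + 1 / (n : ℝ)) x ≤
      (LS n k M)^[s] v0 x + c s + (if x = 0 then β s else 0) := by
    intro s
    induction s with
    | zero =>
      intro x
      simp only [Function.iterate_zero, id_eq]
      have e1 : β 0 = 1 := by rw [hβ]; simp
      have e2 : c 0 = 1 / n + 2 * j / n := by rw [hc]; simp only; rw [e1]; ring
      rw [e1, e2]
      have hj0 : 0 ≤ 2 * j / n := by positivity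
      by_cases hx : x = 0
      · rw [if_pos hx]
        have := hv0n x
        split_ifs <;> linarith
      · rw [if_neg hx]
        by_cases hxZ : x ∈ Z
        · rw [if_pos hxZ]
          have : v0 x = 1 := by
            rw [hv0]
            simp only
            rw [sum_eq_single_of_mem x (mem_erase.mpr ⟨hx, hxZ⟩)]
            · unfold dl; simp
            · intro z _ hzx; unfold dl; rw [if_neg (Ne.symm hzx)]
          linarith
        · rw [if_neg hxZ]
          have := hv0n x
          linarith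
    | succ s ih =>
      intro x
      rw [Function.iterate_succ_apply']
      refine (lz_mono (PP_mono hq0) hM1 ih x).trans ?_
      rw [Function.iterate_succ_apply']
      set v := (LS n k M)^[s] v0 with hv
      have hvz : v 0 = 0 := LSit_zero M v0 hv00 s
      have hvn : ∀ y, 0 ≤ v y := LSit_nonneg hM1 v0 hv0n s
      have hvm : ∑ y, v y ≤ j := (LSit_mass hM1 v0 hv0n s).trans hv0m
      have ebs : β (s + 1) = β s - 1 / (2 * M) * β s := by
        rw [hβ]; simp only; rw [pow_succ]; ring
      have ecs : c (s + 1) = c s + β s / (n * M) := by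
        rw [hc]; simp only; rw [ebs]; field_simp; ring
      have hβs := hβ0 s
      by_cases hx : x = 0
      · rw [hx, if_pos rfl, LS_zero M v hvz, ecs, ebs]
        unfold lz
        rw [show (fun x => v x + c s + if x = 0 then β s else 0) (0 : Fin n) = 0 + c s + β s from by
          simp [hvz]]
        have h1 : PP n k q (fun x => v x + c s + if x = 0 then β s else 0) 0 ≤
            c s + β s / 2 := by
          unfold PP
          rw [if_pos rfl, show (fun x => v x + c s + if x = 0 then β s else 0) (0 : Fin n) =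
            0 + c s + β s from by simp [hvz]]
          have h2 : ∑ z ∈ pt n k, (v z + c s + if z = 0 then β s else 0) ≤ j + k * c s := by
            have h3 : ∀ z ∈ pt n k, (v z + c s + if z = 0 then β s else 0) = v z + c s := by
              intro z hz
              unfold pt at hz
              rw [mem_filter] at hz
              have : z ≠ 0 := by
                rintro rfl
                have h4 := hz.2
                simp at h4
                omega
              rw [if_neg this, add_zero]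
            rw [sum_congr rfl h3, sum_add_distrib]
            have h4 : ∑ z ∈ pt n k, v z ≤ j := by
              refine le_trans ?_ hvm
              apply sum_le_sum_of_subset_of_nonneg (subset_univ _)
              intro i _ _; exact hvn i
            have h5 : ∑ z ∈ pt n k, c s ≤ k * c s := by
              rw [sum_const, nsmul_eq_mul]
              apply mul_le_mul_of_nonneg_right
              · exact_mod_cast card_pt_le n k
              · have := hcge s
                have : 0 ≤ 2 * j / n := by positivity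
                linarith
            linarith
          rw [div_le_iff₀ hnpos]
          have h6 := hcge s
          rw [div_le_iff₀ hnpos] at h6
          have hcs : 0 ≤ c s := by
            have := hcge s
            have : 0 ≤ 2 * j / n := by positivity
            linarith
          nlinarith [mul_nonneg hq0 hβs, mul_nonneg hcs (by linarith : (0:ℝ) ≤ n / 2 - q - k), mul_nonneg hβs (by linarith : (0:ℝ) ≤ n / 2 - q)]
        have h7 : 1 / (M : ℝ) * PP n k q (fun x => v x + c s + if x = 0 then β s else 0) 0 ≤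
            1 / (M : ℝ) * (c s + β s / 2) := mul_le_mul_of_nonneg_left h1 (by positivity)
        have h8 : 0 ≤ β s / (n * M) := by positivity
        have e5 : (1 - 1 / (M : ℝ)) * (0 + c s + β s) + 1 / (M : ℝ) * (c s + β s / 2) =
            c s + (β s - 1 / (2 * M) * β s) := by
          field_simp; ring
        linarith
      · rw [if_neg hx, add_zero, ecs, LS_apply]
        unfold lz
        rw [show (fun x => v x + c s + if x = 0 then β s else 0) x = v x + c s from by
          simp [hx]]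
        have h1 : PP n k q (fun x => v x + c s + if x = 0 then β s else 0) x ≤
            SS n k v x + c s + β s / n := by
          unfold PP SS
          rw [if_neg hx, if_neg hx]
          rw [sum_add_distrib, sum_add_distrib]
          simp only [sum_const, card_univ, Fintype.card_fin, nsmul_eq_mul]
          have h2 : ∑ i, (if gl n k i x = 0 then β s else 0) ≤ β s := by
            rw [← sum_filter, sum_const, nsmul_eq_mul]
            have h3 : (univ.filter fun i => gl n k i x = 0).card ≤ 1 := by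
              rw [card_le_one]
              intro i hi i' hi'
              rw [mem_filter] at hi hi'
              have aux : ∀ i : Fin n, gl n k i x = 0 → i = x := by
                intro i hgi
                by_contra hne
                by_cases hp : x = par n k i
                · rw [hp] at hgi
                  unfold gl at hgi
                  rw [swap_apply_right] at hgi
                  -- i = 0
                  have : par n k i = 0 := by
                    rw [hgi]
                    unfold par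
                    split_ifs
                    · rfl
                    · apply Fin.ext; simp
                  rw [this] at hp
                  exact hx hp
                · have : gl n k i x = x := gl_fix (Ne.symm hne) hp
                  rw [this] at hgi
                  exact hx hgi
              rw [aux i hi.2, aux i' hi'.2]
            have h4 : (((univ.filter fun i => gl n k i x = 0).card : ℕ) : ℝ) ≤ 1 := by
              exact_mod_cast h3
            calc _ ≤ 1 * β s := mul_le_mul_of_nonneg_right h4 hβs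
              _ = β s := one_mul _
          rw [div_le_iff₀ hnpos]
          have e6 : ((∑ i, v (gl n k i x)) / ↑n + c s + β s / ↑n) * ↑n =
              ∑ i, v (gl n k i x) + n * c s + β s := by field_simp
          rw [e6]
          linarith
        have h7 : 1 / (M : ℝ) * PP n k q (fun x => v x + c s + if x = 0 then β s else 0) x ≤
            1 / (M : ℝ) * (SS n k v x + c s + β s / n) :=
          mul_le_mul_of_nonneg_left h1 (by positivity)
        have e7 : (1 - 1 / (M : ℝ)) * (v x + c s) + 1 / (M : ℝ) * (SS n k v x + c s + β s / n) =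
            (1 - 1 / (M : ℝ)) * v x + 1 / (M : ℝ) * SS n k v x + (c s + β s / (n * M)) := by
          field_simp; ring
        linarith
  refine (key (M * (4 * n * k ^ 2)) x).trans ?_
  -- the three terms
  have hkj : 0 ≤ j / k := by positivity
  have t1 : (LS n k M)^[M * (4 * n * k ^ 2)] v0 x ≤ j / k := by
    by_cases hx : x = 0
    · rw [hx, LSit_zero M v0 hv00]; exact hkj
    · rw [hv0, LSit_sum]
      calc ∑ z ∈ Z', (LS n k M)^[M * (4 * n * k ^ 2)] (dl z) x ≤ ∑ z ∈ Z', (1 / k : ℝ) :=
            sum_le_sum fun z hz => point_bound hM hk hn z x (mem_erase.mp hz).1 hx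
        _ = Z'.card * (1 / k) := by rw [sum_const, nsmul_eq_mul]
        _ ≤ j * (1 / k) := by
            apply mul_le_mul_of_nonneg_right _ (by positivity)
            rw [hj]; exact_mod_cast card_le_card (erase_subset _ _)
        _ = j / k := by ring
  have hinv : 1 / (n : ℝ) ≤ 1 / k := one_div_le_one_div_of_le (by linarith) hkn
  have t2 : c (M * (4 * n * k ^ 2)) ≤ 5 * j / k := by
    rw [hc]
    simp only
    have h1 : 2 / (n : ℝ) * (1 - β (M * (4 * n * k ^ 2))) ≤ 2 / n := by
      apply mul_le_of_le_one_right (by positivity)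
      linarith [hβ0 (M * (4 * n * k ^ 2))]
    have e1 : 1 / (n : ℝ) + 2 * j / n + 2 / n = (3 + 2 * j) * (1 / n) := by ring
    have h2 : (3 + 2 * j) * (1 / (n : ℝ)) ≤ (5 * j) * (1 / k) := by
      apply mul_le_mul (by linarith) hinv (by positivity) (by positivity)
    have e2 : (5 * j) * (1 / (k : ℝ)) = 5 * j / k := by ring
    linarith
  have t3 : (if x = 0 then β (M * (4 * n * k ^ 2)) else 0) ≤ j / k := by
    split_ifs
    · set X : ℝ := 1 / (2 * (M : ℝ)) with hX
      have hX0 : 0 < X := by positivity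
      set N := M * (4 * n * k ^ 2) with hN
      have h1 : (1 : ℝ) + N * X ≤ (1 + X) ^ N := one_add_mul_le_pow (by linarith) N
      have h2 : (1 - X) ^ N * (1 + X) ^ N ≤ 1 := by
        rw [← mul_pow]
        apply pow_le_one₀
        · exact mul_nonneg hb0 (by linarith)
        · nlinarith
      have e1 : (N : ℝ) * X = 2 * n * k ^ 2 := by
        rw [hN, hX]; push_cast; field_simp; ring
      rw [e1] at h1
      have h3 : (1 - X) ^ N * k ≤ 1 := by
        have h4 : (k : ℝ) ≤ (1 + X) ^ N := by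
          refine le_trans ?_ h1
          have hn1 : (1 : ℝ) ≤ n := by linarith
          nlinarith
        calc (1 - X) ^ N * k ≤ (1 - X) ^ N * (1 + X) ^ N :=
              mul_le_mul_of_nonneg_left h4 (pow_nonneg hb0 N)
          _ ≤ 1 := h2
      calc β N ≤ 1 / k := by rw [le_div_iff₀ (by linarith)]; exact h3
        _ ≤ j / k := div_le_div_of_nonneg_right hZ' (by linarith)
    · exact hkj
  have e8 : 7 * j / k = j / k + 5 * j / k + j / k := by ring
  rw [e8]
  linarith

end Pool.Agent.H9.Cut
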