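import Mathlib
import Pool.Agent.H9.Cut.Dom
import Pool.Agent.H9.Cut.Prod
import Pool.Agent.H9.Cut.Single

/-!
# Bounds for the two kernel quantities of a set of cards
-/

namespace Pool.Agent.H9.Cut

open Equiv Finset Pool.Agent.H79.Cut Filter

variable {n k : ℕ} [NeZero n]

lemma PPmono {q : ℝ} (hq : 0 ≤ q) : ∀ f g : Fin n → ℝ, (∀ x, f x ≤ g x) →
    ∀ x, PP n k q f x ≤ PP n k q g x := by
  intro f g h x
  unfold PP
  apply div_le_div_of_nonneg_right _ (npos (n := n)).le
  split_ifs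
  · exact add_le_add (mul_le_mul_of_nonneg_left (h 0) hq) (sum_le_sum fun i _ => h _)
  · exact sum_le_sum fun i _ => h _

lemma PP_smul (q c : ℝ) (f : Fin n → ℝ) : PP n k q (fun x => c * f x) =
    fun x => c * PP n k q f x := by
  funext x
  unfold PP
  split_ifs
  · rw [← mul_sum]; ring
  · rw [← mul_sum]; ring

lemma lzPP_it_smul (M : ℕ) (q c : ℝ) (s : ℕ) : ∀ f : Fin n → ℝ,
    (lz M (PP n k q))^[s] (fun x => c * f x) = fun x => c * (lz M (PP n k q))^[s] f x := by
  induction s with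
  | zero => intro f; rfl
  | succ s ih =>
    intro f
    rw [Function.iterate_succ_apply, Function.iterate_succ_apply, ← ih]
    congr 1
    funext x
    unfold lz
    rw [PP_smul]; ring

/-- decay rate -/
noncomputable def lam (n : ℕ) (θ : ℝ) : ℝ := (2 - 2 * Real.cos θ) / n

lemma rate_le {a θ : ℝ} (P : Par n k a θ) {M : ℕ} (hM : 1 ≤ M) (t : ℕ) :
    0 ≤ (1 - (2 - 2 * Real.cos θ) / (n * M)) ∧
    (1 - (2 - 2 * Real.cos θ) / (n * M)) ^ (M * t) ≤ Real.exp (-(lam n θ * t)) := by
  have hn := npos (n := n)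
  have hM' : (1 : ℝ) ≤ M := by exact_mod_cast hM
  have h1 := P.hlam
  have h0 := P.lam_nonneg
  have hn1 : (1 : ℝ) ≤ n := by exact_mod_cast Nat.one_le_iff_ne_zero.mpr (NeZero.ne n)
  have hpos : (0 : ℝ) < n * M := by positivity
  have h2 : (2 - 2 * Real.cos θ) / (n * M) ≤ 1 := by
    rw [div_le_one hpos]; nlinarith
  refine ⟨by linarith, ?_⟩
  set x := (2 - 2 * Real.cos θ) / (n * M) with hx
  have h3 : 1 - x ≤ Real.exp (-x) := by
    have := Real.add_one_le_exp (-x)
    linarith
  calc (1 - x) ^ (M * t) ≤ (Real.exp (-x)) ^ (M * t) :=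
        pow_le_pow_left₀ (by linarith) h3 _
    _ = Real.exp (-(lam n θ * t)) := by
        rw [← Real.exp_nat_mul]
        congr 1
        rw [hx, lam]
        push_cast
        field_simp

lemma lam_nonneg' {a θ : ℝ} (P : Par n k a θ) : 0 ≤ lam n θ := by
  unfold lam
  exact div_nonneg P.lam_nonneg (npos (n := n)).le

/-- the first quantity: survival of all cards of `A` -/
lemma X_bound {a θ : ℝ} (P : Par n k a θ) {q B : ℝ} (hq0 : 0 ≤ q) (A : Finset (Fin n))
    (hqA : (k : ℝ) + 2 * A.card ≤ q)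
    (hB : 1 ≤ B * Real.sin a) (hq : q * Real.sin a + k ≤ ((n : ℝ) - 1 / 2) * Real.sin a)
    (hq2 : q + k ≤ n / 2) (t : ℕ) :
    ∀ᶠ M : ℕ in atTop, (lz M (BB n k A))^[M * t] (fun _ => 1) 1 ≤
      2 * (B * Real.exp (-(lam n θ * t))) ^ A.card := by
  have hn := npos (n := n)
  have hsin := P.sin_pos
  have hB0 : 0 < B := by
    by_contra hc
    push Not at hc
    nlinarith
  obtain ⟨M₀, hM₀⟩ := prod_ineq (n := n) (k := k) (by have := P.hn; omega) A hqA (by linarith)
    (fun _ => 1) (fun _ => one_pos) t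
  filter_upwards [eventually_ge_atTop M₀, eventually_ge_atTop 1] with M hM hM1
  have h1 := hM₀ M hM (M * t) le_rfl 1
  have e1 : Pi' A (fun _ => (1 : ℝ)) = (fun _ => 1 : Perm (Fin n) → ℝ) := by
    funext σ; simp [Pi']
  rw [e1] at h1
  refine h1.trans ?_
  apply mul_le_mul_of_nonneg_left _ (by norm_num)
  unfold Pi'
  rw [← prod_const]
  apply Finset.prod_le_prod
  · intro x _
    have h0 : ∀ y : Fin n, (0:ℝ) ≤ (lz M (PP n k q))^[M * t] (fun _ => 1) y := by
      intro y
      have h2 := itmono (lzmono hM1 (PPmono (n := n) (k := k) hq0)) (M * t)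
        (fun _ => (0:ℝ) * 1) (fun _ => 1) (fun _ => by norm_num) y
      rw [lzPP_it_smul] at h2
      simpa using h2
    exact h0 _
  · intro x _
    have h2 := single_surv P hq0 hB hq M hM1 (M * t) ((1 : Perm (Fin n))⁻¹ x)
    refine h2.trans ?_
    exact mul_le_mul_of_nonneg_left (rate_le P hM1 t).2 hB0.le

/-- the second quantity: the cards of `A` are at prescribed positions -/
lemma Y_bound {a θ : ℝ} (P : Par n k a θ) {q B : ℝ} (hq0 : 0 ≤ q) (A : Finset (Fin n))
    (hA : 1 ≤ A.card) (hqA : (k : ℝ) + 2 * A.card ≤ q)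
    (hB : 1 ≤ B * Real.sin a) (hq : q * Real.sin a + k ≤ ((n : ℝ) - 1 / 2) * Real.sin a)
    (hq2 : q + k ≤ n / 2) (t : ℕ) (ht : 4 * n * k ^ 2 ≤ t) (ρ : Perm (Fin n)) :
    ∀ᶠ M : ℕ in atTop, (lz M (BB n k A))^[M * t] (same A ρ) 1 ≤
      2 * (7 * A.card / k * (B * Real.exp (-(lam n θ * ((t : ℝ) - 4 * n * k ^ 2))))) ^ A.card := by
  have hn := npos (n := n)
  have hsin := P.sin_pos
  have hk : (0 : ℝ) < k := by exact_mod_cast P.hk
  have hB0 : 0 < B := by
    by_contra hc
    push Not at hc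
    nlinarith
  set Z : Finset (Fin n) := A.image (fun x => ρ⁻¹ x) with hZ
  have hZcard : Z.card = A.card := card_image_of_injective _ (ρ⁻¹).injective
  set u : Fin n → ℝ := fun y => (if y ∈ Z then 1 else 0) + 1 / (n : ℝ) with hu
  have hu0 : ∀ x, 0 < u x := by
    intro x
    have : (0:ℝ) < 1 / (n : ℝ) := by positivity
    simp only [hu]
    split_ifs <;> linarith
  obtain ⟨M₀, hM₀⟩ := prod_ineq (n := n) (k := k) (by have := P.hn; omega) A hqA (by linarith)
    u hu0 t
  obtain ⟨t', ht'⟩ : ∃ t', t = t' + 4 * n * k ^ 2 := ⟨t - 4 * n * k ^ 2, by omega⟩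
  have ht'R : (t : ℝ) - 4 * n * k ^ 2 = t' := by rw [ht']; push_cast; ring
  rw [ht'R]
  filter_upwards [eventually_ge_atTop M₀, eventually_ge_atTop 2] with M hM hM2
  have hM1 : 1 ≤ M := by omega
  -- domination of the indicator by the product function
  have h0 : (lz M (BB n k A))^[M * t] (same A ρ) 1 ≤ (lz M (BB n k A))^[M * t] (Pi' A u) 1 := by
    apply itmono (lzmono hM1 (BBmono A))
    intro σ
    unfold same
    split_ifs with h
    · unfold Pi'
      calc (1:ℝ) = ∏ a ∈ A, (1:ℝ) := by simp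
        _ ≤ ∏ a ∈ A, u (σ⁻¹ a) := by
          apply Finset.prod_le_prod (fun _ _ => zero_le_one)
          intro a ha
          have : σ⁻¹ a ∈ Z := by
            rw [h a ha, hZ]; exact mem_image_of_mem _ ha
          simp only [hu]
          rw [if_pos this]
          have : (0:ℝ) < 1 / (n : ℝ) := by positivity
          linarith
    · exact prod_nonneg fun a _ => (hu0 _).le
  refine h0.trans ((hM₀ M hM (M * t) le_rfl 1).trans ?_)
  apply mul_le_mul_of_nonneg_left _ (by norm_num)
  unfold Pi'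
  rw [← prod_const]
  have hmono := lzmono hM1 (PPmono (n := n) (k := k) hq0)
  apply Finset.prod_le_prod
  · intro x _
    have h2 := itmono hmono (M * t) (fun _ => (0:ℝ) * 1) u (fun y => by
      have := (hu0 y).le; simpa using this) ((1 : Perm (Fin n))⁻¹ x)
    rw [lzPP_it_smul] at h2
    simpa using h2
  · intro x _
    have e : M * t = M * t' + M * (4 * n * k ^ 2) := by rw [ht']; ring
    rw [e, Function.iterate_add_apply]
    have h2 : ∀ y, (lz M (PP n k q))^[M * (4 * n * k ^ 2)] u y ≤ (7 * A.card / k) * 1 := by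
      intro y
      rw [mul_one, ← hZcard]
      exact single_smooth P.hk P.hn hq0 hq2 M hM2 Z (by rw [hZcard]; exact hA) y
    have h3 := itmono hmono (M * t') _ _ h2 ((1 : Perm (Fin n))⁻¹ x)
    rw [lzPP_it_smul] at h3
    refine h3.trans ?_
    apply mul_le_mul_of_nonneg_left _ (by positivity)
    refine (single_surv P hq0 hB hq M hM1 (M * t') _).trans ?_
    exact mul_le_mul_of_nonneg_left (rate_le P hM1 t').2 hB0.le

end Pool.Agent.H9.Cut
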