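import Mathlib
import Pool.Agent.H9.Cut.Defs

/-!
# Decomposition into levels of new functions, with a lower bound for the norm
(module W1 of MP_55bcd1_pr)
-/

namespace Pool.Agent.H9.Cut

open Equiv Finset Pool.Agent.H79.Cut

namespace RZ

variable {α : Type*} [Fintype α] [DecidableEq α]

set_option linter.unusedSectionVars false

lemma ias (π : Perm α) (x : α) : π⁻¹ (π x) = x := Equiv.symm_apply_apply π x

/-- left translation -/
def LL (τ : Perm α) (f : Perm α → ℝ) : Perm α → ℝ := fun σ => f (τ * σ)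

lemma LL_apply (τ : Perm α) (f : Perm α → ℝ) (σ : Perm α) : LL τ f σ = f (τ * σ) := rfl

lemma ip_comm (f g : Perm α → ℝ) : ip f g = ip g f := by
  unfold ip
  exact sum_congr rfl fun σ _ => mul_comm _ _

lemma ip_LL (τ : Perm α) (f g : Perm α → ℝ) : ip (LL τ f) (LL τ g) = ip f g := by
  unfold ip
  exact Fintype.sum_equiv (Equiv.mulLeft τ) _ _ (fun σ => rfl)

lemma LL_LL (τ ρ : Perm α) (f : Perm α → ℝ) : LL τ (LL ρ f) = LL (ρ * τ) f := by
  funext σ
  simp only [LL_apply, mul_assoc]

lemma LL_one (f : Perm α → ℝ) : LL 1 f = f := by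
  funext σ
  simp [LL_apply]

lemma ip_LL_left (τ : Perm α) (f g : Perm α → ℝ) : ip (LL τ f) g = ip f (LL τ⁻¹ g) := by
  have h := ip_LL τ f (LL τ⁻¹ g)
  rw [LL_LL] at h
  simpa [LL_one] using h

lemma ip_zero_left (g : Perm α → ℝ) : ip (fun _ => 0) g = 0 := by
  unfold ip; simp

lemma ip_sum_left {ι : Type*} (s : Finset ι) (F : ι → Perm α → ℝ) (g : Perm α → ℝ) :
    ip (fun σ => ∑ i ∈ s, F i σ) g = ∑ i ∈ s, ip (F i) g := by
  unfold ip
  rw [sum_comm]
  exact sum_congr rfl fun σ _ => by rw [sum_mul]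

lemma ip_sum_right {ι : Type*} (s : Finset ι) (F : ι → Perm α → ℝ) (g : Perm α → ℝ) :
    ip g (fun σ => ∑ i ∈ s, F i σ) = ∑ i ∈ s, ip g (F i) := by
  rw [ip_comm, ip_sum_left]
  exact sum_congr rfl fun i _ => ip_comm _ _

lemma ip_mul_left (c : ℝ) (f g : Perm α → ℝ) : ip (fun σ => c * f σ) g = c * ip f g := by
  unfold ip
  rw [mul_sum]
  exact sum_congr rfl fun σ _ => by ring

lemma ip_mul_right (c : ℝ) (f g : Perm α → ℝ) : ip g (fun σ => c * f σ) = c * ip g f := by
  rw [ip_comm, ip_mul_left, ip_comm]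

lemma ip_self_nonneg (f : Perm α → ℝ) : 0 ≤ ip f f :=
  sum_nonneg fun _ _ => mul_self_nonneg _

lemma eq_zero_of_ip {f : Perm α → ℝ} (h : ip f f = 0) (σ : Perm α) : f σ = 0 := by
  unfold ip at h
  rw [sum_eq_zero_iff_of_nonneg (fun σ _ => mul_self_nonneg _)] at h
  exact mul_self_eq_zero.mp (h σ (mem_univ _))

lemma ZZ_mono {A B : Finset α} (h : A ⊆ B) {f : Perm α → ℝ} (hf : ZZ A f) : ZZ B f := by
  intro τ hτ σ
  apply hf
  rw [mem_Fx] at *
  exact fun x hx => hτ x (h hx)

lemma ZZ_LL {A A' : Finset α} {τ : Perm α} (h : ∀ x, x ∈ A' ↔ τ x ∈ A) {f : Perm α → ℝ}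
    (hf : ZZ A f) : ZZ A' (LL τ f) := by
  intro ρ hρ σ
  have h0 : τ * ρ * τ⁻¹ ∈ Fx A := by
    rw [mem_Fx]
    intro x hx
    have h1 : ρ (τ⁻¹ x) = τ⁻¹ x := (mem_Fx.mp hρ) _ ((h _).2 (by rwa [aii]))
    rw [Perm.mul_apply, Perm.mul_apply, h1, aii]
  have h2 := hf _ h0 (τ * σ)
  show f (τ * (ρ * σ)) = f (τ * σ)
  rw [← h2]
  congr 1
  group

lemma NN_LL {A A' : Finset α} {τ : Perm α} (h : ∀ x, x ∈ A' ↔ τ x ∈ A) {f : Perm α → ℝ}
    (hf : NN A f) : NN A' (LL τ f) := by
  refine ⟨ZZ_LL h hf.1, fun a ha σ => ?_⟩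
  have h1 := hf.2 (τ a) ((h a).1 ha) (τ * σ)
  rw [← h1]
  apply Finset.sum_bij (fun c _ => τ c)
  · intro c hc
    rcases mem_insert.mp hc with h2 | h2
    · rw [h2]; exact mem_insert_self _ _
    · apply mem_insert_of_mem
      rw [mem_compl] at *
      rwa [← h]
  · intro c _ d _ hcd
    exact τ.injective hcd
  · intro d hd
    refine ⟨τ⁻¹ d, ?_, aii _ _⟩
    rcases mem_insert.mp hd with h2 | h2
    · rw [h2, ias]; exact mem_insert_self _ _
    · apply mem_insert_of_mem
      rw [mem_compl] at *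
      rwa [h, aii]
  · intro c _
    rw [LL_apply, ← mul_assoc, ← mul_assoc, Equiv.mul_swap_eq_swap_mul]

lemma NN_orth : ∀ (m : ℕ) (A B : Finset α) (f g : Perm α → ℝ), (B \ A).card = m →
    m < (A \ B).card → NN A f → ZZ B g → ip f g = 0 := by
  intro m
  induction m with
  | zero =>
    intro A B f g hm hlt hf hg
    obtain ⟨a, ha⟩ := card_pos.mp hlt
    rw [mem_sdiff] at ha
    have hBA : B ⊆ A := by
      rw [← sdiff_eq_empty_iff_subset]; exact card_eq_zero.mp hm
    have h1 : ip (fun σ => ∑ c ∈ insert a Aᶜ, LL (swap a c) f σ) g = 0 := by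
      have : (fun σ => ∑ c ∈ insert a Aᶜ, LL (swap a c) f σ) = fun _ => 0 := by
        funext σ
        exact hf.2 a ha.1 σ
      rw [this, ip_zero_left]
    rw [ip_sum_left] at h1
    have h2 : ∀ c ∈ insert a Aᶜ, ip (LL (swap a c) f) g = ip f g := by
      intro c hc
      rw [ip_LL_left]
      congr 1
      funext σ
      rw [LL_apply, swap_inv]
      apply hg
      rw [mem_Fx]
      intro x hx
      apply swap_apply_of_ne_of_ne
      · rintro rfl; exact ha.2 hx
      · rintro rfl
        rcases mem_insert.mp hc with h3 | h3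
        · subst h3; exact ha.2 hx
        · exact (mem_compl.mp h3) (hBA hx)
    rw [sum_congr rfl h2, sum_const, nsmul_eq_mul] at h1
    rcases mul_eq_zero.mp h1 with h3 | h3
    · exfalso
      have h4 : (insert a Aᶜ).card = 0 := by exact_mod_cast h3
      rw [card_eq_zero] at h4
      exact insert_ne_empty _ _ h4
    · exact h3
  | succ m ih =>
    intro A B f g hm hlt hf hg
    obtain ⟨a, ha⟩ := card_pos.mp (lt_of_le_of_lt (Nat.zero_le _) hlt)
    rw [mem_sdiff] at ha
    have h1 : ip (fun σ => ∑ c ∈ insert a Aᶜ, LL (swap a c) f σ) g = 0 := by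
      have : (fun σ => ∑ c ∈ insert a Aᶜ, LL (swap a c) f σ) = fun _ => 0 := by
        funext σ
        exact hf.2 a ha.1 σ
      rw [this, ip_zero_left]
    rw [ip_sum_left] at h1
    have h2 : ∀ c ∈ insert a Aᶜ, ip (LL (swap a c) f) g = if c ∈ B then 0 else ip f g := by
      intro c hc
      split_ifs with hcB
      · have hca : c ≠ a := by rintro rfl; exact ha.2 hcB
        have hcA : c ∉ A := by
          rcases mem_insert.mp hc with h3 | h3
          · exact absurd h3 hca
          · exact mem_compl.mp h3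
        apply ih (insert c (A.erase a)) B _ g _ _ _ hg
        · have h5 : B \ insert c (A.erase a) = (B \ A).erase c := by
            ext x
            simp only [mem_sdiff, mem_insert, mem_erase, not_or, not_and]
            constructor
            · rintro ⟨h6, h7, h8⟩
              refine ⟨h7, h6, h8 ?_⟩
              rintro rfl; exact ha.2 h6
            · rintro ⟨h6, h7, h8⟩
              exact ⟨h7, h6, fun _ => h8⟩
          rw [h5, card_erase_of_mem (mem_sdiff.mpr ⟨hcB, hcA⟩), hm]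
          rfl
        · have h5 : insert c (A.erase a) \ B = (A \ B).erase a := by
            ext x
            simp only [mem_sdiff, mem_insert, mem_erase]
            constructor
            · rintro ⟨h6 | h6, h7⟩
              · subst h6; exact absurd hcB h7
              · exact ⟨h6.1, h6.2, h7⟩
            · rintro ⟨h6, h7, h8⟩
              exact ⟨Or.inr ⟨h6, h7⟩, h8⟩
          rw [h5, card_erase_of_mem (mem_sdiff.mpr ha)]
          omega
        · apply NN_LL _ hf
          intro x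
          rw [mem_insert, mem_erase]
          by_cases hxa : x = a
          · subst hxa
            rw [swap_apply_left]
            constructor
            · rintro (h6 | h6)
              · exact absurd h6.symm hca
              · exact absurd rfl h6.1
            · intro h6; exact absurd h6 hcA
          · by_cases hxc : x = c
            · subst hxc
              rw [swap_apply_right]
              exact ⟨fun _ => ha.1, fun _ => Or.inl rfl⟩
            · rw [swap_apply_of_ne_of_ne hxa hxc]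
              constructor
              · rintro (h6 | h6)
                · exact absurd h6 hxc
                · exact h6.2
              · intro h6; exact Or.inr ⟨hxa, h6⟩
      · rw [ip_LL_left]
        congr 1
        funext σ
        rw [LL_apply, swap_inv]
        apply hg
        rw [mem_Fx]
        intro x hx
        apply swap_apply_of_ne_of_ne
        · rintro rfl; exact ha.2 hx
        · rintro rfl; exact hcB hx
    rw [sum_congr rfl h2, ← sum_filter_not_add_sum_filter _ (fun c => c ∈ B)] at h1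
    rw [sum_congr rfl (g := fun _ => ip f g) (fun c hc => by
        rw [if_neg (mem_filter.mp hc).2]),
      sum_congr rfl (s₁ := (insert a Aᶜ).filter (fun c => c ∈ B)) (g := fun _ => (0:ℝ))
        (fun c hc => by rw [if_pos (mem_filter.mp hc).2])] at h1
    rw [sum_const_zero, add_zero, sum_const, nsmul_eq_mul] at h1
    rcases mul_eq_zero.mp h1 with h3 | h3
    · exfalso
      have h4 : ((insert a Aᶜ).filter (fun c => ¬ c ∈ B)).card = 0 := by exact_mod_cast h3
      rw [card_eq_zero] at h4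
      have h5 : a ∈ (insert a Aᶜ).filter (fun c => ¬ c ∈ B) :=
        mem_filter.mpr ⟨mem_insert_self _ _, ha.2⟩
      rw [h4] at h5
      exact notMem_empty _ h5
    · exact h3

lemma NN_orth' {A B : Finset α} {f g : Perm α → ℝ} (h : A.card ≠ B.card) (hf : NN A f)
    (hg : NN B g) : ip f g = 0 := by
  have h1 := card_sdiff_add_card_inter A B
  have h2 := card_sdiff_add_card_inter B A
  rw [inter_comm] at h2
  rcases lt_or_gt_of_ne h with h3 | h3
  · rw [ip_comm]
    exact NN_orth _ B A g f rfl (by omega) hg hf.1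
  · exact NN_orth _ A B f g rfl (by omega) hf hg.1

/-- the functions on permutations depending only on the positions of `A` -/
def Zs (A : Finset α) : Submodule ℝ (EuclideanSpace ℝ (Perm α)) where
  carrier := {x | ZZ A (fun σ => x σ)}
  add_mem' := by
    intro x y hx hy τ hτ σ
    show x (τ * σ) + y (τ * σ) = x σ + y σ
    have h1 : x (τ * σ) = x σ := hx τ hτ σ
    have h2 : y (τ * σ) = y σ := hy τ hτ σ
    rw [h1, h2]
  zero_mem' := by
    intro τ _ σ
    rfl
  smul_mem' := by
    intro c x hx τ hτ σ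
    show c * x (τ * σ) = c * x σ
    have h1 : x (τ * σ) = x σ := hx τ hτ σ
    rw [h1]

lemma ZZ_release {U : Finset α} {a : α} (ha : a ∈ U) {z : Perm α → ℝ} (hz : ZZ U z) :
    ZZ (U.erase a) (fun σ => ∑ c ∈ insert a Uᶜ, z (swap a c * σ)) := by
  have key : ∀ σ, ((Fx U).card : ℝ) * ∑ c ∈ insert a Uᶜ, z (swap a c * σ) =
      ∑ π ∈ Fx (U.erase a), z (π * σ) := by
    intro σ
    rw [← sum_release ha (fun π => z (π * σ)), mul_sum]
    apply sum_congr rfl
    intro c _
    have : ∀ π ∈ Fx U, z (π * swap a c * σ) = z (swap a c * σ) := by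
      intro π hπ
      rw [mul_assoc]
      exact hz π hπ _
    rw [sum_congr rfl this, sum_const, nsmul_eq_mul]
  intro ρ hρ σ
  have h1 : ((Fx U).card : ℝ) ≠ 0 := by exact_mod_cast (Fx_card_pos U).ne'
  apply mul_left_cancel₀ h1
  rw [key, key]
  apply sum_bij' (fun π _ => π * ρ) (fun π _ => π * ρ⁻¹)
  · intro π hπ; exact mul_mem_Fx hπ hρ
  · intro π hπ; exact mul_mem_Fx hπ (inv_mem_Fx hρ)
  · intro π _; simp
  · intro π _; simp
  · intro π _; rw [mul_assoc]

lemma exists_new (U : Finset α) (f : Perm α → ℝ) (hf : ZZ U f) :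
    ∃ (z : Perm α → ℝ) (g : α → Perm α → ℝ), NN U z ∧ (∀ a ∈ U, ZZ (U.erase a) (g a)) ∧
      ∀ σ, f σ = z σ + ∑ a ∈ U, g a σ := by
  let K : Submodule ℝ (EuclideanSpace ℝ (Perm α)) := ⨆ a ∈ U, Zs (U.erase a)
  obtain ⟨y, hy, z, hz, hyz⟩ := K.exists_add_mem_mem_orthogonal (WithLp.toLp 2 f)
  obtain ⟨μ, hμ⟩ := (Submodule.mem_iSup_finset_iff_exists_sum _ _).mp hy
  have hμ' : ∀ a, ZZ (U.erase a) (fun σ => (μ a : EuclideanSpace ℝ (Perm α)) σ) :=
    fun a => (μ a).2
  have hsum : ∀ σ, y σ = ∑ a ∈ U, (μ a : EuclideanSpace ℝ (Perm α)) σ := by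
    intro σ
    rw [← hμ]
    simp
  have hfyz : ∀ σ, f σ = y σ + z σ := by
    intro σ
    have := congrArg (fun v : EuclideanSpace ℝ (Perm α) => v σ) hyz
    simpa using this
  have hzZ : ZZ U (fun σ => z σ) := by
    intro τ hτ σ
    have h1 := hfyz (τ * σ)
    have h2 := hfyz σ
    have h3 := hf τ hτ σ
    have h4 : y (τ * σ) = y σ := by
      rw [hsum, hsum]
      apply sum_congr rfl
      intro a _
      exact ZZ_mono (erase_subset a U) (hμ' a) τ hτ σ
    show z (τ * σ) = z σ
    linarith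
  have horth : ∀ a ∈ U, ∀ g : Perm α → ℝ, ZZ (U.erase a) g → ip (fun σ => z σ) g = 0 := by
    intro a ha g hg
    have h1 : WithLp.toLp 2 g ∈ K := by
      apply (le_iSup₂_of_le (f := fun a (_ : a ∈ U) => Zs (U.erase a)) a ha le_rfl)
      exact hg
    have h2 := (Submodule.mem_orthogonal K z).mp hz _ h1
    rw [PiLp.inner_apply] at h2
    unfold ip
    rw [← h2]
    apply sum_congr rfl
    intro σ _
    simp
  refine ⟨fun σ => z σ, fun a σ => (μ a : EuclideanSpace ℝ (Perm α)) σ, ⟨hzZ, ?_⟩,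
    fun a _ => hμ' a, fun σ => by rw [hfyz σ, hsum σ, add_comm]⟩
  intro a ha
  have hg := ZZ_release ha hzZ
  apply eq_zero_of_ip
  have h1 : ip (fun σ => ∑ c ∈ insert a Uᶜ, LL (swap a c) (fun σ => z σ) σ)
      (fun σ => ∑ c ∈ insert a Uᶜ, z (swap a c * σ)) = 0 := by
    rw [ip_sum_left]
    apply sum_eq_zero
    intro c hc
    rw [ip_LL_left]
    have h2 : LL (swap a c)⁻¹ (fun σ => ∑ c ∈ insert a Uᶜ, z (swap a c * σ)) =
        (fun σ => ∑ c ∈ insert a Uᶜ, z (swap a c * σ)) := by
      funext σ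
      rw [LL_apply, swap_inv]
      apply hg
      rw [mem_Fx]
      intro x hx
      apply swap_apply_of_ne_of_ne
      · exact (mem_erase.mp hx).1
      · rintro rfl
        rcases mem_insert.mp hc with h3 | h3
        · exact (mem_erase.mp hx).1 h3
        · exact (mem_compl.mp h3) (mem_erase.mp hx).2
    rw [h2]
    exact horth a ha _ hg
  exact h1

lemma exists_dec : ∀ (m : ℕ) (U : Finset α), U.card = m → ∀ f : Perm α → ℝ, ZZ U f →
    ∃ φ : Finset α → Perm α → ℝ, (∀ A, A ⊆ U → NN A (φ A)) ∧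
      ∀ σ, f σ = ∑ A ∈ U.powerset, φ A σ := by
  intro m
  induction m with
  | zero =>
    intro U hU f hf
    rw [card_eq_zero] at hU
    subst hU
    refine ⟨fun _ => f, fun A hA => ?_, fun σ => by simp⟩
    rw [subset_empty] at hA
    subst hA
    exact ⟨hf, fun a ha => absurd ha (notMem_empty a)⟩
  | succ m ih =>
    intro U hU f hf
    obtain ⟨z, g, hz, hg, hfz⟩ := exists_new U f hf
    have hex : ∀ a : α, ∃ φ : Finset α → Perm α → ℝ, a ∈ U →
        (∀ A, A ⊆ U.erase a → NN A (φ A)) ∧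
        ∀ σ, g a σ = ∑ A ∈ (U.erase a).powerset, φ A σ := by
      intro a
      by_cases ha : a ∈ U
      · obtain ⟨φ, h1, h2⟩ := ih (U.erase a) (by rw [card_erase_of_mem ha, hU]; rfl) (g a)
          (hg a ha)
        exact ⟨φ, fun _ => ⟨h1, h2⟩⟩
      · exact ⟨fun _ _ => 0, fun h => absurd h ha⟩
    choose ψ hψ using hex
    refine ⟨fun A σ => if A = U then z σ else ∑ a ∈ U \ A, ψ a A σ, ?_, ?_⟩
    · intro A hA
      by_cases hAU : A = U
      · subst hAU
        simpa using hz
      · simp only [hAU, if_false]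
        have hN : ∀ a ∈ U \ A, NN A (ψ a A) := by
          intro a ha
          rw [mem_sdiff] at ha
          exact (hψ a ha.1).1 A (fun x hx => mem_erase.mpr
            ⟨by rintro rfl; exact ha.2 hx, hA hx⟩)
        constructor
        · intro τ hτ σ
          exact sum_congr rfl fun a ha => (hN a ha).1 τ hτ σ
        · intro b hb σ
          rw [sum_comm]
          exact sum_eq_zero fun a ha => (hN a ha).2 b hb σ
    · intro σ
      rw [hfz σ, ← sum_erase_add _ _ (mem_powerset_self U), add_comm]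
      congr 1
      · have h1 : ∀ a ∈ U, g a σ = ∑ A ∈ U.powerset.erase U, if a ∈ A then 0 else ψ a A σ := by
          intro a ha
          rw [(hψ a ha).2 σ]
          have h2 : (U.erase a).powerset ⊆ U.powerset.erase U := by
            intro A hA
            rw [mem_powerset] at hA
            rw [mem_erase, mem_powerset]
            refine ⟨?_, hA.trans (erase_subset _ _)⟩
            rintro rfl
            exact (mem_erase.mp (hA ha)).1 rfl
          rw [← sum_subset h2]
          · apply sum_congr rfl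
            intro A hA
            rw [mem_powerset] at hA
            rw [if_neg]
            intro h3
            exact (mem_erase.mp (hA h3)).1 rfl
          · intro A hA hA'
            rw [mem_erase, mem_powerset] at hA
            rw [if_pos]
            by_contra h3
            apply hA'
            rw [mem_powerset]
            intro x hx
            exact mem_erase.mpr ⟨by rintro rfl; exact h3 hx, hA.2 hx⟩
        rw [sum_congr rfl h1, sum_comm]
        apply sum_congr rfl
        intro A hA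
        rw [mem_erase] at hA
        show _ = if A = U then z σ else ∑ a ∈ U \ A, ψ a A σ
        rw [if_neg hA.1]
        have h4 : U \ A = U.filter (fun a => ¬ a ∈ A) := by
          ext x; simp [mem_sdiff]
        rw [h4, sum_filter]
        apply sum_congr rfl
        intro a _
        by_cases h5 : a ∈ A <;> simp [h5]
      · simp

/-- partners outside `U` -/
lemma exists_partner (U : Finset α) (hU : 2 * U.card ≤ Fintype.card α) :
    ∃ ι : α → α, (∀ x, ι (ι x) = x) ∧ ∀ u ∈ U, ι u ∉ U := by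
  have h1 : Fintype.card U ≤ Fintype.card (Uᶜ : Finset α) := by
    rw [Fintype.card_coe, Fintype.card_coe, card_compl]
    omega
  obtain ⟨e⟩ := Function.Embedding.nonempty_of_card_le h1
  have he : ∀ u : U, (e u : α) ∉ U := fun u => mem_compl.mp (e u).2
  have hinj : ∀ u v : U, (e u : α) = e v → u = v := fun u v h => e.injective (Subtype.ext h)
  refine ⟨fun x => if h : x ∈ U then (e ⟨x, h⟩ : α) else
    if h' : ∃ u : U, (e u : α) = x then (h'.choose : α) else x, ?_, ?_⟩
  · intro x
    by_cases h : x ∈ U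
    · simp only [dif_pos h, dif_neg (he ⟨x, h⟩)]
      have h' : ∃ u : U, (e u : α) = e ⟨x, h⟩ := ⟨_, rfl⟩
      rw [dif_pos h', hinj _ _ h'.choose_spec]
    · by_cases h' : ∃ u : U, (e u : α) = x
      · simp only [dif_neg h, dif_pos h']
        rw [dif_pos h'.choose.2]
        exact h'.choose_spec
      · simp only [dif_neg h, dif_neg h']
  · intro u hu
    simp only [dif_pos hu]
    exact he _

section partner

variable {ι : α → α} (hι : ∀ x, ι (ι x) = x)

/-- the product of the swaps `i ↔ ι i`, `i ∈ S` -/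
def tau (hι : ∀ x, ι (ι x) = x) (S : Finset α) : Perm α :=
  Function.Involutive.toPerm (fun x => if x ∈ S ∨ ι x ∈ S then ι x else x) (by
    intro x
    beta_reduce
    by_cases h : x ∈ S ∨ ι x ∈ S
    · have h' : ι x ∈ S ∨ ι (ι x) ∈ S := by rw [hι]; exact h.symm
      rw [if_pos h, if_pos h', hι]
    · rw [if_neg h, if_neg h])

lemma tau_apply (S : Finset α) (x : α) : tau hι S x = if x ∈ S ∨ ι x ∈ S then ι x else x := rfl

lemma tau_empty : tau hι (∅ : Finset α) = 1 := by
  ext x
  simp [tau_apply]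

lemma tau_inv (S : Finset α) : (tau hι S)⁻¹ = tau hι S := rfl

lemma tau_insert {S : Finset α} {i : α} (h1 : i ∉ S) (h2 : ι i ∉ S) :
    tau hι (insert i S) = tau hι S * swap i (ι i) := by
  ext x
  rw [Perm.mul_apply, tau_apply]
  by_cases hxi : x = i
  · subst hxi
    rw [swap_apply_left, tau_apply, hι, if_neg (c := ι x ∈ S ∨ x ∈ S) (by tauto),
      if_pos (by simp)]
  · by_cases hxi' : x = ι i
    · subst hxi'
      rw [swap_apply_right, tau_apply, hι, if_neg (c := i ∈ S ∨ ι i ∈ S) (by tauto),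
        if_pos (by simp)]
    · rw [swap_apply_of_ne_of_ne hxi hxi', tau_apply]
      have h3 : ι x ≠ i := by
        rintro rfl
        exact hxi' (hι x).symm
      simp only [mem_insert, hxi, h3, false_or]

lemma tau_comm {S : Finset α} {i : α} (h1 : i ∉ S) (h2 : ι i ∉ S) :
    tau hι S * swap i (ι i) = swap i (ι i) * tau hι S := by
  ext x
  rw [Perm.mul_apply, Perm.mul_apply]
  by_cases hxi : x = i
  · subst hxi
    rw [swap_apply_left, tau_apply, tau_apply, hι, if_neg (by tauto), if_neg (by tauto),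
      swap_apply_left]
  · by_cases hxi' : x = ι i
    · subst hxi'
      rw [swap_apply_right, tau_apply, tau_apply, hι, if_neg (by tauto), if_neg (by tauto),
        swap_apply_right]
    · rw [swap_apply_of_ne_of_ne hxi hxi', tau_apply]
      split_ifs with h3
      · have h4 : ι x ≠ i := by
          rintro rfl
          exact hxi' (hι x).symm
        have h5 : ι x ≠ ι i := by
          intro h
          apply hxi
          rw [← hι x, h, hι]
        rw [swap_apply_of_ne_of_ne h4 h5]
      · rw [swap_apply_of_ne_of_ne hxi hxi']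

lemma LL_eq_of_ZZ {A : Finset α} {f : Perm α → ℝ} (hf : ZZ A f) {c d : α} (hc : c ∉ A)
    (hd : d ∉ A) : LL (swap c d) f = f := by
  funext σ
  apply hf
  rw [mem_Fx]
  intro x hx
  apply swap_apply_of_ne_of_ne
  · rintro rfl; exact hc hx
  · rintro rfl; exact hd hx

lemma sum_Fx_inv (U : Finset α) (h : Perm α → ℝ) : ∑ π ∈ Fx U, h π⁻¹ = ∑ π ∈ Fx U, h π := by
  refine sum_bij' (i := fun π _ => π⁻¹) (j := fun π _ => π⁻¹) ?_ ?_ ?_ ?_ ?_
  · intro π hπ; exact inv_mem_Fx hπ
  · intro π hπ; exact inv_mem_Fx hπ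
  · intro π _; exact inv_inv π
  · intro π _; exact inv_inv π
  · intro π _; rfl

lemma partner_aux {A : Finset α} {φ : Perm α → ℝ} (hφ : NN A φ)
    (hA : ∀ a ∈ A, ι a ∉ A) (S : Finset α) :
    S ⊆ A → ∃ C : ℝ, 0 < C ∧ ∀ ψ : Perm α → ℝ, NN A ψ →
      (-1) ^ S.card * C * ip ψ (LL (tau hι S) φ) = ∑ γ ∈ Fx Sᶜ, ip (LL γ ψ) φ := by
  induction S using Finset.induction_on with
  | empty =>
    intro _
    refine ⟨1, one_pos, fun ψ _ => ?_⟩
    have h1 : Fx (∅ᶜ : Finset α) = {1} := by
      ext π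
      rw [mem_Fx, mem_singleton]
      constructor
      · intro hπ; ext x; simpa using hπ x (by simp)
      · rintro rfl x _; rfl
    rw [h1, sum_singleton, tau_empty, LL_one, LL_one]
    simp
  | insert a S0 ha ih =>
    intro hS
    have haA : a ∈ A := hS (mem_insert_self _ _)
    have hS0 : S0 ⊆ A := (subset_insert _ _).trans hS
    obtain ⟨C0, hC0, hind⟩ := ih hS0
    have hia : ι a ∉ S0 := fun h => hA a haA (hS0 h)
    let A' : Finset α := univ.filter fun x => tau hι S0 x ∈ A
    have hA' : ∀ x, x ∈ A' ↔ tau hι S0 x ∈ A := fun x => by simp [A']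
    have hcA' : A'.card = A.card := by
      apply card_bij (fun x _ => tau hι S0 x)
      · intro x hx; exact (hA' x).1 hx
      · intro x _ y _ hxy; exact (tau hι S0).injective hxy
      · intro y hy
        refine ⟨(tau hι S0)⁻¹ y, ?_, aii _ _⟩
        rw [hA', aii]; exact hy
    have hχ : NN A' (LL (tau hι S0) φ) := NN_LL hA' hφ
    have haA' : a ∈ A' := by
      rw [hA', tau_apply, if_neg (by tauto)]; exact haA
    have hSsub : S0 ⊆ A'ᶜ := by
      intro x hx
      rw [mem_compl, hA', tau_apply, if_pos (Or.inl hx)]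
      exact hA x (hS0 hx)
    let R : Finset α := A'ᶜ \ S0
    have hR : ∀ x ∈ R, x ∉ A ∧ x ∉ A' := by
      intro x hx
      rw [mem_sdiff, mem_compl] at hx
      refine ⟨fun h => ?_, hx.1⟩
      apply hx.1
      rw [hA', tau_apply]
      split_ifs with h3
      · rcases h3 with h3 | h3
        · exact absurd h3 hx.2
        · exact hS0 h3
      · exact h
    have hiaR : ι a ∈ R := by
      rw [mem_sdiff, mem_compl, hA', tau_apply, hι, if_neg (by tauto)]
      exact ⟨hA a haA, hia⟩
    have hRcard : 0 < (R.card : ℝ) := by exact_mod_cast card_pos.mpr ⟨_, hiaR⟩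
    refine ⟨C0 * R.card, mul_pos hC0 hRcard, fun ψ hψ => ?_⟩
    -- newness
    have h1 : ∑ c ∈ insert a A'ᶜ, ip ψ (LL (swap a c) (LL (tau hι S0) φ)) = 0 := by
      rw [← ip_sum_right]
      have : (fun σ => ∑ c ∈ insert a A'ᶜ, LL (swap a c) (LL (tau hι S0) φ) σ) =
          fun _ => 0 := by
        funext σ
        exact hχ.2 a haA' σ
      rw [this, ip_comm, ip_zero_left]
    have h2 : insert a A'ᶜ = (insert a S0) ∪ R := by
      rw [insert_union, union_sdiff_of_subset hSsub]
    have h3 : Disjoint (insert a S0) R := by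
      rw [disjoint_left]
      intro x hx hxR
      rw [mem_sdiff, mem_compl] at hxR
      rcases mem_insert.mp hx with h4 | h4
      · subst h4; exact hxR.1 haA'
      · exact hxR.2 h4
    rw [h2, sum_union h3] at h1
    have h4 : ∑ c ∈ R, ip ψ (LL (swap a c) (LL (tau hι S0) φ)) =
        R.card * ip ψ (LL (tau hι (insert a S0)) φ) := by
      rw [← nsmul_eq_mul, ← sum_const]
      apply sum_congr rfl
      intro c hc
      have hc1 := hR c hc
      have hc2 := hR _ hiaR
      rw [tau_insert hι ha hia, ← LL_LL]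
      have hac : a ≠ c := by rintro rfl; exact hc1.1 haA
      have hac' : a ≠ ι a := by intro h; apply hc2.1; rw [← h]; exact haA
      have h5 : swap a c * swap c (ι a) = swap c (ι a) * swap a (ι a) := by
        rw [Equiv.mul_swap_eq_swap_mul (swap c (ι a)) a (ι a),
          swap_apply_of_ne_of_ne hac hac', swap_apply_right]
      rw [← ip_LL (swap c (ι a)) ψ, LL_eq_of_ZZ hψ.1 hc1.1 hc2.1, LL_LL, h5, ← LL_LL,
        LL_eq_of_ZZ hχ.1 hc1.2 hc2.2]
    rw [h4] at h1
    have h6 : ∀ c ∈ insert a S0, (-1) ^ S0.card * C0 *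
        ip ψ (LL (swap a c) (LL (tau hι S0) φ)) =
        ∑ γ ∈ Fx S0ᶜ, ip (LL (swap a c * γ) ψ) φ := by
      intro c hc
      have hcA : c ∈ A := hS hc
      have h7 : NN A (LL (swap a c) ψ) := by
        apply NN_LL _ hψ
        intro x
        by_cases hxa : x = a
        · subst hxa; rw [swap_apply_left]; exact ⟨fun _ => hcA, fun _ => haA⟩
        · by_cases hxc : x = c
          · subst hxc; rw [swap_apply_right]; exact ⟨fun _ => haA, fun _ => hcA⟩
          · rw [swap_apply_of_ne_of_ne hxa hxc]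
      have h8 := hind _ h7
      rw [ip_LL_left, swap_inv] at h8
      rw [h8]
      apply sum_congr rfl
      intro γ _
      rw [LL_LL]
    have h9 : ∑ c ∈ insert a S0, ∑ γ ∈ Fx S0ᶜ, ip (LL (swap a c * γ) ψ) φ =
        ∑ γ ∈ Fx (insert a S0)ᶜ, ip (LL γ ψ) φ := by
      rw [compl_insert, ← sum_Fx_inv (S0ᶜ.erase a)]
      rw [← sum_release (mem_compl.mpr ha) (fun π => ip (LL π⁻¹ ψ) φ), compl_compl]
      apply sum_congr rfl
      intro c _
      rw [← sum_Fx_inv S0ᶜ]
      apply sum_congr rfl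
      intro γ _
      rw [mul_inv_rev, swap_inv]
    rw [← h9, ← sum_congr rfl h6, ← mul_sum, card_insert_of_notMem ha, pow_succ]
    have h10 : ∑ c ∈ insert a S0, ip ψ (LL (swap a c) (LL (tau hι S0) φ)) =
        -(R.card * ip ψ (LL (tau hι (insert a S0)) φ)) := by linarith
    rw [h10]
    ring

lemma ip_group_nonneg (B : Finset α) (φ : Perm α → ℝ) : 0 ≤ ∑ γ ∈ Fx B, ip (LL γ φ) φ := by
  set s : Perm α → ℝ := fun σ => ∑ γ ∈ Fx B, LL γ φ σ with hs
  have h1 : ∑ γ ∈ Fx B, ip (LL γ φ) φ = ip s φ := (ip_sum_left _ _ _).symm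
  have h2 : ∀ δ ∈ Fx B, LL δ s = s := by
    intro δ hδ
    funext σ
    show ∑ γ ∈ Fx B, φ (γ * (δ * σ)) = ∑ γ ∈ Fx B, φ (γ * σ)
    apply sum_bij' (fun γ _ => γ * δ) (fun γ _ => γ * δ⁻¹)
    · intro π hπ; exact mul_mem_Fx hπ hδ
    · intro π hπ; exact mul_mem_Fx hπ (inv_mem_Fx hδ)
    · intro π _; simp
    · intro π _; simp
    · intro π _; rw [mul_assoc]
  have h3 : ip s s = (Fx B).card * ip s φ := by
    calc ip s s = ∑ δ ∈ Fx B, ip s (LL δ φ) := by
          conv_lhs => rw [hs]
          rw [ip_sum_right]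
      _ = ∑ δ ∈ Fx B, ip s φ := by
          apply sum_congr rfl
          intro δ hδ
          rw [ip_comm, ip_LL_left, h2 _ (inv_mem_Fx hδ), ip_comm]
      _ = _ := by rw [sum_const, nsmul_eq_mul]
  have h4 : 0 < ((Fx B).card : ℝ) := by exact_mod_cast Fx_card_pos B
  rw [h1]
  by_contra h5
  rw [not_le] at h5
  have := ip_self_nonneg s
  rw [h3] at this
  nlinarith

/-- (A5), the sign of the partner terms -/
lemma partner_nonneg {A : Finset α} {φ : Perm α → ℝ} (hφ : NN A φ)
    (hA : ∀ a ∈ A, ι a ∉ A) {S : Finset α} (hS : S ⊆ A) :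
    0 ≤ (-1) ^ S.card * ip φ (LL (tau hι S) φ) := by
  obtain ⟨C, hC, h⟩ := partner_aux hι hφ hA S hS
  have h1 := h φ hφ
  have h2 := ip_group_nonneg Sᶜ φ
  rw [← h1] at h2
  by_contra h3
  rw [not_le] at h3
  have h4 : (-1) ^ S.card * C * ip φ (LL (tau hι S) φ) =
    C * ((-1) ^ S.card * ip φ (LL (tau hι S) φ)) := by ring
  rw [h4] at h2
  nlinarith

/-- the antisymmetrisation of `g` -/
noncomputable def QQ (hι : ∀ x, ι (ι x) = x) (B : Finset α) (g : Perm α → ℝ) : Perm α → ℝ :=
  fun σ => (1 / 2 : ℝ) ^ B.card * ∑ S ∈ B.powerset, (-1) ^ S.card * LL (tau hι S) g σ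

lemma ip_QQ (B : Finset α) (g h : Perm α → ℝ) : ip h (QQ hι B g) =
    (1 / 2 : ℝ) ^ B.card * ∑ S ∈ B.powerset, (-1) ^ S.card * ip h (LL (tau hι S) g) := by
  unfold QQ
  rw [ip_mul_right, ip_sum_right]
  congr 1
  apply sum_congr rfl
  intro S _
  rw [ip_mul_right]

lemma QQ_anti {B : Finset α} (g : Perm α → ℝ) {i : α} (hi : i ∈ B) (hi' : ι i ∉ B)
    (σ : Perm α) : QQ hι B g (swap i (ι i) * σ) = - QQ hι B g σ := by
  unfold QQ
  rw [← mul_neg]
  congr 1
  have hB : B = insert i (B.erase i) := (insert_erase hi).symm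
  have key : ∀ τ : Perm α, ∑ S ∈ B.powerset, (-1 : ℝ) ^ S.card * LL (tau hι S) g τ =
      ∑ S ∈ (B.erase i).powerset, (-1 : ℝ) ^ S.card *
        (LL (tau hι S) g τ - LL (tau hι S) g (swap i (ι i) * τ)) := by
    intro τ
    conv_lhs => rw [hB]
    rw [sum_powerset_insert (notMem_erase i B), ← sum_add_distrib]
    apply sum_congr rfl
    intro S hS
    rw [mem_powerset] at hS
    have h1 : i ∉ S := fun h => (mem_erase.mp (hS h)).1 rfl
    have h2 : ι i ∉ S := fun h => hi' (mem_erase.mp (hS h)).2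
    rw [card_insert_of_notMem h1, tau_insert hι h1 h2, pow_succ]
    simp only [LL_apply, mul_assoc]
    ring
  rw [key, key, ← sum_neg_distrib]
  apply sum_congr rfl
  intro S _
  have h3 : swap i (ι i) * (swap i (ι i) * σ) = σ := by
    rw [← mul_assoc, swap_mul_self, one_mul]
  rw [h3]
  ring

lemma QQ_symm {B : Finset α} (g : Perm α → ℝ) {i : α} (hi : i ∉ B) (hi' : ι i ∉ B)
    (hg : ∀ σ, g (swap i (ι i) * σ) = g σ) (σ : Perm α) :
    QQ hι B g (swap i (ι i) * σ) = QQ hι B g σ := by
  unfold QQ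
  congr 1
  apply sum_congr rfl
  intro S hS
  rw [mem_powerset] at hS
  congr 1
  rw [LL_apply, LL_apply, ← mul_assoc, tau_comm hι (fun h => hi (hS h)) (fun h => hi' (hS h)),
    mul_assoc, hg]

lemma ip_anti_symm {f g : Perm α → ℝ} {τ : Perm α} (hf : ∀ σ, f (τ * σ) = - f σ)
    (hg : ∀ σ, g (τ * σ) = g σ) : ip f g = 0 := by
  have h1 := ip_LL τ f g
  have h2 : LL τ g = g := funext hg
  have h3 : LL τ f = fun σ => (-1) * f σ := by
    funext σ
    rw [LL_apply, hf]; ring
  rw [h2, h3, ip_mul_left] at h1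
  linarith

lemma LL_tau_QQ {B : Finset α} (hB : ∀ b ∈ B, ι b ∉ B) (g : Perm α → ℝ) (S : Finset α) :
    S ⊆ B → ∀ σ, LL (tau hι S) (QQ hι B g) σ = (-1) ^ S.card * QQ hι B g σ := by
  induction S using Finset.induction_on with
  | empty =>
    intro _ σ
    rw [tau_empty, LL_one]; simp
  | insert a S0 ha ih =>
    intro hS σ
    have haB : a ∈ B := hS (mem_insert_self _ _)
    have hS0 : S0 ⊆ B := (subset_insert _ _).trans hS
    have hia : ι a ∉ S0 := fun h => hB a haB (hS0 h)
    rw [tau_insert hι ha hia, LL_apply, mul_assoc]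
    have h1 := ih hS0 (swap a (ι a) * σ)
    rw [LL_apply] at h1
    rw [h1, QQ_anti hι g haB (hB a haB), card_insert_of_notMem ha]
    ring

lemma ip_QQ_self {B : Finset α} (hB : ∀ b ∈ B, ι b ∉ B) (g : Perm α → ℝ) :
    ip (QQ hι B g) (QQ hι B g) = ip g (QQ hι B g) := by
  rw [ip_QQ hι B g (QQ hι B g)]
  have h1 : ∀ S ∈ B.powerset, (-1 : ℝ) ^ S.card * ip (QQ hι B g) (LL (tau hι S) g) =
      ip g (QQ hι B g) := by
    intro S hS
    rw [mem_powerset] at hS
    rw [ip_comm, ip_LL_left, tau_inv]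
    have h2 : LL (tau hι S) (QQ hι B g) = fun σ => (-1) ^ S.card * QQ hι B g σ :=
      funext (LL_tau_QQ hι hB g S hS)
    rw [h2, ip_mul_right, ← mul_assoc, ← mul_pow]
    simp
  rw [sum_congr rfl h1, sum_const, card_powerset, nsmul_eq_mul]
  push_cast
  rw [← mul_assoc, ← mul_pow]
  norm_num

lemma exists_tau_NN {B : Finset α} {g : Perm α → ℝ} (hg : NN B g) (S : Finset α) :
    ∃ B' : Finset α, B'.card = B.card ∧ NN B' (LL (tau hι S) g) := by
  let A' : Finset α := univ.filter fun x => tau hι S x ∈ B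
  have hA' : ∀ x, x ∈ A' ↔ tau hι S x ∈ B := fun x => by simp [A']
  have hcA' : A'.card = B.card := by
    apply card_bij (fun x _ => tau hι S x)
    · intro x hx; exact (hA' x).1 hx
    · intro x _ y _ hxy; exact (tau hι S).injective hxy
    · intro y hy
      refine ⟨(tau hι S)⁻¹ y, ?_, aii _ _⟩
      rw [hA', aii]; exact hy
  exact ⟨A', hcA', NN_LL hA' hg⟩

lemma ip_QQ_lower {B : Finset α} {g : Perm α → ℝ} (hg : NN B g) (hB : ∀ b ∈ B, ι b ∉ B) :
    (1 / 2 : ℝ) ^ B.card * ip g g ≤ ip g (QQ hι B g) := by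
  rw [ip_QQ]
  apply mul_le_mul_of_nonneg_left _ (by positivity)
  have h1 := single_le_sum (f := fun S => (-1 : ℝ) ^ S.card * ip g (LL (tau hι S) g))
    (s := B.powerset) (fun S hS => partner_nonneg hι hg hB (mem_powerset.mp hS))
    (empty_mem_powerset B)
  simpa [tau_empty, LL_one] using h1

end partner

end RZ

open RZ

/-- (W1) -/
theorem riesz {α : Type*} [Fintype α] [DecidableEq α] (U : Finset α)
    (hU : 2 * U.card ≤ Fintype.card α) (f : Perm α → ℝ) (hf : ZZ U f) :
    ∃ φ : Finset α → Perm α → ℝ, (∀ A, A ⊆ U → NN A (φ A)) ∧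
      (∀ σ, f σ = ∑ A ∈ U.powerset, φ A σ) ∧
      ∑ A ∈ U.powerset, (1 / 2 : ℝ) ^ A.card * ip (φ A) (φ A) ≤ ip f f := by
  obtain ⟨φ, hφ, hsum⟩ := exists_dec _ U rfl f hf
  refine ⟨φ, hφ, hsum, ?_⟩
  obtain ⟨ι, hι, hιU⟩ := exists_partner U hU
  have hιA : ∀ A ∈ U.powerset, ∀ a ∈ A, ι a ∉ A := by
    intro A hA a ha h
    exact hιU a (mem_powerset.mp hA ha) (mem_powerset.mp hA h)
  have hN : ∀ A ∈ U.powerset, NN A (φ A) := fun A hA => hφ A (mem_powerset.mp hA)
  have hsymm : ∀ A ∈ U.powerset, ∀ i ∈ U, i ∉ A → ∀ σ, φ A (swap i (ι i) * σ) = φ A σ := by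
    intro A hA i hi hiA σ
    have h1 : ι i ∉ A := fun h => hιU i hi (mem_powerset.mp hA h)
    exact congrFun (LL_eq_of_ZZ (hN A hA).1 hiA h1) σ
  -- the pieces are orthogonal
  have hdiff : ∀ A ∈ U.powerset, ∀ B ∈ U.powerset, A ≠ B → A.card = B.card →
      ∃ i ∈ U, i ∈ B ∧ i ∉ A := by
    intro A _ B hB hAB hc
    by_contra h
    push Not at h
    apply hAB
    symm
    apply eq_of_subset_of_card_le _ hc.le
    intro i hi
    exact h i (mem_powerset.mp hB hi) hi
  have hpq : ∀ A ∈ U.powerset, ∀ B ∈ U.powerset, A ≠ B →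
      ip (φ A) (QQ hι B (φ B)) = 0 := by
    intro A hA B hB hAB
    by_cases hc : A.card = B.card
    · obtain ⟨i, hiU, hiB, hiA⟩ := hdiff A hA B hB hAB hc
      rw [ip_comm]
      exact ip_anti_symm (QQ_anti hι (φ B) hiB (hιA B hB i hiB)) (hsymm A hA i hiU hiA)
    · rw [ip_QQ]
      apply mul_eq_zero_of_right
      apply sum_eq_zero
      intro S _
      obtain ⟨B', hB', hN'⟩ := exists_tau_NN hι (hN B hB) S
      rw [NN_orth' (by rw [hB']; exact hc) (hN A hA) hN', mul_zero]
  have hqq : ∀ A ∈ U.powerset, ∀ B ∈ U.powerset, A ≠ B →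
      ip (QQ hι A (φ A)) (QQ hι B (φ B)) = 0 := by
    intro A hA B hB hAB
    by_cases hc : A.card = B.card
    · obtain ⟨i, hiU, hiB, hiA⟩ := hdiff A hA B hB hAB hc
      rw [ip_comm]
      exact ip_anti_symm (QQ_anti hι (φ B) hiB (hιA B hB i hiB))
        (QQ_symm hι (φ A) hiA (fun h => hιU i hiU (mem_powerset.mp hA h))
          (hsymm A hA i hiU hiA))
    · rw [ip_QQ]
      apply mul_eq_zero_of_right
      apply sum_eq_zero
      intro S _
      obtain ⟨B', hB', hN'⟩ := exists_tau_NN hι (hN B hB) S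
      rw [ip_comm, ip_QQ]
      apply mul_eq_zero_of_right
      apply mul_eq_zero_of_right
      apply sum_eq_zero
      intro S' _
      obtain ⟨A', hA', hN''⟩ := exists_tau_NN hι (hN A hA) S'
      rw [NN_orth' (by rw [hB', hA']; exact fun h => hc h.symm) hN' hN'', mul_zero]
  have hf' : f = fun σ => ∑ A ∈ U.powerset, φ A σ := funext hsum
  -- the projection
  let G : Perm α → ℝ := fun σ => ∑ B ∈ U.powerset, QQ hι B (φ B) σ
  have hfG : ip f G = ∑ B ∈ U.powerset, ip (φ B) (QQ hι B (φ B)) := by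
    rw [ip_sum_right]
    apply sum_congr rfl
    intro B hB
    rw [hf', ip_sum_left]
    rw [sum_eq_single_of_mem B hB]
    intro A hA hAB
    exact hpq A hA B hB hAB
  have hGG : ip G G = ∑ B ∈ U.powerset, ip (φ B) (QQ hι B (φ B)) := by
    rw [ip_sum_right]
    apply sum_congr rfl
    intro B hB
    rw [ip_sum_left, sum_eq_single_of_mem B hB]
    · exact ip_QQ_self hι (hιA B hB) (φ B)
    · intro A hA hAB
      exact hqq A hA B hB hAB
  have hpos : 0 ≤ ip (fun σ => f σ - G σ) (fun σ => f σ - G σ) := ip_self_nonneg _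
  have hexp : ip (fun σ => f σ - G σ) (fun σ => f σ - G σ) = ip f f - 2 * ip f G + ip G G := by
    unfold ip
    rw [mul_sum, ← sum_sub_distrib, ← sum_add_distrib]
    apply sum_congr rfl
    intro σ _
    ring
  rw [hexp, hfG, hGG] at hpos
  calc ∑ A ∈ U.powerset, (1 / 2 : ℝ) ^ A.card * ip (φ A) (φ A)
      ≤ ∑ A ∈ U.powerset, ip (φ A) (QQ hι A (φ A)) :=
        sum_le_sum fun A hA => ip_QQ_lower hι (hN A hA) (hιA A hA)
    _ ≤ ip f f := by linarith

end Pool.Agent.H9.Cut
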