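import Mathlib
import Pool.Agent.H9.Cut.Defs

/-!
# The spectral comparison with a lazy walk (module W4 of MP_55bcd1_pr)
-/

namespace Pool.Agent.H9.Cut

open Equiv Finset Pool.Agent.H79.Cut

/-- an orthonormal system of eigenfunctions, in coordinates -/
lemma exists_coords {ι : Type*} [Fintype ι] (T : (ι → ℝ) →ₗ[ℝ] (ι → ℝ))
    (hsym : ∀ f g : ι → ℝ, ∑ x, T f x * g x = ∑ x, f x * T g x) :
    ∃ (N : ℕ) (b : Fin N → ι → ℝ) (μ : Fin N → ℝ), (∀ i, T (b i) = μ i • b i) ∧
      (∀ i, ∑ x, b i x ^ 2 = 1) ∧ ∀ f : ι → ℝ, ∑ x, f x ^ 2 = ∑ i, (∑ x, b i x * f x) ^ 2 := by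
  classical
  let e := WithLp.linearEquiv 2 ℝ (ι → ℝ)
  let T' : EuclideanSpace ℝ ι →ₗ[ℝ] EuclideanSpace ℝ ι := e.symm.toLinearMap ∘ₗ T ∘ₗ e.toLinearMap
  have hT : T'.IsSymmetric := by
    intro x y
    have h := hsym (e x) (e y)
    simp only [PiLp.inner_apply, RCLike.inner_apply, conj_trivial]
    have h1 : ∀ i, T' x i = T (e x) i := fun i => rfl
    have h2 : ∀ i, T' y i = T (e y) i := fun i => rfl
    have h3 : ∀ i, e x i = x i := fun i => rfl
    have h4 : ∀ i, e y i = y i := fun i => rfl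
    simp only [h1, h2]
    simp only [h3, h4] at h
    calc ∑ i, y i * T (e x) i = ∑ i, T (e x) i * y i := by
          apply Finset.sum_congr rfl; intro i _; ring
      _ = ∑ i, x i * T (e y) i := h
      _ = _ := by apply Finset.sum_congr rfl; intro i _; ring
  let b := hT.eigenvectorBasis (n := Module.finrank ℝ (EuclideanSpace ℝ ι)) rfl
  refine ⟨_, fun i x => b i x, hT.eigenvalues rfl, ?_, ?_, ?_⟩
  · intro i
    have h := hT.apply_eigenvectorBasis rfl i
    ext x
    exact congrArg (fun v : EuclideanSpace ℝ ι => v x) h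
  · intro i
    have h : ‖b i‖ ^ 2 = 1 := by
      rw [b.orthonormal.1 i]; norm_num
    rw [EuclideanSpace.real_norm_sq_eq] at h
    exact h
  · intro f
    have h := b.sum_sq_norm_inner_right (e.symm f)
    rw [EuclideanSpace.real_norm_sq_eq] at h
    have h1 : ∀ i, e.symm f i = f i := fun i => rfl
    simp only [h1] at h
    rw [← h]
    apply Finset.sum_congr rfl
    intro i _
    rw [Real.norm_eq_abs, sq_abs]
    congr 1
    simp only [PiLp.inner_apply, RCLike.inner_apply, conj_trivial, h1]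
    apply Finset.sum_congr rfl
    intro x _
    ring

/-- (W4) -/
theorem spectral {ι : Type*} [Fintype ι] (T : (ι → ℝ) →ₗ[ℝ] (ι → ℝ))
    (hsym : ∀ f g : ι → ℝ, ∑ x, T f x * g x = ∑ x, f x * T g x)
    (hle : ∀ f : ι → ℝ, ∑ x, f x * T f x ≤ ∑ x, f x ^ 2)
    {c : ℝ} (hc0 : 0 ≤ c) (hge : ∀ f : ι → ℝ, -c * ∑ x, f x ^ 2 ≤ ∑ x, f x * T f x)
    (M : ℕ) (hM : 1 ≤ M) (t : ℕ) (g : ι → ℝ) :
    ∑ x, ((⇑T)^[t] g x) ^ 2 ≤ ∑ x, ((lz M ⇑T)^[M * t] g x) ^ 2 + c ^ (2 * t) * ∑ x, g x ^ 2 := by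
  obtain ⟨N, b, μ, hTb, hb1, hP⟩ := exists_coords T hsym
  have hM0 : (0 : ℝ) < M := by exact_mod_cast hM
  have hcoT : ∀ i (f : ι → ℝ), ∑ x, b i x * T f x = μ i * ∑ x, b i x * f x := by
    intro i f
    rw [← hsym (b i) f, hTb i, Finset.mul_sum]
    apply Finset.sum_congr rfl
    intro x _
    simp only [Pi.smul_apply, smul_eq_mul]
    ring
  have hcoTt : ∀ i (s : ℕ) (f : ι → ℝ), ∑ x, b i x * (⇑T)^[s] f x = μ i ^ s * ∑ x, b i x * f x := by
    intro i s f
    induction s with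
    | zero => simp
    | succ s ih =>
      rw [Function.iterate_succ_apply', hcoT, ih, pow_succ]
      ring
  have hcoL : ∀ i (f : ι → ℝ), ∑ x, b i x * lz M T f x =
      (1 - 1 / M + 1 / M * μ i) * ∑ x, b i x * f x := by
    intro i f
    have h := hcoT i f
    unfold lz
    calc ∑ x, b i x * ((1 - 1 / (M : ℝ)) * f x + 1 / (M : ℝ) * T f x)
        = (1 - 1 / (M : ℝ)) * ∑ x, b i x * f x + 1 / (M : ℝ) * ∑ x, b i x * T f x := by
          rw [Finset.mul_sum, Finset.mul_sum, ← Finset.sum_add_distrib]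
          apply Finset.sum_congr rfl
          intro x _
          ring
      _ = _ := by rw [h]; ring
  have hcoLt : ∀ i (s : ℕ) (f : ι → ℝ), ∑ x, b i x * (lz M ⇑T)^[s] f x =
      (1 - 1 / M + 1 / M * μ i) ^ s * ∑ x, b i x * f x := by
    intro i s f
    induction s with
    | zero => simp
    | succ s ih =>
      rw [Function.iterate_succ_apply', hcoL, ih, pow_succ]
      ring
  have hμ : ∀ i, -c ≤ μ i ∧ μ i ≤ 1 := by
    intro i
    have e : ∑ x, b i x * T (b i) x = μ i := by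
      rw [hcoT]
      have : ∑ x, b i x * b i x = 1 := by
        rw [← hb1 i]
        apply Finset.sum_congr rfl
        intro x _
        ring
      rw [this, mul_one]
    have h1 := hle (b i)
    have h2 := hge (b i)
    rw [e, hb1] at h1 h2
    exact ⟨by linarith, h1⟩
  rw [hP ((⇑T)^[t] g), hP ((lz M ⇑T)^[M * t] g), hP g, Finset.mul_sum, ← Finset.sum_add_distrib]
  apply Finset.sum_le_sum
  intro i _
  rw [hcoTt, hcoLt, mul_pow, mul_pow, ← add_mul]
  apply mul_le_mul_of_nonneg_right _ (sq_nonneg _)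
  rw [← pow_mul, ← pow_mul]
  obtain ⟨h1, h2⟩ := hμ i
  rcases le_or_gt 0 (μ i) with h | h
  · have hB : μ i ≤ (1 - 1 / M + 1 / M * μ i) ^ M := by
      have := one_add_mul_le_pow (a := -((1 - μ i) / M)) (by
        have : (1 - μ i) / M ≤ 1 := by
          rw [div_le_one hM0]
          have : (1 : ℝ) ≤ M := by exact_mod_cast hM
          linarith
        linarith) M
      calc μ i = 1 + M * (-((1 - μ i) / M)) := by field_simp; ring
        _ ≤ _ := this
        _ = _ := by congr 1; ring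
    have hpow : μ i ^ (t * 2) ≤ (1 - 1 / M + 1 / M * μ i) ^ (M * t * 2) := by
      rw [mul_assoc M t 2, pow_mul _ M]
      exact pow_le_pow_left₀ h hB _
    have : 0 ≤ c ^ (2 * t) := pow_nonneg hc0 _
    linarith
  · have hpow : μ i ^ (t * 2) ≤ c ^ (2 * t) := by
      rw [mul_comm t 2, pow_mul, pow_mul]
      apply pow_le_pow_left₀ (sq_nonneg _)
      nlinarith
    have : 0 ≤ (1 - 1 / M + 1 / M * μ i) ^ (M * t * 2) := by
      rw [mul_comm (M * t) 2, pow_mul]
      positivity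
    linarith

end Pool.Agent.H9.Cut
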