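import Mathlib
import Pool.Agent.H9.Cut.Dom
import Pool.Agent.H9.Cut.Spec
import Pool.Agent.H9.Cut.Prod
import Pool.Agent.H9.Cut.Riesz

/-!
# The `L²` distance after a start with the cards of `V` at home
-/

namespace Pool.Agent.H9.Cut

open Equiv Finset Pool.Agent.H79.Cut

variable {n k : ℕ} [NeZero n]

/-- the walk operator as a linear map -/
noncomputable def Kl (n k : ℕ) [NeZero n] : (Perm (Fin n) → ℝ) →ₗ[ℝ] (Perm (Fin n) → ℝ) where
  toFun := K n k
  map_add' f g := by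
    funext σ
    simp only [K, Pi.add_apply, sum_add_distrib]
    ring
  map_smul' c f := by
    funext σ
    simp only [K, Pi.smul_apply, smul_eq_mul, ← mul_sum, RingHom.id_apply]
    ring

lemma exists_linK (M : ℕ) (s : ℕ) :
    ∃ L : (Perm (Fin n) → ℝ) →ₗ[ℝ] (Perm (Fin n) → ℝ),
      ∀ f, L f = (lz M (K n k))^[s] f := by
  induction s with
  | zero => exact ⟨LinearMap.id, fun f => rfl⟩
  | succ s ih =>
    obtain ⟨L, hL⟩ := ih
    refine ⟨L ∘ₗ ((1 - 1 / (M : ℝ)) • LinearMap.id + (1 / (M : ℝ)) • Kl n k), fun f => ?_⟩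
    rw [Function.iterate_succ_apply, LinearMap.comp_apply, hL]
    rfl

lemma ip_shift (f g : Perm (Fin n) → ℝ) (i : Fin n) :
    ∑ σ, f (σ * gl n k i) * g σ = ∑ σ, f σ * g (σ * gl n k i) := by
  refine Fintype.sum_equiv (Equiv.mulRight (gl n k i)) _ _ ?_
  intro σ
  simp only [Equiv.coe_mulRight]
  rw [mul_assoc, gl_sq, mul_one]

lemma ip_K (f g : Perm (Fin n) → ℝ) : ip (K n k f) g = ip f (K n k g) := by
  unfold ip K
  have e1 : ∑ σ, (∑ i, f (σ * gl n k i)) / (n : ℝ) * g σ =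
      (∑ i, ∑ σ, f (σ * gl n k i) * g σ) / n := by
    rw [sum_comm, sum_div]
    apply sum_congr rfl; intro σ _
    rw [← sum_mul]; ring
  have e2 : ∑ σ, f σ * ((∑ i, g (σ * gl n k i)) / (n : ℝ)) =
      (∑ i, ∑ σ, f σ * g (σ * gl n k i)) / n := by
    rw [sum_comm, sum_div]
    apply sum_congr rfl; intro σ _
    rw [← mul_sum]; ring
  rw [e1, e2]
  congr 1
  exact sum_congr rfl fun i _ => ip_shift f g i

lemma ipcomm (f g : Perm (Fin n) → ℝ) : ip f g = ip g f := by
  unfold ip; apply sum_congr rfl; intro σ _; ring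

lemma ip_lz (M : ℕ) (f g : Perm (Fin n) → ℝ) :
    ip (lz M (K n k) f) g = ip f (lz M (K n k) g) := by
  have h := ip_K (k := k) f g
  have e1 : ip (lz M (K n k) f) g = (1 - 1 / (M : ℝ)) * ip f g + 1 / (M : ℝ) * ip (K n k f) g := by
    unfold ip lz
    rw [mul_sum, mul_sum, ← sum_add_distrib]
    apply sum_congr rfl; intro σ _; ring
  have e2 : ip f (lz M (K n k) g) = (1 - 1 / (M : ℝ)) * ip f g + 1 / (M : ℝ) * ip f (K n k g) := by
    unfold ip lz
    rw [mul_sum, mul_sum, ← sum_add_distrib]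
    apply sum_congr rfl; intro σ _; ring
  rw [e1, e2, h]

lemma ip_it {T : (Perm (Fin n) → ℝ) → (Perm (Fin n) → ℝ)}
    (hT : ∀ f g, ip (T f) g = ip f (T g)) (s : ℕ) :
    ∀ f g, ip (T^[s] f) g = ip f (T^[s] g) := by
  induction s with
  | zero => intro f g; rfl
  | succ s ih =>
    intro f g
    rw [Function.iterate_succ_apply, ih, hT, ← Function.iterate_succ_apply' T]

lemma K_one : K n k (fun _ => 1) = fun _ => 1 := by
  funext σ
  unfold K
  simp only [sum_const, card_univ, Fintype.card_fin, nsmul_eq_mul, mul_one]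
  exact div_self (npos (n := n)).ne'

lemma K_one_it (s : ℕ) : (K n k)^[s] (fun _ => 1) = fun _ => 1 := by
  induction s with
  | zero => rfl
  | succ s ih => rw [Function.iterate_succ_apply, K_one, ih]

lemma lzK_one_it (M s : ℕ) : (lz M (K n k))^[s] (fun _ => 1) = fun _ => 1 := by
  induction s with
  | zero => rfl
  | succ s ih =>
    rw [Function.iterate_succ_apply]
    have : lz M (K n k) (fun _ => 1) = fun _ => 1 := by
      funext σ
      unfold lz
      rw [K_one]; ring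
    rw [this, ih]

lemma ip_K_le (f : Perm (Fin n) → ℝ) : ip f (K n k f) ≤ ip f f := by
  have hn := npos (n := n)
  have h1 : ∀ i : Fin n, ∑ σ, f σ * f (σ * gl n k i) ≤ ip f f := by
    intro i
    have h2 : ∑ σ, f (σ * gl n k i) * f (σ * gl n k i) = ip f f := by
      unfold ip
      exact Fintype.sum_equiv (Equiv.mulRight (gl n k i)) _ _ (fun σ => rfl)
    have h3 : ∑ σ, f σ * f (σ * gl n k i) ≤
        ∑ σ, (f σ * f σ + f (σ * gl n k i) * f (σ * gl n k i)) / 2 := by
      apply sum_le_sum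
      intro σ _
      nlinarith [sq_nonneg (f σ - f (σ * gl n k i))]
    rw [← sum_div, sum_add_distrib, h2] at h3
    unfold ip at *
    linarith
  unfold ip K
  have e2 : ∑ σ, f σ * ((∑ i, f (σ * gl n k i)) / (n : ℝ)) =
      (∑ i, ∑ σ, f σ * f (σ * gl n k i)) / n := by
    rw [sum_comm, sum_div]
    apply sum_congr rfl; intro σ _
    rw [← mul_sum]; ring
  rw [e2, div_le_iff₀ hn]
  calc ∑ i : Fin n, ∑ σ, f σ * f (σ * gl n k i) ≤ ∑ i : Fin n, ip f f := sum_le_sum fun i _ => h1 i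
    _ = _ := by simp [ip, mul_comm]

lemma ip_K_ge (hk : k < n) (f : Perm (Fin n) → ℝ) :
    -(1 - 2 / (n : ℝ)) * ip f f ≤ ip f (K n k f) := by
  have hn := npos (n := n)
  have h1 : ∀ i : Fin n, -ip f f ≤ ∑ σ, f σ * f (σ * gl n k i) := by
    intro i
    have h2 : ∑ σ, f (σ * gl n k i) * f (σ * gl n k i) = ip f f := by
      unfold ip
      exact Fintype.sum_equiv (Equiv.mulRight (gl n k i)) _ _ (fun σ => rfl)
    have h3 : ∑ σ, -((f σ * f σ + f (σ * gl n k i) * f (σ * gl n k i)) / 2) ≤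
        ∑ σ, f σ * f (σ * gl n k i) := by
      apply sum_le_sum
      intro σ _
      nlinarith [sq_nonneg (f σ + f (σ * gl n k i))]
    rw [sum_neg_distrib, ← sum_div, sum_add_distrib, h2] at h3
    unfold ip at *
    linarith
  have e2 : ip f (K n k f) = (∑ i, ∑ σ, f σ * f (σ * gl n k i)) / n := by
    unfold ip K
    rw [sum_comm, sum_div]
    apply sum_congr rfl; intro σ _
    rw [← mul_sum]; ring
  have h0 : ∑ σ, f σ * f (σ * gl n k 0) = ip f f := by
    rw [gl_zero hk]; simp [ip]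
  rw [e2, le_div_iff₀ hn, ← sum_erase_add _ _ (mem_univ (0 : Fin n)), h0]
  have h3 : ∑ i ∈ univ.erase (0 : Fin n), -ip f f ≤
      ∑ i ∈ univ.erase (0 : Fin n), ∑ σ, f σ * f (σ * gl n k i) := sum_le_sum fun i _ => h1 i
  rw [sum_const, card_erase_of_mem (mem_univ _), card_univ, Fintype.card_fin, nsmul_eq_mul,
    Nat.cast_sub (by omega)] at h3
  have h4 : -(1 - 2 / (n : ℝ)) * ip f f * n = -(n - 2) * ip f f := by field_simp
  rw [h4]
  push_cast at h3
  linarith

lemma ZZ_lz (M : ℕ) {A : Finset (Fin n)} {f : Perm (Fin n) → ℝ} (hf : ZZ A f) :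
    ZZ A (lz M (K n k) f) := by
  intro τ hτ σ
  unfold lz K
  rw [hf τ hτ σ]
  congr 3
  apply sum_congr rfl
  intro i _
  rw [mul_assoc, hf τ hτ]

lemma ZZ_lz_it (M : ℕ) {A : Finset (Fin n)} (s : ℕ) : ∀ {f : Perm (Fin n) → ℝ}, ZZ A f →
    ZZ A ((lz M (K n k))^[s] f) := by
  induction s with
  | zero => intro f hf; exact hf
  | succ s ih => intro f hf; rw [Function.iterate_succ_apply]; exact ih (ZZ_lz M hf)

/-- new functions of at least one card have mean zero -/
lemma sum_new {A : Finset (Fin n)} (hA : A.Nonempty) {f : Perm (Fin n) → ℝ} (hf : NN A f) :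
    ∑ σ, f σ = 0 := by
  obtain ⟨a, ha⟩ := hA
  have h1 : ∑ σ, ∑ c ∈ insert a Aᶜ, f (swap a c * σ) = 0 :=
    sum_eq_zero fun σ _ => hf.2 a ha σ
  rw [sum_comm] at h1
  have h2 : ∀ c : Fin n, ∑ σ, f (swap a c * σ) = ∑ σ, f σ := by
    intro c
    exact Fintype.sum_equiv (Equiv.mulLeft (swap a c)) _ _ (fun σ => rfl)
  rw [sum_congr rfl fun c _ => h2 c, sum_const, nsmul_eq_mul] at h1
  rcases mul_eq_zero.mp h1 with h3 | h3
  · have : (0:ℝ) < (insert a Aᶜ).card := by
      exact_mod_cast card_pos.mpr ⟨a, mem_insert_self _ _⟩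
    linarith
  · exact h3

/-- the density of the start with the cards of `V` at home, minus 1 -/
noncomputable def gV (V : Finset (Fin n)) : Perm (Fin n) → ℝ := fun σ =>
  (if σ ∈ Fx V then (Fintype.card (Perm (Fin n)) : ℝ) / (Fx V).card else 0) - 1

lemma ZZ_gV (V : Finset (Fin n)) : ZZ V (gV V) := by
  intro τ hτ σ
  unfold gV
  have : τ * σ ∈ Fx V ↔ σ ∈ Fx V := by
    constructor
    · intro h
      have := mul_mem_Fx (inv_mem_Fx hτ) h
      simpa using this
    · intro h; exact mul_mem_Fx hτ h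
  simp only [this]

lemma ip_gV (V : Finset (Fin n)) (f : Perm (Fin n) → ℝ) :
    ip (gV V) f = Fintype.card (Perm (Fin n)) * (avg V f - avg ∅ f) := by
  have hV : (0:ℝ) < (Fx V).card := by exact_mod_cast Fx_card_pos V
  have hc : (0:ℝ) < Fintype.card (Perm (Fin n)) := by exact_mod_cast Fintype.card_pos
  rw [avg_empty]
  unfold ip gV avg
  simp only [sub_mul, one_mul, ite_mul, zero_mul]
  rw [sum_sub_distrib, ← sum_filter, filter_mem_eq_inter, univ_inter, ← mul_sum]
  field_simp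

lemma avg_ZZ {V : Finset (Fin n)} {f : Perm (Fin n) → ℝ} (hf : ZZ V f) : avg V f = f 1 := by
  have hV : (0:ℝ) < (Fx V).card := by exact_mod_cast Fx_card_pos V
  unfold avg
  have : ∀ π ∈ Fx V, f π = f 1 := by
    intro π hπ
    have := hf π hπ 1
    rwa [mul_one] at this
  rw [sum_congr rfl this, sum_const, nsmul_eq_mul]
  field_simp

lemma avg_empty_ip (f : Perm (Fin n) → ℝ) :
    avg ∅ f = ip (fun _ => 1) f / Fintype.card (Perm (Fin n)) := by
  rw [avg_empty]; unfold ip; simp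

lemma avg_lzK_it (M s : ℕ) (f : Perm (Fin n) → ℝ) :
    avg ∅ ((lz M (K n k))^[s] f) = avg ∅ f := by
  rw [avg_empty_ip, avg_empty_ip, ← ip_it (ip_lz M) s, lzK_one_it]

lemma avg_K_it (s : ℕ) (f : Perm (Fin n) → ℝ) :
    avg ∅ ((K n k)^[s] f) = avg ∅ f := by
  rw [avg_empty_ip, avg_empty_ip, ← ip_it ip_K s, K_one_it]

/-- The main inequality. -/
lemma norm_bound {V : Finset (Fin n)} (hV : 2 * V.card ≤ n) (M s : ℕ)
    (W : Finset (Fin n) → ℝ) (hW0 : ∀ A, 0 ≤ W A)
    (hW : ∀ A, A ⊆ V → A.Nonempty → ∀ f : Perm (Fin n) → ℝ, NN A f →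
      ((lz M (K n k))^[s] f 1) ^ 2 ≤ W A * ip f f) :
    ip ((lz M (K n k))^[s] (gV V)) ((lz M (K n k))^[s] (gV V)) ≤
      (Fintype.card (Perm (Fin n)) : ℝ) ^ 2 * ∑ A ∈ V.powerset.erase ∅, 2 ^ A.card * W A := by
  set N : ℝ := (Fintype.card (Perm (Fin n)) : ℝ) with hN
  have hNpos : 0 < N := by rw [hN]; exact_mod_cast Fintype.card_pos
  set F := (lz M (K n k))^[s] (gV V) with hF
  have hFZ : ZZ V F := ZZ_lz_it M s (ZZ_gV V)
  have hFF : ip F F = N * (lz M (K n k))^[s] F 1 := by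
    have h1 : ip F F = ip (gV V) ((lz M (K n k))^[s] F) := ip_it (ip_lz M) s _ _
    have h0 : avg ∅ F = 0 := by
      rw [hF, avg_lzK_it]
      have h3 := ip_gV V (fun _ => (1:ℝ))
      have h4 : ip (gV V) (fun _ => (1:ℝ)) = N * avg ∅ (gV V) := by
        rw [avg_empty_ip, ipcomm, ← hN]; field_simp
      rw [h4] at h3
      have h5 : avg V (fun _ => (1:ℝ)) = 1 := avg_ZZ (f := fun _ => (1:ℝ)) (fun _ _ _ => rfl)
      have h6 : avg ∅ (fun _ : Perm (Fin n) => (1:ℝ)) = 1 :=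
        avg_ZZ (f := fun _ => (1:ℝ)) (fun _ _ _ => rfl)
      rw [h5, h6, sub_self, mul_zero] at h3
      rcases mul_eq_zero.mp h3 with h7 | h7
      · linarith
      · exact h7
    rw [h1, ip_gV, avg_lzK_it, h0, sub_zero, avg_ZZ (ZZ_lz_it M s hFZ)]
  obtain ⟨φ, hφ, hsum, hriesz⟩ := riesz V (by simpa using hV) F hFZ
  obtain ⟨L, hL⟩ := exists_linK (n := n) (k := k) M s
  have hFsum : F = ∑ A ∈ V.powerset, φ A := by
    funext σ
    rw [Finset.sum_apply]
    exact hsum σ
  -- the constant part vanishes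
  have hφ0 : φ ∅ = 0 := by
    have h1 : ∀ σ, φ ∅ σ = φ ∅ 1 := by
      intro σ
      have := (hφ ∅ (empty_subset _)).1 σ (by rw [mem_Fx]; intro x hx; simp at hx) 1
      rwa [mul_one] at this
    have h2 : ∑ σ, F σ = 0 := by
      have h3 : ∑ σ, F σ = ip (fun _ => 1) F := by unfold ip; simp
      rw [h3, hF, ← ip_it (ip_lz M) s, lzK_one_it, ipcomm, ip_gV]
      rw [avg_ZZ (f := fun _ => (1:ℝ)) (fun _ _ _ => rfl),
        avg_ZZ (f := fun _ => (1:ℝ)) (fun _ _ _ => rfl), sub_self, mul_zero]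
    have h3 : ∑ σ, F σ = ∑ σ, φ ∅ σ := by
      rw [sum_congr rfl fun σ _ => hsum σ, sum_comm]
      rw [← sum_erase_add _ _ (empty_mem_powerset V)]
      rw [sum_eq_zero, zero_add]
      intro A hA
      rw [mem_erase, mem_powerset] at hA
      exact sum_new (nonempty_iff_ne_empty.mpr hA.1) (hφ A hA.2)
    rw [h2] at h3
    rw [sum_congr rfl fun σ _ => h1 σ, sum_const, nsmul_eq_mul, card_univ] at h3
    have h4 : φ ∅ 1 = 0 := by
      rcases mul_eq_zero.mp h3.symm with h7 | h7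
      · rw [← hN] at h7; linarith
      · exact h7
    funext σ
    rw [h1, h4]; rfl
  have hval : (lz M (K n k))^[s] F 1 = ∑ A ∈ V.powerset.erase ∅, (lz M (K n k))^[s] (φ A) 1 := by
    rw [← hL]
    nth_rewrite 1 [hFsum]
    rw [map_sum, Finset.sum_apply, ← sum_erase_add _ _ (empty_mem_powerset V), hφ0, map_zero]
    simp only [Pi.zero_apply, add_zero]
    exact sum_congr rfl fun A _ => by rw [hL]
  have hipnn : ∀ f : Perm (Fin n) → ℝ, 0 ≤ ip f f := fun f => sum_nonneg fun σ _ => mul_self_nonneg _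
  have hCS : (∑ A ∈ V.powerset.erase ∅, (lz M (K n k))^[s] (φ A) 1) ^ 2 ≤
      (∑ A ∈ V.powerset.erase ∅, 2 ^ A.card * W A) *
      ∑ A ∈ V.powerset.erase ∅, (1 / 2 : ℝ) ^ A.card * ip (φ A) (φ A) := by
    apply sum_sq_le_sum_mul_sum_of_sq_le_mul
    · intro A _; have := hW0 A; positivity
    · intro A _; have := hipnn (φ A); positivity
    · intro A hA
      rw [mem_erase, mem_powerset] at hA
      have h1 := hW A hA.2 (nonempty_iff_ne_empty.mpr hA.1) (φ A) (hφ A hA.2)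
      refine h1.trans (le_of_eq ?_)
      have h2 : (2 : ℝ) ^ A.card * (1 / 2) ^ A.card = 1 := by
        rw [← mul_pow]; norm_num
      calc W A * ip (φ A) (φ A) = (2 ^ A.card * (1 / 2) ^ A.card) * (W A * ip (φ A) (φ A)) := by
            rw [h2, one_mul]
        _ = _ := by ring
  have hsub : ∑ A ∈ V.powerset.erase ∅, (1 / 2 : ℝ) ^ A.card * ip (φ A) (φ A) ≤ ip F F := by
    refine le_trans ?_ hriesz
    apply sum_le_sum_of_subset_of_nonneg (erase_subset _ _)
    intro A _ _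
    have := hipnn (φ A); positivity
  set S := ∑ A ∈ V.powerset.erase ∅, 2 ^ A.card * W A with hS
  have hS0 : 0 ≤ S := sum_nonneg fun A _ => by have := hW0 A; positivity
  rw [← hval] at hCS
  have h2 : ((lz M (K n k))^[s] F 1) ^ 2 ≤ S * ip F F :=
    hCS.trans (mul_le_mul_of_nonneg_left hsub hS0)
  have h3 : (ip F F) ^ 2 ≤ N ^ 2 * (S * ip F F) := by
    calc (ip F F) ^ 2 = N ^ 2 * ((lz M (K n k))^[s] F 1) ^ 2 := by rw [hFF]; ring
      _ ≤ _ := mul_le_mul_of_nonneg_left h2 (by positivity)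
  rcases (hipnn F).eq_or_lt with h4 | h4
  · rw [← h4]; positivity
  · by_contra hc
    push Not at hc
    have : N ^ 2 * (S * ip F F) < (ip F F) ^ 2 := by
      calc N ^ 2 * (S * ip F F) = (N ^ 2 * S) * ip F F := by ring
        _ < ip F F * ip F F := mul_lt_mul_of_pos_right hc h4
        _ = _ := by ring
    linarith

end Pool.Agent.H9.Cut
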