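import Mathlib
import Pool.Agent.H9.Cut.Chi1
import Pool.Agent.H9.Cut.Chi2

/-!
# The explicit `L²` bound
-/

namespace Pool.Agent.H9.Cut

open Equiv Finset Pool.Agent.H79.Cut Filter

variable {n k : ℕ} [NeZero n]

lemma card_le_pow (U : Finset (Fin n)) :
    (Fintype.card (Perm (Fin n)) : ℝ) ≤ (n : ℝ) ^ U.card * (Fx U).card := by
  induction U using Finset.induction_on with
  | empty =>
    have : Fx (∅ : Finset (Fin n)) = univ := by ext π; simp [mem_Fx]
    rw [this]; simp
  | insert a s ha ih =>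
    have h1 := card_release (U := insert a s) (mem_insert_self a s)
    rw [erase_insert ha] at h1
    have h2 : (((insert a s)ᶜ.card : ℝ) + 1) ≤ n := by
      have h3 := card_add_card_compl (insert a s)
      rw [Fintype.card_fin, card_insert_of_notMem ha] at h3
      have h4 : (insert a s)ᶜ.card + 1 ≤ n := by omega
      exact_mod_cast h4
    have hpos : (0:ℝ) ≤ (Fx (insert a s)).card := by positivity
    rw [← h1] at ih
    rw [card_insert_of_notMem ha, pow_succ]
    calc _ ≤ _ := ih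
      _ = ((n : ℝ) ^ s.card * (Fx (insert a s)).card) * (((insert a s)ᶜ.card : ℝ) + 1) := by ring
      _ ≤ ((n : ℝ) ^ s.card * (Fx (insert a s)).card) * n :=
          mul_le_mul_of_nonneg_left h2 (by positivity)
      _ = _ := by ring

/-- the summand for a set of `j` cards -/
noncomputable def term (n k : ℕ) (B θ : ℝ) (t : ℕ) (j : ℕ) : ℝ :=
  4 * (14 * n * j * B ^ 2 / k * Real.exp (-(lam n θ * (2 * t - 4 * n * k ^ 2)))) ^ j

lemma Kl_it (t : ℕ) (g : Perm (Fin n) → ℝ) : (⇑(Kl n k))^[t] g = (K n k)^[t] g := rfl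

lemma chi_sq {a θ : ℝ} (P : Par n k a θ) {B : ℝ} (V : Finset (Fin n)) (hV : 2 * V.card ≤ n)
    (hB : 1 ≤ B * Real.sin a)
    (hq1 : ((k : ℝ) + 2 * V.card) * Real.sin a + k ≤ ((n : ℝ) - 1 / 2) * Real.sin a)
    (hq2 : ((k : ℝ) + 2 * V.card) + k ≤ n / 2) (t : ℕ) (ht : 4 * n * k ^ 2 ≤ t) :
    ip ((K n k)^[t] (gV V)) ((K n k)^[t] (gV V)) ≤ (Fintype.card (Perm (Fin n)) : ℝ) *
      (∑ A ∈ V.powerset.erase ∅, term n k B θ t A.card + (1 - 2 / (n : ℝ)) ^ (2 * t) * n ^ V.card) := by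
  have hn := npos (n := n)
  have hk : (0 : ℝ) < k := by exact_mod_cast P.hk
  have hkn : k < n := by have := P.hn; omega
  have hsin := P.sin_pos
  have hB0 : 0 < B := by
    by_contra hc
    push Not at hc
    nlinarith
  set N : ℝ := (Fintype.card (Perm (Fin n)) : ℝ) with hN
  have hNpos : 0 < N := by rw [hN]; exact_mod_cast Fintype.card_pos
  set q : ℝ := (k : ℝ) + 2 * V.card with hq
  have hq0 : 0 ≤ q := by positivity
  -- choose M
  have hX : ∀ᶠ M : ℕ in atTop, ∀ A ∈ V.powerset.erase ∅,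
      (lz M (BB n k A))^[M * t] (fun _ => 1) 1 ≤ 2 * (B * Real.exp (-(lam n θ * t))) ^ A.card := by
    rw [eventually_all_finset]
    intro A hA
    rw [mem_erase, mem_powerset] at hA
    have hc : ((A.card : ℕ) : ℝ) ≤ V.card := by exact_mod_cast card_le_card hA.2
    exact X_bound P hq0 A (by rw [hq]; linarith) hB hq1 hq2 t
  have hY : ∀ᶠ M : ℕ in atTop, ∀ A ∈ V.powerset.erase ∅, ∀ ρ : Perm (Fin n),
      (lz M (BB n k A))^[M * t] (same A ρ) 1 ≤
      2 * (7 * A.card / k * (B * Real.exp (-(lam n θ * ((t : ℝ) - 4 * n * k ^ 2))))) ^ A.card := by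
    rw [eventually_all_finset]
    intro A hA
    rw [mem_erase, mem_powerset] at hA
    have hc : ((A.card : ℕ) : ℝ) ≤ V.card := by exact_mod_cast card_le_card hA.2
    rw [eventually_all]
    intro ρ
    exact Y_bound P hq0 A (card_pos.mpr (nonempty_iff_ne_empty.mpr hA.1)) (by rw [hq]; linarith)
      hB hq1 hq2 t ht ρ
  obtain ⟨M, hMX, hMY, hM⟩ := (hX.and (hY.and (eventually_ge_atTop 1))).exists
  -- the spectral comparison
  have hspec := spectral (Kl n k) (fun f g => ip_K f g)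
    (fun f => by
      have := ip_K_le (k := k) f
      unfold ip at this
      refine this.trans (le_of_eq ?_)
      apply sum_congr rfl; intro x _; ring)
    (c := 1 - 2 / (n : ℝ)) (by
      have h3 : (3 : ℝ) ≤ n := by exact_mod_cast (show 3 ≤ n by have := P.hn; omega)
      have : 2 / (n : ℝ) ≤ 1 := by rw [div_le_one hn]; linarith
      linarith)
    (fun f => by
      have := ip_K_ge hkn f
      unfold ip at this
      refine le_trans (le_of_eq ?_) this
      congr 1
      apply sum_congr rfl; intro x _; ring) M hM t (gV V)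
  have e1 : ip ((K n k)^[t] (gV V)) ((K n k)^[t] (gV V)) = ∑ x, ((⇑(Kl n k))^[t] (gV V) x) ^ 2 := by
    unfold ip
    apply sum_congr rfl; intro x _
    rw [Kl_it]; ring
  have e2 : ∑ x, ((lz M ⇑(Kl n k))^[M * t] (gV V) x) ^ 2 =
      ip ((lz M (K n k))^[M * t] (gV V)) ((lz M (K n k))^[M * t] (gV V)) := by
    unfold ip
    apply sum_congr rfl; intro x _
    have : (⇑(Kl n k)) = K n k := rfl
    rw [this]; ring
  have e3 : ∑ x, gV V x ^ 2 ≤ N * n ^ V.card := by
    have h1 : ∑ x, gV V x ^ 2 = ip (gV V) (gV V) := by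
      unfold ip; apply sum_congr rfl; intro x _; ring
    have h2 : avg ∅ (gV V) = 0 := by
      have h3 := ip_gV V (fun _ => (1:ℝ))
      have h4 : ip (gV V) (fun _ => (1:ℝ)) = N * avg ∅ (gV V) := by
        rw [avg_empty_ip, ipcomm, ← hN]; field_simp
      rw [h4, avg_ZZ (f := fun _ => (1:ℝ)) (fun _ _ _ => rfl),
        avg_ZZ (f := fun _ => (1:ℝ)) (fun _ _ _ => rfl), sub_self, mul_zero] at h3
      rcases mul_eq_zero.mp h3 with h7 | h7
      · linarith
      · exact h7
    have hFx : (0:ℝ) < (Fx V).card := by exact_mod_cast Fx_card_pos V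
    rw [h1, ip_gV, h2, sub_zero, avg_ZZ (ZZ_gV V)]
    apply mul_le_mul_of_nonneg_left _ hNpos.le
    unfold gV
    rw [if_pos (one_mem_Fx V)]
    have h3 : N / (Fx V).card ≤ n ^ V.card := by
      rw [div_le_iff₀ hFx]; exact card_le_pow V
    linarith
  rw [← e1, e2] at hspec
  -- the main inequality
  have hmain := norm_bound hV M (M * t)
    (fun A => (2 * (B * Real.exp (-(lam n θ * t))) ^ A.card) *
      (2 * (7 * A.card / k * (B * Real.exp (-(lam n θ * ((t : ℝ) - 4 * n * k ^ 2))))) ^ A.card) /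
      (Fx A).card)
    (fun A => by positivity)
    (fun A hAV hAne f hf => by
      have hA : A ∈ V.powerset.erase ∅ := by
        rw [mem_erase, mem_powerset]; exact ⟨nonempty_iff_ne_empty.mp hAne, hAV⟩
      have := new_bound hkn hM (M * t) hf (hMX A hA) (hMY A hA)
      refine this.trans (le_of_eq ?_)
      ring)
  have hmain2 : (N ^ 2 * ∑ A ∈ V.powerset.erase ∅, 2 ^ A.card *
      ((2 * (B * Real.exp (-(lam n θ * t))) ^ A.card) *
      (2 * (7 * A.card / k * (B * Real.exp (-(lam n θ * ((t : ℝ) - 4 * n * k ^ 2))))) ^ A.card) /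
      (Fx A).card)) ≤ N * ∑ A ∈ V.powerset.erase ∅, term n k B θ t A.card := by
    rw [pow_two, mul_assoc]
    apply mul_le_mul_of_nonneg_left _ hNpos.le
    rw [mul_sum]
    apply sum_le_sum
    intro A _
    have hFx : (0:ℝ) < (Fx A).card := by exact_mod_cast Fx_card_pos A
    have h1 : N / (Fx A).card ≤ n ^ A.card := by
      rw [div_le_iff₀ hFx]; exact card_le_pow A
    set j := A.card with hj
    set E1 := Real.exp (-(lam n θ * t)) with hE1
    set E2 := Real.exp (-(lam n θ * ((t : ℝ) - 4 * n * k ^ 2))) with hE2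
    have hE : Real.exp (-(lam n θ * (2 * t - 4 * n * k ^ 2))) = E1 * E2 := by
      rw [hE1, hE2, ← Real.exp_add]; congr 1; ring
    calc N * (2 ^ j * ((2 * (B * E1) ^ j) * (2 * (7 * j / k * (B * E2)) ^ j) / (Fx A).card))
        = (N / (Fx A).card) * (4 * (2 ^ j * (B * E1) ^ j * (7 * j / k * (B * E2)) ^ j)) := by ring
      _ ≤ n ^ j * (4 * (2 ^ j * (B * E1) ^ j * (7 * j / k * (B * E2)) ^ j)) :=
          mul_le_mul_of_nonneg_right h1 (by positivity)
      _ = term n k B θ t j := by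
          unfold term
          rw [hE]
          rw [show (n : ℝ) ^ j * (4 * (2 ^ j * (B * E1) ^ j * (7 * j / k * (B * E2)) ^ j)) =
            4 * (n ^ j * 2 ^ j * (B * E1) ^ j * (7 * j / k * (B * E2)) ^ j) by ring]
          rw [← mul_pow, ← mul_pow, ← mul_pow]
          congr 2
          ring
  have hc2 : 0 ≤ (1 - 2 / (n : ℝ)) ^ (2 * t) := by rw [pow_mul]; positivity
  calc _ ≤ _ := hspec
    _ ≤ N * ∑ A ∈ V.powerset.erase ∅, term n k B θ t A.card +
        (1 - 2 / (n : ℝ)) ^ (2 * t) * (N * n ^ V.card) :=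
        add_le_add (hmain.trans hmain2) (mul_le_mul_of_nonneg_left e3 hc2)
    _ = _ := by ring

/-- The resulting bound for events. -/
lemma chi_avg {a θ : ℝ} (P : Par n k a θ) {B : ℝ} (V : Finset (Fin n)) (hV : 2 * V.card ≤ n)
    (hB : 1 ≤ B * Real.sin a)
    (hq1 : ((k : ℝ) + 2 * V.card) * Real.sin a + k ≤ ((n : ℝ) - 1 / 2) * Real.sin a)
    (hq2 : ((k : ℝ) + 2 * V.card) + k ≤ n / 2) (t : ℕ) (ht : 4 * n * k ^ 2 ≤ t) {χ : ℝ}
    (hχ0 : 0 ≤ χ)
    (hχ : ∑ A ∈ V.powerset.erase ∅, term n k B θ t A.card +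
      (1 - 2 / (n : ℝ)) ^ (2 * t) * n ^ V.card ≤ χ ^ 2)
    (f : Perm (Fin n) → ℝ) (hf0 : ∀ σ, 0 ≤ f σ) (hf1 : ∀ σ, f σ ≤ 1) :
    avg V ((K n k)^[t] f) ≤ avg ∅ f + χ := by
  set N : ℝ := (Fintype.card (Perm (Fin n)) : ℝ) with hN
  have hNpos : 0 < N := by rw [hN]; exact_mod_cast Fintype.card_pos
  have h1 := chi_sq P V hV hB hq1 hq2 t ht
  set G := (K n k)^[t] (gV V) with hG
  have h2 : ip G f = N * (avg V ((K n k)^[t] f) - avg ∅ f) := by
    rw [hG, ip_it ip_K t, ip_gV, avg_K_it]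
  have h3 : (ip G f) ^ 2 ≤ ip G G * ip f f := by
    unfold ip
    have := sum_mul_sq_le_sq_mul_sq univ G f
    refine this.trans (le_of_eq ?_)
    congr 1 <;> (apply sum_congr rfl; intro x _; ring)
  have h4 : ip f f ≤ N := by
    unfold ip
    calc ∑ σ, f σ * f σ ≤ ∑ σ : Perm (Fin n), (1:ℝ) := by
          apply sum_le_sum; intro σ _
          have := hf0 σ; have := hf1 σ; nlinarith
      _ = N := by simp [hN]
  have hGG : 0 ≤ ip G G := sum_nonneg fun σ _ => mul_self_nonneg _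
  have h5 : ip G G ≤ N * χ ^ 2 := h1.trans (mul_le_mul_of_nonneg_left hχ hNpos.le)
  have h6 : (ip G f) ^ 2 ≤ (N * χ) ^ 2 := by
    calc (ip G f) ^ 2 ≤ ip G G * ip f f := h3
      _ ≤ (N * χ ^ 2) * N := mul_le_mul h5 h4 (sum_nonneg fun σ _ => mul_self_nonneg _)
          (by positivity)
      _ = _ := by ring
  have h7 : ip G f ≤ N * χ := (abs_le_of_sq_le_sq' h6 (by positivity)).2
  rw [h2] at h7
  have h8 := le_of_mul_le_mul_left h7 hNpos
  linarith

end Pool.Agent.H9.Cut
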