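import Mathlib
import Pool.Agent.H79.CutAsym
import Pool.Agent.H9.Cut.Chi3

/-!
# The explicit upper bound for the total variation distance
-/

namespace Pool.Agent.H9.Cut

open Equiv Finset Pool.Agent.H79.Cut

variable {n k : ℕ} [NeZero n]

lemma choose_mul_pow_le (r m : ℕ) : (r.choose m : ℝ) * (m : ℝ) ^ m ≤ (3 * r) ^ m := by
  have h1 : (r.choose m : ℝ) ≤ (r : ℝ) ^ m / (m.factorial : ℝ) := Nat.choose_le_pow_div m r
  have h2 : (m : ℝ) ^ m / (m.factorial : ℝ) ≤ Real.exp m :=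
    Real.pow_div_factorial_le_exp (m : ℝ) (by positivity) m
  have h3 : Real.exp m ≤ 3 ^ m := by
    rw [← Real.exp_one_pow]
    exact pow_le_pow_left₀ (Real.exp_pos 1).le (by have := Real.exp_one_lt_d9; linarith) m
  have hf : (0:ℝ) < (m.factorial : ℝ) := by exact_mod_cast m.factorial_pos
  calc (r.choose m : ℝ) * (m : ℝ) ^ m ≤ (r : ℝ) ^ m / (m.factorial : ℝ) * (m : ℝ) ^ m :=
        mul_le_mul_of_nonneg_right h1 (by positivity)
    _ = (r : ℝ) ^ m * ((m : ℝ) ^ m / (m.factorial : ℝ)) := by ring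
    _ ≤ (r : ℝ) ^ m * 3 ^ m := mul_le_mul_of_nonneg_left (h2.trans h3) (by positivity)
    _ = _ := by rw [mul_pow]; ring

/-- the sum over all sets of cards -/
lemma sum_term_le {B θ : ℝ} {t : ℕ} (hk : 1 ≤ k) (V : Finset (Fin n)) (hV : V.card ≤ 4 * k) {y : ℝ}
    (hy : 168 * n * B ^ 2 * Real.exp (-(lam n θ * (2 * t - 4 * n * k ^ 2))) ≤ y) (hy2 : y ≤ 1 / 2) :
    ∑ A ∈ V.powerset.erase ∅, term n k B θ t A.card ≤ 8 * y := by
  have hk' : (0 : ℝ) < k := by exact_mod_cast hk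
  set E := Real.exp (-(lam n θ * (2 * t - 4 * n * k ^ 2))) with hE
  have hE0 : 0 < E := Real.exp_pos _
  have hn := npos (n := n)
  have hy0 : 0 ≤ y := le_trans (by positivity) hy
  set F : ℕ → ℝ := fun j => term n k B θ t j with hF
  have h1 : ∑ A ∈ V.powerset.erase ∅, F A.card = ∑ m ∈ range V.card,
      ((V.card).choose (m + 1) : ℝ) * F (m + 1) := by
    have h2 := sum_powerset_apply_card F (x := V)
    have h3 : ∑ A ∈ V.powerset, F A.card = ∑ A ∈ V.powerset.erase ∅, F A.card + F 0 := by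
      rw [← sum_erase_add _ _ (empty_mem_powerset V)]; simp
    rw [h3, sum_range_succ'] at h2
    simp only [nsmul_eq_mul, Nat.choose_zero_right, Nat.cast_one, one_mul] at h2
    linarith
  rw [show (∑ A ∈ V.powerset.erase ∅, term n k B θ t A.card) =
    ∑ A ∈ V.powerset.erase ∅, F A.card from rfl, h1]
  have h4 : ∀ m ∈ range V.card, ((V.card).choose (m + 1) : ℝ) * F (m + 1) ≤ 4 * y ^ (m + 1) := by
    intro m _
    have h5 := choose_mul_pow_le V.card (m + 1)
    have h6 : ((V.card).choose (m + 1) : ℝ) * F (m + 1) =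
        4 * (14 * n * B ^ 2 / k * E) ^ (m + 1) *
          (((V.card).choose (m + 1) : ℝ) * ((m + 1 : ℕ) : ℝ) ^ (m + 1)) := by
      simp only [hF, term]
      rw [← hE, show (14 * (n : ℝ) * ((m + 1 : ℕ) : ℝ) * B ^ 2 / k * E) =
        (14 * n * B ^ 2 / k * E) * ((m + 1 : ℕ) : ℝ) by ring, mul_pow]
      ring
    have h7 : (3 * (V.card : ℝ)) ^ (m + 1) ≤ (12 * k) ^ (m + 1) := by
      apply pow_le_pow_left₀ (by positivity)
      have : (V.card : ℝ) ≤ 4 * k := by exact_mod_cast hV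
      linarith
    rw [h6]
    calc 4 * (14 * n * B ^ 2 / k * E) ^ (m + 1) *
          (((V.card).choose (m + 1) : ℝ) * ((m + 1 : ℕ) : ℝ) ^ (m + 1))
        ≤ 4 * (14 * n * B ^ 2 / k * E) ^ (m + 1) * (12 * k) ^ (m + 1) :=
          mul_le_mul_of_nonneg_left (h5.trans h7) (by positivity)
      _ = 4 * (168 * n * B ^ 2 * E) ^ (m + 1) := by
          rw [mul_assoc, ← mul_pow]; congr 2; field_simp; ring
      _ ≤ 4 * y ^ (m + 1) := by
          apply mul_le_mul_of_nonneg_left _ (by norm_num)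
          exact pow_le_pow_left₀ (by positivity) hy _
  refine (sum_le_sum h4).trans ?_
  -- geometric sum
  have h8 : ∀ N : ℕ, ∑ m ∈ range N, y ^ (m + 1) ≤ 2 * y := by
    intro N
    have h9 : ∑ m ∈ range N, y ^ (m + 1) = y * ∑ m ∈ range N, y ^ m := by
      rw [mul_sum]; apply sum_congr rfl; intro m _; ring
    rw [h9, mul_comm 2 y]
    apply mul_le_mul_of_nonneg_left _ hy0
    have h10 : ∑ m ∈ range N, y ^ m ≤ ∑ m ∈ range N, (1 / 2 : ℝ) ^ m :=
      sum_le_sum fun m _ => pow_le_pow_left₀ hy0 hy2 m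
    refine h10.trans ?_
    rw [geom_sum_eq (by norm_num)]
    have h11 : (0:ℝ) ≤ (1 / 2) ^ N := by positivity
    have h12 : (((1 / 2 : ℝ)) ^ N - 1) / (1 / 2 - 1) = 2 - 2 * (1 / 2) ^ N := by
      rw [div_eq_iff (by norm_num)]; ring
    rw [h12]
    linarith
  rw [← mul_sum]
  have := h8 V.card
  linarith

/-- The explicit upper bound. -/
lemma upper2 {a θ : ℝ} (P : Par n k a θ) {B χ : ℝ} (hB : 1 ≤ B * Real.sin a) (hm : k + 9 ≤ n)
    (hk1 : 1 ≤ k) (h12 : 12 * k + 12 ≤ n)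
    (hq1 : (5 * (k : ℝ) + 4) * Real.sin a + k ≤ ((n : ℝ) - 1 / 2) * Real.sin a)
    (t1 t2 : ℕ) (ht2 : 4 * n * k ^ 2 ≤ t2) {y : ℝ}
    (hy : 168 * n * B ^ 2 * Real.exp (-(lam n θ * (2 * t2 - 4 * n * k ^ 2))) ≤ y) (hy2 : y ≤ 1 / 2)
    (hχ0 : 0 ≤ χ) (hχ : 8 * y + (1 - 2 / (n : ℝ)) ^ (2 * t2) * n ^ (2 * k + 2) ≤ χ ^ 2) :
    tv (convPow (pb n k) (t1 + t2)) (unifOn univ) ≤
      χ + ((1 - 1 / (2 * n)) ^ t1 * n ^ 2 + 2) / k := by
  obtain ⟨m, hmn⟩ : ∃ m, n = m + k + 1 := ⟨n - k - 1, by omega⟩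
  have hk' : (0 : ℝ) < k := by exact_mod_cast hk1
  have hsin := P.sin_pos
  have hnpos : (0 : ℝ) < n := npos
  have hn1 : (1 : ℝ) ≤ n := by exact_mod_cast (show 1 ≤ n by omega)
  apply tv_pb_le (by omega)
  intro A
  set E := avg ∅ (ind A) with hE
  have hE0 : 0 ≤ E := avg_nonneg (ind_nonneg A)
  -- the second phase
  have h2 : ∀ (w : Perm (Fin n)) (V : Finset (Fin n)),
      (∀ x : Fin n, n ≤ (x : ℕ) + k + 1 → x ∈ V) → (lf n k V).card ≤ k →
      avg V (fun π => (K n k)^[t2] (ind A) (w * π)) ≤ E + χ := by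
    intro w V _ hl
    have hVc : V.card ≤ 2 * k + 2 := by
      have h4 := card_low (k := k) V (by omega)
      have h5 := card_filter_add_card_filter_not (s := V) (fun x : Fin n => (x : ℕ) + k < n)
      have h6 : (V.filter fun x : Fin n => ¬ ((x : ℕ) + k < n)).card ≤ k := by
        have h7 : (V.filter fun x : Fin n => ¬ ((x : ℕ) + k < n)) ⊆
            (univ.filter fun x : Fin n => ¬ ((x : ℕ) + k < n)) := by
          apply filter_subset_filter
          exact subset_univ _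
        refine (card_le_card h7).trans ?_
        have h8 := card_filter_add_card_filter_not (s := (univ : Finset (Fin n)))
          (fun x : Fin n => (x : ℕ) + k < n)
        have h9 : (univ.filter fun x : Fin n => (x : ℕ) + k < n) =
            univ.filter fun x : Fin n => (x : ℕ) < n - k := by
          apply filter_congr; intro x _; omega
        rw [h9, Fin.card_filter_val_lt, card_univ, Fintype.card_fin] at h8
        rw [min_eq_right (by omega)] at h8
        omega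
      omega
    have hVc' : (V.card : ℝ) ≤ 2 * k + 2 := by exact_mod_cast hVc
    have h12' : 12 * (k : ℝ) + 12 ≤ n := by exact_mod_cast h12
    have hc : 0 ≤ (1 - 2 / (n : ℝ)) ^ (2 * t2) := by rw [pow_mul]; positivity
    have h3 := chi_avg P V (by omega) hB (by
        have : ((k : ℝ) + 2 * V.card) * Real.sin a ≤ (5 * (k : ℝ) + 4) * Real.sin a :=
          mul_le_mul_of_nonneg_right (by linarith) hsin.le
        linarith) (by linarith) t2 ht2 hχ0 (by
        refine le_trans (add_le_add (sum_term_le hk1 V (by omega) hy hy2) ?_) hχ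
        apply mul_le_mul_of_nonneg_left _ hc
        exact pow_le_pow_right₀ hn1 hVc)
      (fun π => ind A (w * π)) (fun σ => ind_nonneg A _) (fun σ => ind_le_one A _)
    rw [Kit_left, avg_empty_left] at h3
    exact h3
  have h1 := phase1 hmn (by omega) hk1 (by linarith : 0 ≤ E + χ) t1 univ (fun x _ => mem_univ x)
    ((K n k)^[t2] (ind A)) (Kit_le_one (ind_le_one A) t2) h2
  rw [avg_univ, ← Function.iterate_add_apply] at h1
  refine h1.trans ?_
  have hψ : ψ m (univ : Finset (Fin n)) = (m : ℝ) ^ 2 := by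
    unfold ψ
    rw [if_pos (mem_univ _)]
    unfold yy
    simp
    ring
  rw [hψ]
  have hr1 : 0 ≤ (1 - 1 / (2 * (n : ℝ))) := by
    have h2 : 1 / (2 * (n : ℝ)) ≤ 1 := by
      rw [div_le_one (by positivity)]
      linarith
    linarith
  have h3 : ((1 - 1 / (2 * (n : ℝ))) ^ t1 * (m : ℝ) ^ 2 +
      2 * (1 - (1 - 1 / (2 * (n : ℝ))) ^ t1)) / k ≤
      ((1 - 1 / (2 * (n : ℝ))) ^ t1 * (n : ℝ) ^ 2 + 2) / k := by
    apply div_le_div_of_nonneg_right _ hk'.le
    have h4 : (m : ℝ) ^ 2 ≤ (n : ℝ) ^ 2 := by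
      have : (m : ℝ) ≤ n := by exact_mod_cast (show m ≤ n by omega)
      exact pow_le_pow_left₀ (by positivity) this 2
    have h5 : 0 ≤ (1 - 1 / (2 * (n : ℝ))) ^ t1 := by positivity
    nlinarith
  linarith

end Pool.Agent.H9.Cut
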