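import Mathlib
import Pool.Agent.H9.Cut.Up

/-!
# Asymptotics of the upper bound for long tails
-/

namespace Pool.Agent.H9.Cut

open Equiv Finset Filter Topology Pool.Agent.H79.Cut

/-- the phase 1 error -/
lemma phase1_err {n : ℕ} (hn : 100 ≤ n) {t1 : ℕ} (ht1 : 4 * ((n : ℝ) * Real.log n) ≤ t1) :
    (1 - 1 / (2 * (n : ℝ))) ^ t1 * (n : ℝ) ^ 2 ≤ 1 := by
  have hnR : (100 : ℝ) ≤ n := by exact_mod_cast hn
  have hn0 : (0 : ℝ) < n := by linarith
  have h1 : 1 / (2 * (n : ℝ)) ≤ 1 := by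
    rw [div_le_one (by positivity)]; linarith
  have h2 := one_sub_pow_le h1 t1
  have h3 : Real.exp (-(t1 * (1 / (2 * (n : ℝ))))) ≤ Real.exp (-(2 * Real.log n)) := by
    apply Real.exp_le_exp.mpr
    apply neg_le_neg
    rw [mul_one_div, le_div_iff₀ (by positivity)]
    linarith
  have h4 : Real.exp (-(2 * Real.log n)) = ((n : ℝ) ^ 2)⁻¹ := by
    rw [Real.exp_neg, mul_comm, Real.exp_mul, Real.exp_log hn0]
    norm_num
  calc (1 - 1 / (2 * (n : ℝ))) ^ t1 * (n : ℝ) ^ 2 ≤ ((n : ℝ) ^ 2)⁻¹ * (n : ℝ) ^ 2 := by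
        apply mul_le_mul_of_nonneg_right _ (by positivity)
        rw [← h4]; exact h2.trans h3
    _ = 1 := by
        have : (n : ℝ) ^ 2 ≠ 0 := by positivity
        field_simp

lemma aux1 {K n s : ℝ} (h : K ≤ n * (s / 32)) (hs : s ≤ 1 / 2) (hn : 0 < n) : K ≤ n / 64 := by
  have := mul_le_mul_of_nonneg_left hs hn.le
  linarith

lemma aux2 {n L : ℝ} (hn : 100 ≤ n) (hL : 1 ≤ L) : 100 ≤ n * L := by
  have := mul_le_mul hn hL zero_le_one (by linarith)
  linarith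

lemma aux3 {K θ b : ℝ} (hK : 5 ≤ K) (hb : b ≤ Real.pi / 2) (hb0 : 0 < b)
    (hθ : θ = b / (K + 3 / 2)) : θ * K ≤ Real.pi / 2 := by
  have h0 : 0 < K + 3 / 2 := by linarith
  rw [hθ, div_mul_eq_mul_div, div_le_iff₀ h0]
  have h1 : b * K ≤ Real.pi / 2 * K := mul_le_mul_of_nonneg_right hb (by linarith)
  have := Real.pi_pos
  linarith

lemma aux4 {K θ b : ℝ} (hK : 5 ≤ K) (hb : b ≤ Real.pi / 2)
    (hθ : θ = b / (K + 3 / 2)) : θ ≤ 7 / 10 := by
  have h0 : 0 < K + 3 / 2 := by linarith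
  rw [hθ, div_le_iff₀ h0]
  have := Real.pi_lt_d2
  linarith

lemma aux5 {x θ : ℝ} (h : x ≤ θ ^ 2) (h0 : 0 < θ) (h1 : θ ≤ 7 / 10) : x ≤ 1 / 2 := by
  have := mul_le_mul h1 h1 h0.le (by norm_num)
  have h2 : θ ^ 2 = θ * θ := by ring
  linarith

lemma aux6 {X t t2 n ε : ℝ} (h1 : X * n ≤ t) (h2 : (1 + ε / 2) * t ≤ t2) (hε : 0 < ε)
    (ht : 0 < t) : X * n ≤ t2 := by
  have := mul_pos hε ht
  linarith

lemma aux7 {K2 n L t2 : ℝ} (hK : 0 ≤ K2) (hL : 30 ≤ L) (hn : 0 < n)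
    (h : 3 / 16 * (K2 * L) * n ≤ t2) : 4 * n * K2 ≤ t2 := by
  have h5 : K2 * 30 ≤ K2 * L := mul_le_mul_of_nonneg_left hL hK
  have h6 : K2 * 30 * n ≤ K2 * L * n := mul_le_mul_of_nonneg_right h5 hn.le
  have h7 : 0 ≤ K2 * n := by positivity
  linarith

lemma aux8 {ε L : ℝ} (hε : 0 < ε) (hε1 : ε < 1) (hL : 0 ≤ L) :
    (1 + ε / 8) * L ≤ (1 + ε / 4) * (1 - ε / 16) * L := by
  apply mul_le_mul_of_nonneg_right _ hL
  have h1 : ε * ε ≤ ε * 1 := mul_le_mul_of_nonneg_left hε1.le hε.le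
  linarith

lemma aux9 {x θ K : ℝ} (h1 : x * K ^ 2 ≤ θ ^ 2 * K ^ 2) (h2 : (θ * K) ^ 2 ≤ (Real.pi / 2) ^ 2)
    (hpi : Real.pi ^ 2 ≤ 10) : 4 * (x * K ^ 2) ≤ 10 := by
  have h3 : θ ^ 2 * K ^ 2 = (θ * K) ^ 2 := by ring
  have h4 : (Real.pi / 2) ^ 2 = Real.pi ^ 2 / 4 := by ring
  linarith

lemma aux10 {K L : ℝ} (hK : 5 ≤ K) (hL : 0 ≤ L) : (2 * K + 3) * L ≤ 3 / 4 * K ^ 2 * L := by
  apply mul_le_mul_of_nonneg_right _ hL
  nlinarith

lemma aux11 {K n s : ℝ} (hK : K ≤ n * (s / 32)) (hns : 64 ≤ n * s) (hs0 : 0 < s) (hs : s ≤ 1 / 2) :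
    (5 * K + 4) * s + K ≤ (n - 1 / 2) * s := by
  have h1 : K * s ≤ n * (s / 32) * s := mul_le_mul_of_nonneg_right hK hs0.le
  have h2 : n * (s / 32) * s ≤ n * s * (1 / 64) := by
    have : n * s * s ≤ n * s * (1 / 2) := mul_le_mul_of_nonneg_left hs (by linarith)
    linarith
  linarith

lemma aux12 {t t1 T X ε : ℝ} (h1 : (1 + ε) * t - 1 < T) (h2 : t1 < 4 * X + 1)
    (h3 : 16 * X ≤ ε * t) (ht : 0 < t) (hX : 100 ≤ X) : t1 ≤ T := by
  linarith

lemma aux13 {ε : ℝ} (hε : 0 < ε) (hε1 : ε < 1) :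
    1 + ε / 4 < (1 - ε / 32) ^ 2 * (1 + ε / 2) := by
  nlinarith [mul_pos hε hε, mul_pos hε (mul_pos hε hε), mul_pos hε (sub_pos.mpr hε1)]

variable {k : ℕ → ℕ} {t : ℕ → ℝ}

/-- The upper bound half of the cut-off for long tails, along any filter. -/
lemma cutoff_upper2 {l : Filter ℕ} (hl : l ≤ atTop) (hk : Tendsto k atTop atTop)
    (hkn : Tendsto (fun n => (k n : ℝ) / n) atTop (𝓝 0))
    (ht : Tendsto (fun n : ℕ => t n / (n * Real.log n)) atTop atTop)
    {ε : ℝ} (hε : 0 < ε) (hε1 : ε < 1)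
    (hlo : ∀ᶠ n : ℕ in l, (1 - ε / 16) * (2 / Real.pi ^ 2 * (k n : ℝ) ^ 2 * Real.log n) ≤ t n / n) :
    Tendsto (fun n => tv (convPow (pfam k n) ⌊(1 + ε) * t n⌋₊) (unifOn univ)) l (𝓝 0) := by
  have hpi := Real.pi_pos
  have hpi3 := Real.pi_gt_three
  have hpi4 := Real.pi_lt_d2
  have hpisq : Real.pi ^ 2 ≤ 10 := by nlinarith
  set a : ℝ := Real.pi * ε / 64 with ha
  have ha0 : 0 < a := by positivity
  have ha1 : a ≤ 1 / 2 := by rw [ha]; nlinarith
  have hb0 : 0 < Real.pi / 2 - a := by linarith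
  have hsa1 : Real.sin a ≤ 1 / 2 := (Real.sin_lt ha0).le.trans ha1
  have hsa0 : 0 < Real.sin a := Real.sin_pos_of_pos_of_lt_pi ha0 (by linarith)
  set B : ℝ := 1 / Real.sin a with hB
  have hB0 : 0 < B := by positivity
  have hB1 : 1 ≤ B * Real.sin a := by rw [hB]; field_simp; exact le_rfl
  -- the constant in the rate
  have hrate : ∀ᶠ n in atTop, (1 + ε / 4) / (1 + ε / 2) * (Real.pi ^ 2 / 4) ≤
      (2 - 2 * Real.cos ((Real.pi / 2 - a) / (k n + 3 / 2))) * (k n : ℝ) ^ 2 := by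
    apply hk.eventually (rate_lim (Real.pi / 2 - a) _ _)
    have h1 : (Real.pi / 2 - a) ^ 2 = (Real.pi ^ 2 / 4) * (1 - ε / 32) ^ 2 := by rw [ha]; ring
    rw [h1, mul_comm]
    apply mul_lt_mul_of_pos_left _ (by positivity)
    rw [div_lt_iff₀ (by linarith)]
    exact aux13 hε hε1
  -- the small quantity
  set Y : ℕ → ℝ := fun n => 168 * B ^ 2 * Real.exp 10 * Real.exp (-(ε / 8 * Real.log n)) with hY
  have hlogT : Tendsto (fun n : ℕ => Real.log n) atTop atTop :=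
    Real.tendsto_log_atTop.comp tendsto_natCast_atTop_atTop
  have hY0 : Tendsto Y atTop (𝓝 0) := by
    have h1 : Tendsto (fun n : ℕ => Real.exp (-(ε / 8 * Real.log n))) atTop (𝓝 0) :=
      Real.tendsto_exp_neg_atTop_nhds_zero.comp (hlogT.const_mul_atTop (by positivity))
    have h2 := h1.const_mul (168 * B ^ 2 * Real.exp 10)
    rw [mul_zero] at h2
    exact h2
  have hinv : Tendsto (fun n : ℕ => 1 / (n : ℝ)) atTop (𝓝 0) :=
    tendsto_const_nhds.div_atTop tendsto_natCast_atTop_atTop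
  -- the bound
  have hbound : ∀ᶠ n : ℕ in l, tv (convPow (pfam k n) ⌊(1 + ε) * t n⌋₊) (unifOn univ) ≤
      Real.sqrt (8 * Y n + 1 / n) + 3 / (k n : ℝ) := by
    have e1 : ∀ᶠ n : ℕ in atTop, (k n : ℝ) / n ≤ Real.sin a / 32 :=
      hkn.eventually_le_const (by positivity)
    have e2 : ∀ᶠ n : ℕ in atTop, (64 : ℝ) / Real.sin a ≤ n :=
      tendsto_natCast_atTop_atTop.eventually_ge_atTop _
    have e3 : ∀ᶠ n : ℕ in atTop, 16 / ε ≤ t n / (n * Real.log n) := ht.eventually_ge_atTop _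
    have e4 : ∀ᶠ n : ℕ in atTop, 100 ≤ n := eventually_ge_atTop 100
    have e5 : ∀ᶠ n : ℕ in atTop, 30 ≤ Real.log n := hlogT.eventually_ge_atTop _
    have e6 : ∀ᶠ n : ℕ in atTop, Y n ≤ 1 / 2 := hY0.eventually_le_const (by norm_num)
    filter_upwards [hl hrate, hl e1, hl e2, hl e3, hl e4, hl e5, hl e6, hlo,
      hl (hk.eventually_ge_atTop 5)] with n hrate e1 e2 e3 e4 e5 e6 hlo hk5
    have : NeZero n := ⟨by omega⟩
    rw [pfam_eq]
    set K := k n with hKdef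
    have hk1 : 1 ≤ K := by omega
    have hnR : (100 : ℝ) ≤ n := by exact_mod_cast e4
    have hn0 : (0 : ℝ) < n := by linarith
    have hK5 : (5 : ℝ) ≤ K := by exact_mod_cast hk5
    have hKn : (K : ℝ) ≤ n * (Real.sin a / 32) := by
      rw [div_le_iff₀ hn0] at e1; linarith
    have hnsin : 64 ≤ n * Real.sin a := by
      rw [div_le_iff₀ hsa0] at e2; linarith
    have hKn2 : (K : ℝ) ≤ n / 64 := aux1 hKn hsa1 hn0
    have hKnat : K * 64 ≤ n := by
      have : (K : ℝ) * 64 ≤ n := by linarith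
      exact_mod_cast this
    -- logs
    have hlogn : 1 ≤ Real.log n := by linarith
    have hnlog : (0 : ℝ) < n * Real.log n := by positivity
    have ht1 : 16 / ε * (n * Real.log n) ≤ t n := by rwa [le_div_iff₀ hnlog] at e3
    have ht2 : 16 * (n * Real.log n) ≤ ε * t n := by
      have h1 := mul_le_mul_of_nonneg_left ht1 hε.le
      have h2 : ε * (16 / ε * (n * Real.log n)) = 16 * (n * Real.log n) := by field_simp
      linarith
    have hnl1 : 100 ≤ n * Real.log n := aux2 hnR hlogn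
    have ht0 : 0 < t n := lt_of_lt_of_le (by positivity) ht1
    -- the parameters
    set θ : ℝ := (Real.pi / 2 - a) / (K + 3 / 2) with hθdef
    have hθ0 : 0 < θ := by positivity
    have hbpi : Real.pi / 2 - a ≤ Real.pi / 2 := by linarith
    have hθK : θ * K ≤ Real.pi / 2 := aux3 hK5 hbpi hb0 hθdef
    have hθ1 : θ ≤ 7 / 10 := aux4 hK5 hbpi hθdef
    have hlam1 : 2 - 2 * Real.cos θ ≤ θ ^ 2 := by
      have := Real.one_sub_sq_div_two_le_cos (x := θ)
      linarith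
    have P : Par n K a θ := by
      refine ⟨hk1, by omega, ha0, hθ0, ?_, hsa1, ?_⟩
      · have : ((K : ℝ) + 3 / 2) * θ = Real.pi / 2 - a := by
          rw [hθdef]; field_simp
        rw [this]; linarith
      · exact aux5 hlam1 hθ0 hθ1
    set T := ⌊(1 + ε) * t n⌋₊ with hT
    set t1 := ⌈4 * (n * Real.log n)⌉₊ with ht1def
    have hT1 : (1 + ε) * t n - 1 < T := Nat.sub_one_lt_floor _
    have ht1b : (t1 : ℝ) < 4 * (n * Real.log n) + 1 := Nat.ceil_lt_add_one (by positivity)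
    have ht1a : 4 * (n * Real.log n) ≤ t1 := Nat.le_ceil _
    have hle : t1 ≤ T := by
      have : (t1 : ℝ) ≤ T := aux12 hT1 ht1b ht2 ht0 hnl1
      exact_mod_cast this
    obtain ⟨t2, ht2def⟩ : ∃ t2, T = t1 + t2 := ⟨T - t1, by omega⟩
    have ht2R : (1 + ε / 2) * t n ≤ t2 := by
      have h1 : (T : ℝ) = t1 + t2 := by exact_mod_cast ht2def
      linarith
    have hε16 : 15 / 16 ≤ 1 - ε / 16 := by linarith
    -- lower bound for t2 / n
    set L := Real.log n with hL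
    have h2pi : 1 / 5 ≤ 2 / Real.pi ^ 2 := by
      rw [div_le_div_iff₀ (by norm_num) (by positivity)]; linarith
    have hKK : (0 : ℝ) ≤ (K : ℝ) ^ 2 * L := by positivity
    have hlo2 : 3 / 16 * ((K : ℝ) ^ 2 * L) ≤ t n / n := by
      refine le_trans ?_ hlo
      have h3 : 1 / 5 * ((K : ℝ) ^ 2 * L) ≤ 2 / Real.pi ^ 2 * (K : ℝ) ^ 2 * L := by
        rw [mul_assoc (2 / Real.pi ^ 2)]
        exact mul_le_mul_of_nonneg_right h2pi hKK
      have h4 : 15 / 16 * (1 / 5 * ((K : ℝ) ^ 2 * L)) ≤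
          (1 - ε / 16) * (2 / Real.pi ^ 2 * (K : ℝ) ^ 2 * L) :=
        mul_le_mul hε16 h3 (by positivity) (by linarith)
      linarith
    have hlo3 : 3 / 16 * ((K : ℝ) ^ 2 * L) * n ≤ t2 := by
      rw [le_div_iff₀ hn0] at hlo2
      exact aux6 hlo2 ht2R hε ht0
    have h4nk : 4 * n * K ^ 2 ≤ t2 := by
      have h3 : 4 * (n : ℝ) * (K : ℝ) ^ 2 ≤ t2 := aux7 (by positivity) e5 hn0 hlo3
      exact_mod_cast h3
    -- the exponential
    have hlam0 := P.lam_nonneg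
    have hexp1 : (1 + ε / 8) * L ≤ lam n θ * (2 * t2) := by
      have h3 : (1 + ε / 4) / (1 + ε / 2) * (Real.pi ^ 2 / 4) *
          ((1 + ε / 2) * ((1 - ε / 16) * (2 / Real.pi ^ 2 * L))) ≤
          (2 - 2 * Real.cos θ) * (K : ℝ) ^ 2 *
          ((1 + ε / 2) * ((1 - ε / 16) * (2 / Real.pi ^ 2 * L))) := by
        apply mul_le_mul_of_nonneg_right hrate
        have : 0 ≤ 1 - ε / 16 := by linarith
        positivity
      have h4 : (1 + ε / 4) / (1 + ε / 2) * (Real.pi ^ 2 / 4) *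
          ((1 + ε / 2) * ((1 - ε / 16) * (2 / Real.pi ^ 2 * L))) =
          (1 + ε / 4) * (1 - ε / 16) * L / 2 := by
        have : (1 + ε / 2) ≠ 0 := by positivity
        field_simp
        ring
      have h5 : (1 + ε / 8) * L ≤ (1 + ε / 4) * (1 - ε / 16) * L := aux8 hε hε1 (by linarith)
      have h6 : (1 + ε / 2) * ((1 - ε / 16) * (2 / Real.pi ^ 2 * (K : ℝ) ^ 2 * L)) ≤ t2 / n := by
        rw [le_div_iff₀ hn0]
        rw [le_div_iff₀ hn0] at hlo
        have h7 := mul_le_mul_of_nonneg_left hlo (by linarith : 0 ≤ 1 + ε / 2)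
        linarith
      have h8 := mul_le_mul_of_nonneg_left h6 hlam0
      have h9 : lam n θ * (2 * t2) = 2 * ((2 - 2 * Real.cos θ) * (t2 / n)) := by
        unfold lam; ring
      rw [h9]
      have h10 : (2 - 2 * Real.cos θ) * (K : ℝ) ^ 2 *
          ((1 + ε / 2) * ((1 - ε / 16) * (2 / Real.pi ^ 2 * L))) =
          (2 - 2 * Real.cos θ) *
          ((1 + ε / 2) * ((1 - ε / 16) * (2 / Real.pi ^ 2 * (K : ℝ) ^ 2 * L))) := by ring
      linarith
    have hexp2 : lam n θ * (4 * n * K ^ 2) ≤ 10 := by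
      have h3 : lam n θ * (4 * n * K ^ 2) = 4 * ((2 - 2 * Real.cos θ) * K ^ 2) := by
        unfold lam; field_simp
      rw [h3]
      have h4 : (2 - 2 * Real.cos θ) * (K : ℝ) ^ 2 ≤ θ ^ 2 * K ^ 2 :=
        mul_le_mul_of_nonneg_right hlam1 (by positivity)
      have h6 : (θ * K) ^ 2 ≤ (Real.pi / 2) ^ 2 := pow_le_pow_left₀ (by positivity) hθK 2
      exact aux9 h4 h6 hpisq
    have hy : 168 * n * B ^ 2 * Real.exp (-(lam n θ * (2 * t2 - 4 * n * K ^ 2))) ≤ Y n := by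
      have h3 : Real.exp (-(lam n θ * (2 * t2 - 4 * n * K ^ 2))) ≤
          Real.exp (10 + (-(ε / 8 * L)) + (-L)) := by
        apply Real.exp_le_exp.mpr
        have : lam n θ * (2 * t2 - 4 * n * K ^ 2) =
          lam n θ * (2 * t2) - lam n θ * (4 * n * K ^ 2) := by ring
        rw [this]
        linarith
      rw [Real.exp_add, Real.exp_add, Real.exp_neg L, hL, Real.exp_log hn0, ← hL] at h3
      calc _ ≤ 168 * n * B ^ 2 * (Real.exp 10 * Real.exp (-(ε / 8 * L)) * (n : ℝ)⁻¹) :=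
            mul_le_mul_of_nonneg_left h3 (by positivity)
        _ = Y n := by
            simp only [hY]
            rw [← hL]
            field_simp
    -- the negative part of the spectrum
    have hneg : (1 - 2 / (n : ℝ)) ^ (2 * t2) * (n : ℝ) ^ (2 * K + 2) ≤ 1 / n := by
      have h1 : 2 / (n : ℝ) ≤ 1 := by
        rw [div_le_one hn0]; linarith
      have h2 := one_sub_pow_le h1 (2 * t2)
      have h3 : (n : ℝ) ^ (2 * K + 2) = Real.exp ((2 * K + 2 : ℕ) * L) := by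
        rw [Real.exp_nat_mul, hL, Real.exp_log hn0]
      have h4 : (1 : ℝ) / n = Real.exp (-L) := by
        rw [Real.exp_neg, hL, Real.exp_log hn0, one_div]
      rw [h3, h4]
      calc _ ≤ Real.exp (-(((2 * t2 : ℕ) : ℝ) * (2 / n))) * Real.exp ((2 * K + 2 : ℕ) * L) :=
            mul_le_mul_of_nonneg_right h2 (Real.exp_pos _).le
        _ ≤ Real.exp (-L) := by
            rw [← Real.exp_add]
            apply Real.exp_le_exp.mpr
            push_cast
            have h5 : 3 / 16 * ((K : ℝ) ^ 2 * L) ≤ t2 / n := by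
              rw [le_div_iff₀ hn0]; exact hlo3
            have h6 : 2 * (t2 : ℝ) * (2 / n) = 4 * (t2 / n) := by ring
            rw [h6]
            have h7 : (2 * (K : ℝ) + 3) * L ≤ 3 / 4 * (K : ℝ) ^ 2 * L := aux10 hK5 (by linarith)
            linarith
    have hYn0 : 0 ≤ Y n := by simp only [hY]; positivity
    have hinvn : (0 : ℝ) ≤ 1 / n := by positivity
    have hup := upper2 P hB1 (by omega) hk1 (by omega) (aux11 hKn hnsin hsa0 hsa1) t1 t2 h4nk hy e6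
      (Real.sqrt_nonneg (8 * Y n + 1 / n)) (by
        rw [Real.sq_sqrt (by positivity)]
        linarith)
    rw [← ht2def] at hup
    refine hup.trans ?_
    apply add_le_add le_rfl
    apply div_le_div_of_nonneg_right _ (by positivity)
    have := phase1_err e4 ht1a
    linarith
  -- the limit of the bound
  refine squeeze_zero' (Eventually.of_forall fun n => tv_nonneg _ _) hbound ?_
  have hkR : Tendsto (fun n => (k n : ℝ)) atTop atTop := tendsto_natCast_atTop_atTop.comp hk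
  have l3 : Tendsto (fun n => 3 / (k n : ℝ)) atTop (𝓝 0) := tendsto_const_nhds.div_atTop hkR
  have l4 : Tendsto (fun n : ℕ => Real.sqrt (8 * Y n + 1 / n)) atTop (𝓝 0) := by
    have h1 : Tendsto (fun n : ℕ => 8 * Y n + 1 / (n : ℝ)) atTop (𝓝 (8 * 0 + 0)) :=
      (hY0.const_mul 8).add hinv
    have h2 := h1.sqrt
    simpa using h2
  have l5 := l4.add l3
  rw [add_zero] at l5
  exact l5.mono_left hl

end Pool.Agent.H9.Cut
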