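import Mathlib
import Pool.Agent.H9.Cut.Asym
import Pool.Agent.H79.CutLower2

/-!
# Every sequence strictly between `n log n` and `n³ log n` is a cut-off time sequence
-/

namespace Pool.Agent.H9.Cut

open Equiv Finset Filter Topology Pool.Agent.H79.Cut

/-- The normalised cut-off time of the broom walk on `S_n` with tail `j`. -/
noncomputable def c3 (n j : ℕ) : ℝ :=
  2 / Real.pi ^ 2 * (j : ℝ) ^ 2 * min (2 * Real.log j) (Real.log n)

lemma log_nat_atTop : Tendsto (fun n : ℕ => Real.log n) atTop atTop :=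
  Real.tendsto_log_atTop.comp tendsto_natCast_atTop_atTop

/-- The upper bound for all tails of length `o(n)`. -/
lemma upper_all {k : ℕ → ℕ} {t : ℕ → ℝ} (hk : Tendsto k atTop atTop)
    (hkn : Tendsto (fun n => (k n : ℝ) / n) atTop (𝓝 0))
    (ht : Tendsto (fun n : ℕ => t n / (n * Real.log n)) atTop atTop)
    (hlo : ∀ᶠ n : ℕ in atTop, c3 n (k n) ≤ t n / n)
    {ε : ℝ} (hε : 0 < ε) (hε1 : ε < 1) :
    Tendsto (fun n => tv (convPow (pfam k n) ⌊(1 + ε) * t n⌋₊) (unifOn univ)) atTop (𝓝 0) := by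
  have hpi := Real.pi_pos
  have hpi3 := Real.pi_gt_three
  classical
  have hlog : ∀ᶠ n : ℕ in atTop, 1 ≤ Real.log n := log_nat_atTop.eventually_ge_atTop 1
  have hn1 : ∀ᶠ n : ℕ in atTop, (1 : ℝ) ≤ n := tendsto_natCast_atTop_atTop.eventually_ge_atTop 1
  set S : Set ℕ := {n : ℕ | (k n : ℝ) ^ 2 * Real.log n ≤ n} with hS
  -- the modified data
  let k' : ℕ → ℕ := fun n => if n ∈ S then k n else Nat.sqrt (Nat.sqrt n)
  let t' : ℕ → ℝ := fun n => if n ∈ S then t n else (n : ℝ) ^ 2 * Real.log n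
  have hsq : Tendsto Nat.sqrt atTop atTop := by
    rw [tendsto_atTop]
    intro M
    filter_upwards [eventually_ge_atTop (M * M)] with n hn
    exact Nat.le_sqrt.mpr hn
  have hsq2 : Tendsto (fun n => Nat.sqrt (Nat.sqrt n)) atTop atTop := hsq.comp hsq
  have hk' : Tendsto k' atTop atTop := by
    rw [tendsto_atTop]
    intro M
    filter_upwards [hk.eventually_ge_atTop M, hsq2.eventually_ge_atTop M] with n h1 h2
    by_cases h : n ∈ S
    · simp only [k', if_pos h]; exact h1
    · simp only [k', if_neg h]; exact h2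
  have hsqR : ∀ n : ℕ, ((Nat.sqrt (Nat.sqrt n) : ℕ) : ℝ) ^ 2 ≤ Real.sqrt n := by
    intro n
    have h1 : (Nat.sqrt (Nat.sqrt n)) ^ 2 ≤ Nat.sqrt n := by
      rw [sq]; exact Nat.sqrt_le _
    have h2 : (((Nat.sqrt (Nat.sqrt n)) ^ 2 : ℕ) : ℝ) ≤ (Nat.sqrt n : ℝ) := by exact_mod_cast h1
    have h3 : (Nat.sqrt n : ℝ) ≤ Real.sqrt n := by
      apply Real.le_sqrt_of_sq_le
      have : (Nat.sqrt n) ^ 2 ≤ n := by rw [sq]; exact Nat.sqrt_le _
      exact_mod_cast this
    push_cast at h2
    exact h2.trans h3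
  have hkk : Tendsto (fun n => (k' n : ℝ) ^ 2 / n) atTop (𝓝 0) := by
    have hA : Tendsto (fun n : ℕ => (Real.log n)⁻¹) atTop (𝓝 0) :=
      tendsto_inv_atTop_zero.comp log_nat_atTop
    have hB : Tendsto (fun n : ℕ => (Real.sqrt n)⁻¹) atTop (𝓝 0) :=
      tendsto_inv_atTop_zero.comp (Real.tendsto_sqrt_atTop.comp tendsto_natCast_atTop_atTop)
    have hC : Tendsto (fun n : ℕ => (Real.log n)⁻¹ + (Real.sqrt n)⁻¹) atTop (𝓝 0) := by
      have := hA.add hB
      simpa using this
    refine squeeze_zero' (Eventually.of_forall fun n => by positivity) ?_ hC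
    filter_upwards [hlog, hn1] with n hl hn
    have hn0 : (0 : ℝ) < n := by linarith
    have hl0 : 0 < Real.log n := by linarith
    have hs0 : 0 < Real.sqrt n := Real.sqrt_pos.mpr hn0
    by_cases h : n ∈ S
    · simp only [k', if_pos h]
      have h1 : (k n : ℝ) ^ 2 * Real.log n ≤ n := h
      have h2 : (k n : ℝ) ^ 2 / n ≤ (Real.log n)⁻¹ := by
        rw [div_le_iff₀ hn0, inv_mul_eq_div, le_div_iff₀ hl0]
        exact h1
      have h3 : 0 < (Real.sqrt n)⁻¹ := inv_pos.mpr hs0
      linarith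
    · simp only [k', if_neg h]
      have h2 : ((Nat.sqrt (Nat.sqrt n) : ℕ) : ℝ) ^ 2 / n ≤ (Real.sqrt n)⁻¹ := by
        rw [div_le_iff₀ hn0]
        refine (hsqR n).trans (le_of_eq ?_)
        rw [eq_inv_mul_iff_mul_eq₀ hs0.ne', Real.mul_self_sqrt hn0.le]
      have h3 : 0 < (Real.log n)⁻¹ := inv_pos.mpr hl0
      linarith
  have ht' : Tendsto (fun n : ℕ => t' n / (n * Real.log n)) atTop atTop := by
    rw [tendsto_atTop]
    intro M
    have hM : ∀ᶠ n : ℕ in atTop, M ≤ (n : ℝ) := tendsto_natCast_atTop_atTop.eventually_ge_atTop M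
    filter_upwards [ht.eventually_ge_atTop M, hM, hlog, hn1] with n h1 h2 hl hn
    by_cases h : n ∈ S
    · simp only [t', if_pos h]; exact h1
    · simp only [t', if_neg h]
      rw [le_div_iff₀ (by nlinarith)]
      have h3 : 0 ≤ (n : ℝ) * Real.log n := by nlinarith
      calc M * ((n : ℝ) * Real.log n) ≤ n * ((n : ℝ) * Real.log n) :=
            mul_le_mul_of_nonneg_right h2 h3
        _ = _ := by ring
  have hlo' : ∀ᶠ n : ℕ in atTop,
      4 / Real.pi ^ 2 * (k' n : ℝ) ^ 2 * Real.log (k' n) ≤ t' n / n := by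
    filter_upwards [hlo, hlog, hn1, hk.eventually_ge_atTop 1, hsq2.eventually_ge_atTop 1] with
      n h1 hl hn hk1 hs1
    have hn0 : (0 : ℝ) < n := by linarith
    by_cases h : n ∈ S
    · simp only [k', t', if_pos h]
      have h2 : (k n : ℝ) ^ 2 * Real.log n ≤ n := h
      have hK1 : (1 : ℝ) ≤ k n := by exact_mod_cast hk1
      have h3 : (k n : ℝ) ^ 2 ≤ n := by
        have : (k n : ℝ) ^ 2 * 1 ≤ (k n : ℝ) ^ 2 * Real.log n :=
          mul_le_mul_of_nonneg_left hl (by positivity)
        linarith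
      have h4 : 2 * Real.log (k n) ≤ Real.log n := by
        have := Real.log_le_log (by positivity) h3
        rw [Real.log_pow] at this
        exact_mod_cast this
      unfold c3 at h1
      rw [min_eq_left h4] at h1
      refine le_trans (le_of_eq ?_) h1
      ring
    · simp only [k', t', if_neg h]
      set s : ℕ := Nat.sqrt (Nat.sqrt n) with hs
      have hs1R : (1 : ℝ) ≤ s := by exact_mod_cast hs1
      have h5 : (s : ℝ) ^ 2 ≤ Real.sqrt n := hsqR n
      have h6 : Real.sqrt n ≤ n := by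
        rw [Real.sqrt_le_left (by linarith)]
        nlinarith
      have h7 : (s : ℝ) ^ 2 ≤ n := h5.trans h6
      have h8 : (s : ℝ) ≤ n := by nlinarith
      have h9 : Real.log s ≤ Real.log n := Real.log_le_log (by linarith) h8
      have h10 : 0 ≤ Real.log s := Real.log_nonneg hs1R
      have h11 : 4 / Real.pi ^ 2 ≤ 1 := by
        rw [div_le_one (by positivity)]; nlinarith
      rw [le_div_iff₀ hn0]
      have h12 : 4 / Real.pi ^ 2 * (s : ℝ) ^ 2 * Real.log s ≤ 1 * (n : ℝ) * Real.log n := by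
        apply mul_le_mul _ h9 h10 (by positivity)
        exact mul_le_mul h11 h7 (by positivity) (by norm_num)
      calc 4 / Real.pi ^ 2 * (s : ℝ) ^ 2 * Real.log s * n ≤ 1 * (n : ℝ) * Real.log n * n :=
            mul_le_mul_of_nonneg_right h12 hn0.le
        _ = _ := by ring
  have hU1 := cutoff_upper hk' hkk ht' hlo' hε hε1
  -- the complementary part
  have hloglog : ∀ᶠ n : ℕ in atTop, Real.log (Real.log n) ≤ ε / 16 * Real.log n := by
    have h1 : Tendsto (fun x : ℝ => Real.log x / x) atTop (𝓝 0) := by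
      have := Real.isLittleO_log_id_atTop.tendsto_div_nhds_zero
      simpa using this
    have h2 := (h1.comp log_nat_atTop).eventually_le_const (show (0 : ℝ) < ε / 16 by positivity)
    filter_upwards [h2, hlog] with n h2 hl
    have h3 : Real.log (Real.log n) / Real.log n ≤ ε / 16 := h2
    rwa [div_le_iff₀ (by linarith)] at h3
  have hU2 := cutoff_upper2 (l := atTop ⊓ 𝓟 Sᶜ) inf_le_left hk hkn ht hε hε1 (by
    rw [eventually_inf_principal]
    filter_upwards [hlo, hlog, hn1, hk.eventually_ge_atTop 1, hloglog] with n h1 hl hn hk1 hll hnS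
    have hn0 : (0 : ℝ) < n := by linarith
    have hK1 : (1 : ℝ) ≤ k n := by exact_mod_cast hk1
    have h2 : ¬ (k n : ℝ) ^ 2 * Real.log n ≤ n := hnS
    push Not at h2
    have h3 : Real.log n ≤ 2 * Real.log (k n) + Real.log (Real.log n) := by
      have := Real.log_le_log hn0 h2.le
      rw [Real.log_mul (by positivity) (by linarith), Real.log_pow] at this
      exact_mod_cast this
    have h4 : (1 - ε / 16) * Real.log n ≤ min (2 * Real.log (k n)) (Real.log n) := by
      apply le_min
      · linarith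
      · nlinarith
    refine le_trans ?_ h1
    unfold c3
    calc (1 - ε / 16) * (2 / Real.pi ^ 2 * (k n : ℝ) ^ 2 * Real.log n) =
          2 / Real.pi ^ 2 * (k n : ℝ) ^ 2 * ((1 - ε / 16) * Real.log n) := by ring
      _ ≤ _ := mul_le_mul_of_nonneg_left h4 (by positivity))
  -- combination
  rw [tendsto_order] at hU1 hU2 ⊢
  have key : ∀ p : ℝ → Prop,
      (∀ᶠ n in atTop, p (tv (convPow (pfam k' n) ⌊(1 + ε) * t' n⌋₊) (unifOn univ))) →
      (∀ᶠ n in atTop ⊓ 𝓟 Sᶜ, p (tv (convPow (pfam k n) ⌊(1 + ε) * t n⌋₊) (unifOn univ))) →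
      ∀ᶠ n in atTop, p (tv (convPow (pfam k n) ⌊(1 + ε) * t n⌋₊) (unifOn univ)) := by
    intro p h1 h2
    rw [eventually_inf_principal] at h2
    filter_upwards [h1, h2] with n h1 h2
    by_cases h : n ∈ S
    · have e1 : t' n = t n := by simp only [t', if_pos h]
      have e2 : k' n = k n := by simp only [k', if_pos h]
      have e3 : pfam k' n = pfam k n := by
        cases n with
        | zero => rfl
        | succ n => show pb (n + 1) (k' (n + 1)) = pb (n + 1) (k (n + 1)); rw [e2]
      rw [e1, e3] at h1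
      exact h1
    · exact h2 h
  exact ⟨fun a ha => key (fun x => a < x) (hU1.1 a ha) (hU2.1 a ha),
    fun a ha => key (fun x => x < a) (hU1.2 a ha) (hU2.2 a ha)⟩

theorem window3 (t : ℕ → ℝ)
    (h1 : Tendsto (fun n : ℕ => t n / (n * Real.log n)) atTop atTop)
    (h2 : Tendsto (fun n : ℕ => t n / ((n : ℝ) ^ 3 * Real.log n)) atTop (𝓝 0)) :
    IsCutoffTime t := by
  have hpi := Real.pi_pos
  have hpi4 := Real.pi_lt_four
  -- basic eventual facts
  have hlog : ∀ᶠ n : ℕ in atTop, 1 ≤ Real.log n := log_nat_atTop.eventually_ge_atTop 1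
  have hn1 : ∀ᶠ n : ℕ in atTop, (1 : ℝ) ≤ n := tendsto_natCast_atTop_atTop.eventually_ge_atTop 1
  have htpos : ∀ᶠ n : ℕ in atTop, 0 < t n := by
    filter_upwards [h1.eventually_ge_atTop 1, hlog, hn1] with n h hl hn
    have h3 : (0 : ℝ) < n * Real.log n := by nlinarith
    rw [le_div_iff₀ h3] at h
    linarith
  have htn : Tendsto (fun n : ℕ => t n / n) atTop atTop := by
    apply tendsto_atTop_mono' _ _ h1
    filter_upwards [hlog, hn1, htpos] with n hl hn ht
    have h3 : (0 : ℝ) < n * Real.log n := by nlinarith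
    apply div_le_div_of_nonneg_left ht.le (by linarith)
    nlinarith
  have httop : Tendsto t atTop atTop := by
    apply tendsto_atTop_mono' _ _ htn
    filter_upwards [hn1, htpos] with n hn ht
    exact div_le_self ht.le hn
  classical
  let k : ℕ → ℕ := fun n => Nat.findGreatest (fun j => c3 n j ≤ t n / n) n
  have hkdef : ∀ n, k n = Nat.findGreatest (fun j => c3 n j ≤ t n / n) n := fun n => rfl
  have hlo : ∀ᶠ n : ℕ in atTop, c3 n (k n) ≤ t n / n := by
    filter_upwards [htpos, hn1] with n ht hn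
    have h0 : c3 n 0 ≤ t n / n := by
      unfold c3
      simp only [Nat.cast_zero]
      have : 0 ≤ t n / n := by positivity
      simpa using this
    have := Nat.findGreatest_spec (P := fun j => c3 n j ≤ t n / n) (Nat.zero_le n) h0
    rw [← hkdef] at this
    exact this
  have hk : Tendsto k atTop atTop := by
    rw [tendsto_atTop]
    intro M
    filter_upwards [htn.eventually_ge_atTop (2 / Real.pi ^ 2 * (M : ℝ) ^ 2 * (2 * Real.log M)),
      eventually_ge_atTop M] with n h hM
    refine Nat.le_findGreatest hM (le_trans ?_ h)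
    unfold c3
    exact mul_le_mul_of_nonneg_left (min_le_left _ _) (by positivity)
  have hkn : Tendsto (fun n => (k n : ℝ) / n) atTop (𝓝 0) := by
    rw [tendsto_order]
    refine ⟨fun a ha => Eventually.of_forall fun n => lt_of_lt_of_le ha (by positivity), ?_⟩
    intro δ hδ
    have h3 : ∀ᶠ n : ℕ in atTop, t n / ((n : ℝ) ^ 3 * Real.log n) ≤ δ ^ 2 / Real.pi ^ 2 :=
      h2.eventually_le_const (by positivity)
    have h4 : ∀ᶠ n : ℕ in atTop, -2 * Real.log δ ≤ Real.log n :=
      log_nat_atTop.eventually_ge_atTop _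
    filter_upwards [h3, h4, htpos, hn1, hlog, hlo, hk.eventually_ge_atTop 1] with
      n h3 h4 ht hn hl hlo hk1
    by_contra hc
    push Not at hc
    have hn0 : (0 : ℝ) < n := by linarith
    have hK1 : (1 : ℝ) ≤ k n := by exact_mod_cast hk1
    rw [le_div_iff₀ hn0] at hc
    have h5 : Real.log (δ * n) ≤ Real.log (k n : ℝ) := Real.log_le_log (by positivity) hc
    rw [Real.log_mul hδ.ne' hn0.ne'] at h5
    have h6 : Real.log n ≤ 2 * Real.log (k n) := by linarith
    unfold c3 at hlo
    rw [min_eq_right h6] at hlo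
    have h7 : 2 / Real.pi ^ 2 * (δ * n) ^ 2 * Real.log n ≤
        2 / Real.pi ^ 2 * (k n : ℝ) ^ 2 * Real.log n := by
      apply mul_le_mul_of_nonneg_right _ (by linarith)
      apply mul_le_mul_of_nonneg_left _ (by positivity)
      exact pow_le_pow_left₀ (by positivity) hc 2
    have h8 : (0 : ℝ) < (n : ℝ) ^ 3 * Real.log n := by positivity
    rw [div_le_iff₀ h8] at h3
    have h9 : t n / n ≤ δ ^ 2 / Real.pi ^ 2 * (n ^ 2 * Real.log n) := by
      rw [div_le_iff₀ hn0]
      refine h3.trans (le_of_eq ?_)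
      ring
    have h10 : 2 / Real.pi ^ 2 * (δ * n) ^ 2 * Real.log n =
        2 * (δ ^ 2 / Real.pi ^ 2 * (n ^ 2 * Real.log n)) := by
      ring
    have h11 : 0 < δ ^ 2 / Real.pi ^ 2 * (n ^ 2 * Real.log n) := by positivity
    linarith
  have hhalf : ∀ᶠ n : ℕ in atTop, (k n : ℝ) / n ≤ 1 / 2 := hkn.eventually_le_const (by positivity)
  have hhi : ∀ᶠ n : ℕ in atTop, t n / n ≤
      2 / Real.pi ^ 2 * ((k n : ℝ) + 1) ^ 2 * min (2 * Real.log ((k n : ℝ) + 1)) (Real.log n) := by
    filter_upwards [hn1, hhalf] with n hn e1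
    have hn0 : (0 : ℝ) < n := by linarith
    have hle : k n ≤ n := Nat.findGreatest_le n
    have hne : k n ≠ n := by
      intro he
      rw [he, div_self hn0.ne'] at e1
      norm_num at e1
    have hgt := Nat.findGreatest_is_greatest (P := fun j => c3 n j ≤ t n / n) (n := n)
      (k := k n + 1) (Nat.lt_succ_self _) (by omega)
    have h9 : ¬ c3 n (k n + 1) ≤ t n / n := hgt
    push Not at h9
    unfold c3 at h9
    push_cast at h9
    exact h9.le
  refine ⟨pfam k, ?_, htpos, httop, fun ε hε hε1 => ⟨upper_all hk hkn h1 hlo hε hε1,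
    cutoff_lower2 hk hkn htpos hhi hε hε1⟩⟩
  filter_upwards [hhalf, eventually_ge_atTop 10] with n e1 hn
  have : NeZero n := ⟨by omega⟩
  rw [pfam_eq]
  apply isMinGenWalk_pb
  have hn0 : (0 : ℝ) < n := by exact_mod_cast (show 0 < n by omega)
  rw [div_le_iff₀ hn0] at e1
  have : (k n : ℝ) * 2 ≤ n := by linarith
  have : k n * 2 ≤ n := by exact_mod_cast this
  omega

end Pool.Agent.H9.Cut
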