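import Mathlib
import Pool.Agent.H9.Cut.Window3

/-!
# Cut-off times of walks on the symmetric groups based on minimal generating sets

Every real sequence `t` with `t n / (n log n) → ∞` and `t n / (n³ log n) → 0` is a sequence of
cut-off times of a family of random walks on the symmetric groups based on minimal generating
sets.  The generating sets are the transpositions along the edges of a broom (a star with a path
of `k n` edges attached to one leaf), and the cut-off time is
`(2 / π²) n k² min (2 log k) (log n)`.
-/

namespace Pool.Agent.H9.Cut.WindowToCubeOld

open Filter Topology Pool.Agent.H79.Cut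

theorem result : ∀ t : ℕ → ℝ,
    Tendsto (fun n : ℕ => t n / ((n : ℝ) * Real.log n)) atTop atTop →
    Tendsto (fun n : ℕ => t n / ((n : ℝ) ^ 3 * Real.log n)) atTop (𝓝 0) →
    IsCutoffTime t :=
  fun t h1 h2 => Pool.Agent.H9.Cut.window3 t h1 h2

end Pool.Agent.H9.Cut.WindowToCubeOld
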